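import Pool.Agent.Q97.UM.Stm4
import Pool.Agent.H448R2.GC.X2

set_option autoImplicit false

/-! # Project UM, jobs UM-CVB and UM-MS: basic facts -/

namespace Pool.Agent.Q16.UM

open Filter Topology MeasureTheory Complex
open Pool.Agent.Q97.UM

noncomputable section

/-- `(s-1) ζ(s)`, entire -/
def Gz : ℂ → ℂ := Function.update (fun w : ℂ => (w - 1) * riemannZeta w) 1 1

theorem Gz_diff : Differentiable ℂ Gz := Pool.Agent.H448R2.GC.zeta_one_entire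

theorem Gz_ne {s : ℂ} (hs : s ≠ 1) : Gz s = (s - 1) * riemannZeta s := by
  unfold Gz; rw [Function.update_of_ne hs]

theorem Gz_one : Gz 1 = 1 := by unfold Gz; simp

theorem norm_le_re_im (s : ℂ) : ‖s‖ ≤ |s.re| + |s.im| := Complex.norm_le_abs_re_add_abs_im s

theorem Gz_bd {s : ℂ} (h1 : 1 / 2 ≤ s.re) (h2 : s.re ≤ 3) : ‖Gz s‖ ≤ 15 * (1 + |s.im|) ^ 2 := by
  have h0 := abs_nonneg s.im
  rcases eq_or_ne s 1 with rfl | hs
  · rw [Gz_one]; simp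
  · rw [Gz_ne hs, norm_mul]
    have a1 := Pool.Agent.H448R2.GC.X2.zeta_bd s (by linarith) hs
    have a2 : ‖s - 1‖ ≤ 2 + |s.im| := by
      refine (norm_le_re_im _).trans ?_
      rw [sub_re, sub_im, one_re, one_im, sub_zero]
      have : |s.re - 1| ≤ 2 := by rw [abs_le]; constructor <;> linarith
      linarith
    have a3 : ‖s‖ ≤ 3 + |s.im| := by
      refine (norm_le_re_im _).trans ?_
      rw [abs_of_nonneg (by linarith : 0 ≤ s.re)]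
      linarith
    have a4 : 0 < ‖s - 1‖ := norm_pos_iff.2 (sub_ne_zero.2 hs)
    have a5 : ‖s‖ / s.re ≤ 2 * ‖s‖ := by
      rw [div_le_iff₀ (by linarith)]
      nlinarith [norm_nonneg s]
    calc ‖s - 1‖ * ‖riemannZeta s‖ ≤ ‖s - 1‖ * (1 + 1 / ‖s - 1‖ + 2 * ‖s‖) := by gcongr; linarith
      _ = ‖s - 1‖ + 1 + 2 * (‖s - 1‖ * ‖s‖) := by field_simp
      _ ≤ (2 + |s.im|) + 1 + 2 * ((2 + |s.im|) * (3 + |s.im|)) := by gcongr
      _ ≤ 15 * (1 + |s.im|) ^ 2 := by nlinarith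

theorem dq_diff (M : ℕ) (c : ℕ → ℂ) : Differentiable ℂ (dq M c) := by
  unfold dq
  intro s
  refine DifferentiableAt.fun_sum fun n hn => ?_
  have hn1 : (n : ℂ) ≠ 0 := by
    have := (Finset.mem_Icc.1 hn).1
    exact_mod_cast (by omega : n ≠ 0)
  exact (DifferentiableAt.const_cpow (by fun_prop) (Or.inl hn1)).const_mul _

theorem norm_cpow {n : ℕ} (hn : 1 ≤ n) (s : ℂ) : ‖(n : ℂ) ^ (-s)‖ = (n : ℝ) ^ (-s.re) := by
  rw [Complex.norm_natCast_cpow_of_pos hn, neg_re]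

theorem dq_bd {M : ℕ} {c : ℕ → ℂ} {E : ℝ} (hE : 0 ≤ E) (hc : ∀ n ∈ Finset.Icc 1 M, ‖c n‖ ≤ E) {s : ℂ} (hs : 0 ≤ s.re) :
    ‖dq M c s‖ ≤ M * E := by
  unfold dq
  refine (norm_sum_le _ _).trans ?_
  have h1 : ∀ n ∈ Finset.Icc 1 M, ‖c n * (n : ℂ) ^ (-s)‖ ≤ E := by
    intro n hn
    have hn1 := (Finset.mem_Icc.1 hn).1
    rw [norm_mul, norm_cpow hn1]
    have h2 : (n : ℝ) ^ (-s.re) ≤ 1 := by
      apply Real.rpow_le_one_of_one_le_of_nonpos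
      · exact_mod_cast hn1
      · linarith
    calc ‖c n‖ * (n : ℝ) ^ (-s.re) ≤ E * 1 := mul_le_mul (hc n hn) h2 (by positivity) hE
      _ = E := mul_one E
  refine (Finset.sum_le_sum h1).trans ?_
  rw [Finset.sum_const, Nat.card_Icc, nsmul_eq_mul]
  simp

theorem N2_nonneg (N : ℕ) (b : ℕ → ℂ) : 0 ≤ N2 N b := Finset.sum_nonneg fun n _ => by positivity

/-- the coefficient sequence moved to another line -/
def mv (b : ℕ → ℂ) (x : ℝ) (n : ℕ) : ℂ := b n * (n : ℂ) ^ (x : ℂ)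

theorem mv_norm {b : ℕ → ℂ} {x : ℝ} {n : ℕ} (hn : 1 ≤ n) : ‖mv b x n‖ = ‖b n‖ * (n : ℝ) ^ x := by
  unfold mv
  rw [norm_mul, Complex.norm_natCast_cpow_of_pos hn, ofReal_re]

/-- the polynomial on another line -/
theorem dq_mv (N : ℕ) (b : ℕ → ℂ) (x : ℝ) (s : ℂ) : dq N (mv b x) s = dq N b (s - x) := by
  unfold dq mv
  apply Finset.sum_congr rfl
  intro n hn
  have hn1 : (n : ℂ) ≠ 0 := by
    have := (Finset.mem_Icc.1 hn).1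
    exact_mod_cast (by omega : n ≠ 0)
  rw [mul_assoc, ← cpow_add _ _ hn1]
  congr 2
  ring

theorem dq_dp (N : ℕ) (b : ℕ → ℂ) (t : ℝ) : dq N b (1 / 2 + t * I) = dp N b t := rfl

theorem N2_mv_le {N : ℕ} (hN : 1 ≤ N) (b : ℕ → ℂ) {x : ℝ} (hx : 0 ≤ x) : N2 N (mv b x) ≤ (N : ℝ) ^ (2 * x) * N2 N b := by
  unfold N2
  rw [Finset.mul_sum]
  apply Finset.sum_le_sum
  intro n hn
  have hn1 := (Finset.mem_Icc.1 hn).1
  have hn2 := (Finset.mem_Icc.1 hn).2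
  rw [mv_norm hn1, mul_pow, ← Real.rpow_natCast ((n : ℝ) ^ x), ← Real.rpow_mul (by positivity)]
  have h1 : (n : ℝ) ^ (x * ((2 : ℕ) : ℝ)) ≤ (N : ℝ) ^ (2 * x) := by
    rw [show x * ((2 : ℕ) : ℝ) = 2 * x by push_cast; ring]
    exact Real.rpow_le_rpow (by positivity) (by exact_mod_cast hn2) (by positivity)
  have hn0 : (0 : ℝ) < n := by exact_mod_cast hn1
  calc ‖b n‖ ^ 2 * (n : ℝ) ^ (x * ((2 : ℕ) : ℝ)) / n ≤ ‖b n‖ ^ 2 * (N : ℝ) ^ (2 * x) / n := by gcongr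
    _ = (N : ℝ) ^ (2 * x) * (‖b n‖ ^ 2 / n) := by ring

theorem N2_mv_neg (N : ℕ) (b : ℕ → ℂ) {x : ℝ} (hx : x ≤ 0) : N2 N (mv b x) ≤ N2 N b := by
  unfold N2
  apply Finset.sum_le_sum
  intro n hn
  have hn1 := (Finset.mem_Icc.1 hn).1
  rw [mv_norm hn1]
  have h1 : (n : ℝ) ^ x ≤ 1 := Real.rpow_le_one_of_one_le_of_nonpos (by exact_mod_cast hn1) hx
  have h2 : ‖b n‖ * (n : ℝ) ^ x ≤ ‖b n‖ := mul_le_of_le_one_right (norm_nonneg _) h1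
  have hn0 : (0 : ℝ) < n := by exact_mod_cast hn1
  gcongr

/-- trivial bound of the polynomial in the strip -/
theorem dq_triv {N : ℕ} {b : ℕ → ℂ} {s : ℂ} (hs : -2 ≤ s.re) : ‖dq N b s‖ ≤ (N : ℝ) ^ 3 * Real.sqrt (N2 N b) := by
  unfold dq
  refine (norm_sum_le _ _).trans ?_
  have h1 : ∀ n ∈ Finset.Icc 1 N, ‖b n * (n : ℂ) ^ (-s)‖ ≤ (‖b n‖ / Real.sqrt n) * ((N : ℝ) ^ 2 * Real.sqrt N) := by
    intro n hn
    have hn1 := (Finset.mem_Icc.1 hn).1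
    have hn2 := (Finset.mem_Icc.1 hn).2
    have hn0 : (0 : ℝ) < n := by exact_mod_cast hn1
    have hnN : (n : ℝ) ≤ N := by exact_mod_cast hn2
    rw [norm_mul, norm_cpow hn1]
    have h2 : (n : ℝ) ^ (-s.re) ≤ (n : ℝ) ^ 2 := by
      rw [← Real.rpow_natCast (n : ℝ) 2]
      apply Real.rpow_le_rpow_of_exponent_le
      · exact_mod_cast hn1
      · push_cast; linarith
    have h3 : (n : ℝ) ^ 2 ≤ (N : ℝ) ^ 2 := by gcongr
    have h4 : 1 ≤ (1 / Real.sqrt n) * Real.sqrt N := by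
      rw [one_div, ← div_eq_inv_mul, le_div_iff₀ (Real.sqrt_pos.2 hn0), one_mul]
      exact Real.sqrt_le_sqrt hnN
    calc ‖b n‖ * (n : ℝ) ^ (-s.re) ≤ ‖b n‖ * (N : ℝ) ^ 2 := by gcongr; linarith
      _ = (‖b n‖ * (N : ℝ) ^ 2) * 1 := by ring
      _ ≤ (‖b n‖ * (N : ℝ) ^ 2) * ((1 / Real.sqrt n) * Real.sqrt N) := by gcongr
      _ = (‖b n‖ / Real.sqrt n) * ((N : ℝ) ^ 2 * Real.sqrt N) := by ring
  refine (Finset.sum_le_sum h1).trans ?_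
  rw [← Finset.sum_mul]
  have h5 : ∑ n ∈ Finset.Icc 1 N, ‖b n‖ / Real.sqrt n ≤ Real.sqrt N * Real.sqrt (N2 N b) := by
    have h6 := Real.sum_sqrt_mul_sqrt_le (Finset.Icc 1 N) (f := fun _ => (1 : ℝ)) (g := fun n => ‖b n‖ ^ 2 / (n : ℝ))
      (fun _ => zero_le_one) (fun n => by positivity)
    have h7 : ∑ _n ∈ Finset.Icc 1 N, (1 : ℝ) = N := by simp
    rw [h7] at h6
    have h8 : ∀ n ∈ Finset.Icc 1 N, Real.sqrt 1 * Real.sqrt (‖b n‖ ^ 2 / (n : ℝ)) = ‖b n‖ / Real.sqrt n := by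
      intro n _
      rw [Real.sqrt_one, one_mul, Real.sqrt_div (by positivity), Real.sqrt_sq (norm_nonneg _)]
    rw [Finset.sum_congr rfl h8] at h6
    exact h6
  calc (∑ n ∈ Finset.Icc 1 N, ‖b n‖ / Real.sqrt n) * ((N : ℝ) ^ 2 * Real.sqrt N)
      ≤ (Real.sqrt N * Real.sqrt (N2 N b)) * ((N : ℝ) ^ 2 * Real.sqrt N) := by gcongr
    _ = (Real.sqrt N * Real.sqrt N) * (N : ℝ) ^ 2 * Real.sqrt (N2 N b) := by ring
    _ = (N : ℝ) ^ 3 * Real.sqrt (N2 N b) := by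
      rw [Real.mul_self_sqrt (by positivity)]
      ring

/-- the function `ζ η² - c` -/
def Hc (e : ℕ → ℂ) (Y : ℕ) (c : ℝ) (s : ℂ) : ℂ := riemannZeta s * dq Y e s ^ 2 - c

/-- its entire companion -/
def Gc (e : ℕ → ℂ) (Y : ℕ) (c : ℝ) (s : ℂ) : ℂ := Gz s * dq Y e s ^ 2 - c * (s - 1)

theorem Gc_diff (e : ℕ → ℂ) (Y : ℕ) (c : ℝ) : Differentiable ℂ (Gc e Y c) :=
  (Gz_diff.mul ((dq_diff Y e).pow 2)).sub ((differentiable_id.sub_const 1).const_mul _)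

theorem Gc_ne {e : ℕ → ℂ} {Y : ℕ} {c : ℝ} {s : ℂ} (hs : s ≠ 1) : Gc e Y c s = (s - 1) * Hc e Y c s := by
  unfold Gc Hc
  rw [Gz_ne hs]
  ring

theorem Gc_bd {e : ℕ → ℂ} {Y : ℕ} {c E : ℝ} (hE : 0 ≤ E) (he : ∀ n ∈ Finset.Icc 1 Y, ‖e n‖ ≤ E) (hc : |c| ≤ 1) {s : ℂ}
    (h1 : 1 / 2 ≤ s.re) (h2 : s.re ≤ 3) : ‖Gc e Y c s‖ ≤ 17 * (1 + (Y * E) ^ 2) * (1 + |s.im|) ^ 2 := by
  have h0 := abs_nonneg s.im
  unfold Gc
  refine (norm_sub_le _ _).trans ?_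
  rw [norm_mul, norm_mul, norm_pow, norm_real, Real.norm_eq_abs]
  have a1 := Gz_bd h1 h2
  have a2 : ‖dq Y e s‖ ^ 2 ≤ (Y * E) ^ 2 := pow_le_pow_left₀ (norm_nonneg _) (dq_bd hE he (by linarith)) 2
  have a3 : ‖s - 1‖ ≤ 2 + |s.im| := by
    refine (norm_le_re_im _).trans ?_
    rw [sub_re, sub_im, one_re, one_im, sub_zero]
    have : |s.re - 1| ≤ 2 := by rw [abs_le]; constructor <;> linarith
    linarith
  have a4 : ‖Gz s‖ * ‖dq Y e s‖ ^ 2 ≤ 15 * (1 + |s.im|) ^ 2 * (Y * E) ^ 2 :=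
    mul_le_mul a1 a2 (by positivity) (by positivity)
  have a5 : |c| * ‖s - 1‖ ≤ 1 * (2 + |s.im|) := mul_le_mul hc a3 (norm_nonneg _) zero_le_one
  have a6 : 0 ≤ (Y * E : ℝ) ^ 2 * (1 + |s.im|) ^ 2 := by positivity
  nlinarith

end

end Pool.Agent.Q16.UM
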