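import Pool.Agent.Q16.UM.Bdy0

set_option autoImplicit false

/-! Project UM3 (helper97), job UM3-BDY. -/

namespace Pool.Agent.Q16.UM3

open Filter Topology MeasureTheory Set
open Pool.Agent.Q97.UM Pool.Agent.Q210.UM

section weights

variable {δ H C : ℝ} {K : ℕ} {w : ℝ → ℝ}

theorem om_near (hw : OmW δ H C K w) {x : ℝ} (hx : |x| ≤ H) : 1 - (om w (x : ℂ)).re ≤ C / (1 + (H - |x|)) ^ K := by
  have h := hw.near (x : ℂ) (by simpa using hx)
  simp only [Complex.ofReal_re, Complex.ofReal_im, abs_zero, mul_zero, Real.exp_zero, mul_one] at h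
  refine le_trans ?_ h
  have h1 := Complex.abs_re_le_norm (om w (x : ℂ) - 1)
  rw [Complex.sub_re, Complex.one_re] at h1
  have h2 := neg_abs_le ((om w (x : ℂ)).re - 1)
  linarith

theorem om_far (hw : OmW δ H C K w) {x : ℝ} (hx : H ≤ |x|) : (om w (x : ℂ)).re ≤ C / (1 + (|x| - H)) ^ K := by
  have h := hw.far (x : ℂ) (by simpa using hx)
  simp only [Complex.ofReal_re, Complex.ofReal_im, abs_zero, mul_zero, Real.exp_zero, mul_one] at h
  exact (Complex.re_le_norm _).trans h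

theorem qr_nonneg (T t : ℝ) (s : ℂ) : 0 ≤ qr w T t s := by unfold qr; positivity

theorem qr_le_sq (hw : OmW δ H C K w) (T t : ℝ) (s : ℂ) : qr w T t s ≤ (om w ((Real.log T * (s.im - t) : ℝ) : ℂ)).re := by
  obtain ⟨_, h1, h2⟩ := hw.unit (Real.log T * (s.im - t))
  unfold qr
  have h3 : Real.exp (-(s.im - t) ^ 2 / 2) ≤ 1 := by
    rw [Real.exp_le_one_iff]
    nlinarith [sq_nonneg (s.im - t)]
  have h4 : 0 < Real.exp (-(s.im - t) ^ 2 / 2) := Real.exp_pos _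
  set o := (om w ((Real.log T * (s.im - t) : ℝ) : ℂ)).re
  have h5 : o ^ 2 ≤ o := by nlinarith
  calc o ^ 2 * Real.exp (-(s.im - t) ^ 2 / 2) ≤ o ^ 2 * 1 := by gcongr
    _ ≤ o := by linarith

theorem qr_le_one (hw : OmW δ H C K w) (T t : ℝ) (s : ℂ) : qr w T t s ≤ 1 :=
  (qr_le_sq hw T t s).trans (hw.unit _).2.2

theorem qr_near (hw : OmW δ H C K w) {T t : ℝ} {s : ℂ} {η : ℝ} (hx : |Real.log T * (s.im - t)| ≤ H)
    (hη : (s.im - t) ^ 2 ≤ η) : 1 - qr w T t s ≤ 2 * C / (1 + (H - |Real.log T * (s.im - t)|)) ^ K + η := by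
  obtain ⟨_, h1, h2⟩ := hw.unit (Real.log T * (s.im - t))
  have h3 := om_near hw hx
  unfold qr
  set o := (om w ((Real.log T * (s.im - t) : ℝ) : ℂ)).re
  have h4 : 1 - Real.exp (-(s.im - t) ^ 2 / 2) ≤ η := by
    have := Real.add_one_le_exp (-(s.im - t) ^ 2 / 2)
    have : 0 ≤ (s.im - t) ^ 2 := sq_nonneg _
    linarith
  have h5 : Real.exp (-(s.im - t) ^ 2 / 2) ≤ 1 := by
    rw [Real.exp_le_one_iff]
    nlinarith [sq_nonneg (s.im - t)]
  have h6 : 1 - o ^ 2 * Real.exp (-(s.im - t) ^ 2 / 2) = (1 - o ^ 2) + o ^ 2 * (1 - Real.exp (-(s.im - t) ^ 2 / 2)) := by ring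
  rw [h6]
  have h7 : 1 - o ^ 2 ≤ 2 * (1 - o) := by nlinarith
  have h8 : o ^ 2 * (1 - Real.exp (-(s.im - t) ^ 2 / 2)) ≤ 1 * (1 - Real.exp (-(s.im - t) ^ 2 / 2)) := by
    apply mul_le_mul_of_nonneg_right _ (by linarith)
    nlinarith
  rw [mul_div_assoc]
  linarith

end weights

/-- from a point to its cell -/
theorem inv_cell {H x C' : ℝ} {K : ℕ} (hK : 2 ≤ K) (hC' : 0 ≤ C') :
    C' / (1 + |(|x| - H)|) ^ K ≤ C' * (4 / (1 + |(|((⌊x⌋ : ℤ) : ℝ)| - H)|) ^ 2) := by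
  set n : ℝ := ((⌊x⌋ : ℤ) : ℝ)
  have hX : |x - n| ≤ 1 := by
    have h4 := Int.floor_le x
    have h5 := Int.lt_floor_add_one x
    rw [abs_le]
    constructor <;> linarith
  set u : ℝ := |(|x| - H)| with hu
  set v : ℝ := |(|n| - H)| with hv
  have hu0 : 0 ≤ u := abs_nonneg _
  have hv0 : 0 ≤ v := abs_nonneg _
  have hxn : |(|x| - |n|)| ≤ 1 := (abs_abs_sub_abs_le_abs_sub x n).trans hX
  have hvu : v ≤ u + 1 := by
    have h1 := abs_sub_abs_le_abs_sub (|n| - H) (|x| - H)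
    have h2 : |n| - H - (|x| - H) = -(|x| - |n|) := by ring
    rw [h2, abs_neg] at h1
    linarith
  have hsq : 1 / (1 + u) ^ 2 ≤ 4 / (1 + v) ^ 2 := by
    rw [div_le_div_iff₀ (by positivity) (by positivity)]
    have h1 : 1 + v ≤ 2 * (1 + u) := by linarith
    have h2 : (1 + v) ^ 2 ≤ (2 * (1 + u)) ^ 2 := pow_le_pow_left₀ (by linarith) h1 2
    nlinarith
  have hA : 1 / (1 + u) ^ K ≤ 4 / (1 + v) ^ 2 := by
    refine le_trans ?_ hsq
    exact one_div_le_one_div_of_le (by positivity) (pow_le_pow_right₀ (by linarith) hK)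
  rw [div_eq_mul_one_div]
  exact mul_le_mul_of_nonneg_left hA hC'

theorem fR_bd {R : ℝ → ℝ} {D M lam : ℝ} (hR : Tst R D M) (hlam : 0 < lam) (hlam1 : lam ≤ 1) (u : ℝ) :
    0 ≤ M ∧ |fR R (lam * u)| ≤ M / lam ^ 2 * (1 / (1 + u ^ 2)) ∧ |fR R (lam * u)| ≤ M / lam ^ 2 := by
  have hM : 0 ≤ M := by
    have h := hR.dec 0
    have h1 := abs_nonneg (fR R 0)
    norm_num at h
    linarith
  have h1 := hR.dec (lam * u)
  have h2 : M / (1 + (lam * u) ^ 2) ≤ M / lam ^ 2 * (1 / (1 + u ^ 2)) := by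
    rw [div_mul_div_comm, mul_one]
    apply div_le_div_of_nonneg_left hM (by positivity)
    have : lam ^ 2 ≤ 1 := by nlinarith
    nlinarith [sq_nonneg u]
  refine ⟨hM, h1.trans h2, h1.trans (h2.trans ?_)⟩
  have h3 : 1 / (1 + u ^ 2) ≤ 1 := by
    rw [div_le_one (by positivity)]
    nlinarith [sq_nonneg u]
  have h4 : 0 ≤ M / lam ^ 2 := by positivity
  nlinarith

theorem inv_pair (x x' : ℝ) : 1 / (1 + (x - x') ^ 2) ≤ 4 * (1 / (1 + (((⌊x⌋ : ℤ) : ℝ) - ((⌊x'⌋ : ℤ) : ℝ)) ^ 2)) := by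
  have h1 := Int.floor_le x
  have h2 := Int.lt_floor_add_one x
  have h3 := Int.floor_le x'
  have h4 := Int.lt_floor_add_one x'
  set n : ℝ := ((⌊x⌋ : ℤ) : ℝ)
  set n' : ℝ := ((⌊x'⌋ : ℤ) : ℝ)
  have h5 : |(n - n') - (x - x')| ≤ 1 := by
    rw [abs_le]
    constructor <;> linarith
  have h6 : (n - n') ^ 2 ≤ 2 * (x - x') ^ 2 + 2 := by
    have h7 : ((n - n') - (x - x')) ^ 2 ≤ 1 := by
      rw [← sq_abs]
      nlinarith [abs_nonneg ((n - n') - (x - x'))]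
    nlinarith [sq_nonneg ((n - n') - 2 * (x - x'))]
  rw [mul_one_div, div_le_div_iff₀ (by positivity) (by positivity)]
  nlinarith [sq_nonneg (x - x')]

open Classical in
/-- the weight of a pair of cells -/
noncomputable def WB (H C G η : ℝ) (n n' : ℤ) : ℝ :=
  (2 * C * (4 / (1 + |(|(n : ℝ)| - H)|) ^ 2) + (if |(n : ℝ)| ≤ H + 1 then 2 * η + 2 * C * (4 / (1 + |(|(n' : ℝ)| - H)|) ^ 2) else 0) +
    (if |(n : ℝ)| ≤ H + 1 ∧ H - 1 ≤ |(n' : ℝ)| then 1 else 0)) * (G * (1 / (1 + ((n : ℝ) - n') ^ 2)))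

theorem WB_nonneg {H C G η : ℝ} (hC : 0 ≤ C) (hG : 0 ≤ G) (hη : 0 ≤ η) (n n' : ℤ) : 0 ≤ WB H C G η n n' := by
  unfold WB
  have h1 : (0 : ℝ) ≤ (if |(n : ℝ)| ≤ H + 1 then 2 * η + 2 * C * (4 / (1 + |(|(n' : ℝ)| - H)|) ^ 2) else 0) := by
    split_ifs <;> positivity
  have h2 : (0 : ℝ) ≤ (if |(n : ℝ)| ≤ H + 1 ∧ H - 1 ≤ |(n' : ℝ)| then 1 else 0) := by
    split_ifs <;> norm_num
  positivity

theorem sum_WB {H C G η : ℝ} (hH : 1 ≤ H) (hC : 1 ≤ C) (hG : 0 ≤ G) (hη : 0 ≤ η) (hη1 : η * (1 + H) ^ 2 ≤ 1) (M : ℤ) :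
    ∑ n ∈ Finset.Icc (-M) M, ∑ n' ∈ Finset.Icc (-M) M, WB H C G η n n' ≤
      G * (1024 * C * Z0 ^ 2 + 128 * Z0 ^ 2 + 144) * (1 + Real.log H) := by
  classical
  have hZ0 := Z0_nonneg
  have hlog : 0 ≤ Real.log H := Real.log_nonneg hH
  set I := Finset.Icc (-M) M with hI
  set a : ℤ → ℝ := fun n => 4 / (1 + |(|(n : ℝ)| - H)|) ^ 2 with ha
  set g : ℤ → ℤ → ℝ := fun n n' => 1 / (1 + ((n : ℝ) - n') ^ 2) with hg
  have ha0 : ∀ n, 0 ≤ a n := fun n => by simp only [ha]; positivity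
  have hg0 : ∀ n n', 0 ≤ g n n' := fun n n' => by simp only [hg]; positivity
  have hsa : ∑ n ∈ I, a n ≤ 32 * Z0 := sum_A H M
  have hsg : ∀ n, ∑ n' ∈ I, g n n' ≤ 8 * Z0 := fun n => sum_inv I n
  have hsg' : ∀ n', ∑ n ∈ I, g n n' ≤ 8 * Z0 := by
    intro n'
    have := sum_inv I n'
    refine le_trans (le_of_eq (Finset.sum_congr rfl fun n _ => ?_)) this
    simp only [hg]
    congr 2
    ring
  have hpt : ∀ n n', WB H C G η n n' ≤ G * (2 * C * (a n * g n n') + (2 * η * ((1 + H) ^ 2 / 4)) * (a n * g n n') +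
      2 * C * (a n' * g n n') + (if |(n : ℝ)| ≤ H + 1 ∧ H - 1 ≤ |(n' : ℝ)| then g n n' else 0)) := by
    intro n n'
    unfold WB
    have k1 : (if |(n : ℝ)| ≤ H + 1 then 2 * η + 2 * C * (4 / (1 + |(|(n' : ℝ)| - H)|) ^ 2) else 0) ≤
        2 * η * ((1 + H) ^ 2 / 4) * a n + 2 * C * a n' := by
      split_ifs with h
      · have k2 : 1 ≤ (1 + H) ^ 2 / 4 * a n := by
          simp only [ha]
          rw [div_mul_div_comm, mul_comm ((1 + H) ^ 2) 4, mul_div_mul_left _ _ (by norm_num : (4 : ℝ) ≠ 0),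
            le_div_iff₀ (by positivity), one_mul]
          apply pow_le_pow_left₀ (by positivity)
          have : |(|(n : ℝ)| - H)| ≤ H := by
            rw [abs_le]
            have := abs_nonneg (n : ℝ)
            constructor <;> linarith
          linarith
        have k3 : 2 * η * 1 ≤ 2 * η * ((1 + H) ^ 2 / 4 * a n) := mul_le_mul_of_nonneg_left k2 (by positivity)
        have : 2 * η * ((1 + H) ^ 2 / 4) * a n = 2 * η * ((1 + H) ^ 2 / 4 * a n) := by ring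
        rw [this]
        simp only [ha] at k3 ⊢
        linarith
      · have := ha0 n
        have := ha0 n'
        positivity
    have k2 : (if |(n : ℝ)| ≤ H + 1 ∧ H - 1 ≤ |(n' : ℝ)| then g n n' else 0) =
        (if |(n : ℝ)| ≤ H + 1 ∧ H - 1 ≤ |(n' : ℝ)| then (1 : ℝ) else 0) * g n n' := by
      split_ifs
      · rw [one_mul]
      · rw [zero_mul]
    rw [k2]
    have k3 : 0 ≤ G * g n n' := mul_nonneg hG (hg0 n n')
    calc _ ≤ (2 * C * a n + (2 * η * ((1 + H) ^ 2 / 4) * a n + 2 * C * a n') +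
          (if |(n : ℝ)| ≤ H + 1 ∧ H - 1 ≤ |(n' : ℝ)| then (1 : ℝ) else 0)) * (G * g n n') := by
          apply mul_le_mul_of_nonneg_right _ k3
          have := k1
          linarith
      _ = _ := by ring
  calc ∑ n ∈ I, ∑ n' ∈ I, WB H C G η n n' ≤ ∑ n ∈ I, ∑ n' ∈ I, G * (2 * C * (a n * g n n') + (2 * η * ((1 + H) ^ 2 / 4)) * (a n * g n n') +
        2 * C * (a n' * g n n') + (if |(n : ℝ)| ≤ H + 1 ∧ H - 1 ≤ |(n' : ℝ)| then g n n' else 0)) :=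
        Finset.sum_le_sum fun n _ => Finset.sum_le_sum fun n' _ => hpt n n'
    _ = G * (2 * C * (∑ n ∈ I, a n * ∑ n' ∈ I, g n n') + (2 * η * ((1 + H) ^ 2 / 4)) * (∑ n ∈ I, a n * ∑ n' ∈ I, g n n') +
        2 * C * (∑ n' ∈ I, a n' * ∑ n ∈ I, g n n') +
        ∑ n ∈ I, ∑ n' ∈ I, (if |(n : ℝ)| ≤ H + 1 ∧ H - 1 ≤ |(n' : ℝ)| then g n n' else 0)) := by
        have f1 : ∑ n ∈ I, ∑ n' ∈ I, a n' * g n n' = ∑ n' ∈ I, a n' * ∑ n ∈ I, g n n' := by
          rw [Finset.sum_comm]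
          exact Finset.sum_congr rfl fun n' _ => by rw [Finset.mul_sum]
        have f2 : ∑ n ∈ I, ∑ n' ∈ I, a n * g n n' = ∑ n ∈ I, a n * ∑ n' ∈ I, g n n' :=
          Finset.sum_congr rfl fun n _ => by rw [Finset.mul_sum]
        rw [← f1, ← f2]
        simp_rw [← Finset.mul_sum, Finset.sum_add_distrib, ← Finset.mul_sum]
    _ ≤ G * (2 * C * (32 * Z0 * (8 * Z0)) + (2 * η * ((1 + H) ^ 2 / 4)) * (32 * Z0 * (8 * Z0)) +
        2 * C * (32 * Z0 * (8 * Z0)) + 144 * (1 + Real.log H)) := by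
        have g1 : ∑ n ∈ I, a n * ∑ n' ∈ I, g n n' ≤ 32 * Z0 * (8 * Z0) := by
          calc ∑ n ∈ I, a n * ∑ n' ∈ I, g n n' ≤ ∑ n ∈ I, a n * (8 * Z0) :=
                Finset.sum_le_sum fun n _ => mul_le_mul_of_nonneg_left (hsg n) (ha0 n)
            _ = (∑ n ∈ I, a n) * (8 * Z0) := by rw [Finset.sum_mul]
            _ ≤ 32 * Z0 * (8 * Z0) := by gcongr
        have g2 : ∑ n' ∈ I, a n' * ∑ n ∈ I, g n n' ≤ 32 * Z0 * (8 * Z0) := by
          calc ∑ n' ∈ I, a n' * ∑ n ∈ I, g n n' ≤ ∑ n' ∈ I, a n' * (8 * Z0) :=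
                Finset.sum_le_sum fun n' _ => mul_le_mul_of_nonneg_left (hsg' n') (ha0 n')
            _ = (∑ n' ∈ I, a n') * (8 * Z0) := by rw [Finset.sum_mul]
            _ ≤ 32 * Z0 * (8 * Z0) := by gcongr
        have g3 := sum_log hH I I
        apply mul_le_mul_of_nonneg_left _ hG
        gcongr
    _ ≤ _ := by
        have g1 : 2 * η * ((1 + H) ^ 2 / 4) ≤ 1 / 2 := by linarith
        have g2 : 2 * η * ((1 + H) ^ 2 / 4) * (32 * Z0 * (8 * Z0)) ≤ 1 / 2 * (32 * Z0 * (8 * Z0)) := by gcongr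
        have g3 : (1024 * C * Z0 ^ 2 + 128 * Z0 ^ 2) * 1 ≤ (1024 * C * Z0 ^ 2 + 128 * Z0 ^ 2) * (1 + Real.log H) := by
          apply mul_le_mul_of_nonneg_left _ (by positivity)
          linarith
        rw [mul_assoc G]
        apply mul_le_mul_of_nonneg_left _ hG
        nlinarith

end Pool.Agent.Q16.UM3
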