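import Pool.Agent.Q16.UM.Cell

set_option autoImplicit false

/-! Project UM3 (helper97), job BDY, part 0: sums over cells. -/

namespace Pool.Agent.Q16.UM3

open Filter Topology MeasureTheory Set
open Pool.Agent.Q97.UM Pool.Agent.Q210.UM

/-- the absolute constant -/
noncomputable def Z0 : ℝ := ∑' m : ℤ, 1 / (1 + |(m : ℝ)|) ^ 2

theorem Z0_nonneg : 0 ≤ Z0 := tsum_nonneg fun m => by positivity

theorem sum_inv (F : Finset ℤ) (n : ℤ) : ∑ k ∈ F, 1 / (1 + ((n : ℝ) - k) ^ 2) ≤ 8 * Z0 := by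
  have h1 := Pool.Agent.Q222.UM.sum_shift F (n : ℝ)
  have h2 : ∀ k ∈ F, 1 / (1 + ((n : ℝ) - k) ^ 2) ≤ 1 / 2 * (4 / (1 + |(k : ℝ) - n|) ^ 2) := by
    intro k _
    have h3 : 0 ≤ |(k : ℝ) - n| := abs_nonneg _
    have h4 : ((n : ℝ) - k) ^ 2 = |(k : ℝ) - n| ^ 2 := by rw [sq_abs]; ring
    rw [h4, mul_div_assoc', div_le_div_iff₀ (by positivity) (by positivity)]
    nlinarith [sq_nonneg (|(k : ℝ) - n| - 1)]
  calc ∑ k ∈ F, 1 / (1 + ((n : ℝ) - k) ^ 2) ≤ ∑ k ∈ F, 1 / 2 * (4 / (1 + |(k : ℝ) - n|) ^ 2) := Finset.sum_le_sum h2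
    _ = 1 / 2 * ∑ k ∈ F, 4 / (1 + |(k : ℝ) - n|) ^ 2 := by rw [Finset.mul_sum]
    _ ≤ 1 / 2 * (16 * Z0) := by
        have := h1
        unfold Z0
        gcongr
    _ = 8 * Z0 := by ring

theorem sum_A (H : ℝ) (M : ℤ) : ∑ n ∈ Finset.Icc (-M) M, 4 / (1 + |(|(n : ℝ)| - H)|) ^ 2 ≤ 32 * Z0 := by
  have h2 : ∀ n : ℤ, 4 / (1 + |(|(n : ℝ)| - H)|) ^ 2 ≤
      4 / (1 + |(n : ℝ) - H|) ^ 2 + 4 / (1 + |((-n : ℤ) : ℝ) - H|) ^ 2 := by
    intro n
    rcases abs_choice (n : ℝ) with h | h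
    · rw [h]
      have : (0 : ℝ) ≤ 4 / (1 + |((-n : ℤ) : ℝ) - H|) ^ 2 := by positivity
      linarith
    · rw [h]
      push_cast
      have : (0 : ℝ) ≤ 4 / (1 + |(n : ℝ) - H|) ^ 2 := by positivity
      linarith
  have h3 := Pool.Agent.Q222.UM.sum_shift (Finset.Icc (-M) M) H
  have h4 := Pool.Agent.Q222.UM.sum_shift ((Finset.Icc (-M) M).image (fun n => -n)) H
  rw [Finset.sum_image (fun a _ b _ hab => neg_injective hab)] at h4
  calc ∑ n ∈ Finset.Icc (-M) M, 4 / (1 + |(|(n : ℝ)| - H)|) ^ 2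
      ≤ ∑ n ∈ Finset.Icc (-M) M,
        (4 / (1 + |(n : ℝ) - H|) ^ 2 + 4 / (1 + |((-n : ℤ) : ℝ) - H|) ^ 2) :=
        Finset.sum_le_sum fun n _ => h2 n
    _ = ∑ n ∈ Finset.Icc (-M) M, 4 / (1 + |(n : ℝ) - H|) ^ 2 +
        ∑ n ∈ Finset.Icc (-M) M, 4 / (1 + |((-n : ℤ) : ℝ) - H|) ^ 2 := Finset.sum_add_distrib
    _ ≤ _ := by unfold Z0; linarith

/-- sums over integers of functions of the absolute value -/
theorem sum_natAbs (F : Finset ℤ) (J : Finset ℕ) (hF : ∀ k ∈ F, k.natAbs ∈ J) (g : ℕ → ℝ) (hg : ∀ j, 0 ≤ g j) :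
    ∑ k ∈ F, g k.natAbs ≤ 2 * ∑ j ∈ J, g j := by
  classical
  rw [← Finset.sum_fiberwise_of_maps_to hF, Finset.mul_sum]
  refine Finset.sum_le_sum fun j _ => ?_
  have h1 : ∑ k ∈ F.filter (fun k => k.natAbs = j), g k.natAbs = ∑ k ∈ F.filter (fun k => k.natAbs = j), g j :=
    Finset.sum_congr rfl fun k hk => by rw [(Finset.mem_filter.1 hk).2]
  rw [h1, Finset.sum_const, nsmul_eq_mul]
  have h2 : (F.filter (fun k => k.natAbs = j)).card ≤ 2 := by
    have h3 : F.filter (fun k => k.natAbs = j) ⊆ {(j : ℤ), -(j : ℤ)} := by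
      intro k hk
      have := (Finset.mem_filter.1 hk).2
      rw [Finset.mem_insert, Finset.mem_singleton]
      omega
    exact (Finset.card_le_card h3).trans Finset.card_le_two
  have h3 : ((F.filter (fun k => k.natAbs = j)).card : ℝ) ≤ 2 := by exact_mod_cast h2
  exact mul_le_mul_of_nonneg_right h3 (hg j)

theorem tele (d : ℝ) (hd : 0 ≤ d) (m : ℕ) : ∑ j ∈ Finset.range m, (if d ≤ (j : ℝ) then 1 / (1 + (j : ℝ)) - 1 / (2 + (j : ℝ)) else 0) +
    (if d ≤ (m : ℝ) then 1 / (1 + (m : ℝ)) else 1 / (1 + d)) ≤ 1 / (1 + d) := by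
  induction m with
  | zero =>
    simp only [Finset.range_zero, Finset.sum_empty, Nat.cast_zero, zero_add]
    split_ifs with h
    · have : d = 0 := le_antisymm h hd
      rw [this]
    · exact le_rfl
  | succ m ih =>
    rw [Finset.sum_range_succ]
    push_cast
    by_cases h : d ≤ (m : ℝ)
    · rw [if_pos h] at ih
      rw [if_pos h, if_pos (by linarith : d ≤ (m : ℝ) + 1)]
      have e : (1 : ℝ) + (m + 1) = 2 + m := by ring
      rw [e]
      linarith
    · rw [if_neg h] at ih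
      rw [if_neg h]
      split_ifs with h2
      · have : 1 / (1 + ((m : ℝ) + 1)) ≤ 1 / (1 + d) := one_div_le_one_div_of_le (by linarith) (by linarith)
        linarith
      · linarith

theorem sum_tail (F : Finset ℤ) (d : ℝ) (hd : 0 ≤ d) : ∑ k ∈ F, (if d ≤ |(k : ℝ)| then 1 / (1 + (k : ℝ) ^ 2) else 0) ≤ 8 / (1 + d) := by
  classical
  set g : ℕ → ℝ := fun j => if d ≤ (j : ℝ) then 4 * (1 / (1 + (j : ℝ)) - 1 / (2 + (j : ℝ))) else 0 with hg
  have hdiff : ∀ x : ℝ, 0 ≤ x → 1 / (1 + x ^ 2) ≤ 4 * (1 / (1 + x) - 1 / (2 + x)) := by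
    intro x hx
    have e : 1 / (1 + x) - 1 / (2 + x) = 1 / ((1 + x) * (2 + x)) := by
      field_simp
      ring
    rw [e, mul_one_div, div_le_div_iff₀ (by positivity) (by positivity)]
    nlinarith [sq_nonneg (x - 1 / 2)]
  have hg0 : ∀ j, 0 ≤ g j := by
    intro j
    simp only [hg]
    split_ifs
    · exact (by positivity : (0 : ℝ) ≤ 1 / (1 + (j : ℝ) ^ 2)).trans (hdiff j (Nat.cast_nonneg j))
    · exact le_rfl
  obtain ⟨m, hm⟩ : ∃ m : ℕ, ∀ k ∈ F, k.natAbs ∈ Finset.range m := by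
    refine ⟨F.sup Int.natAbs + 1, fun k hk => ?_⟩
    rw [Finset.mem_range]
    exact Nat.lt_succ_of_le (Finset.le_sup (f := Int.natAbs) hk)
  have h1 := sum_natAbs F (Finset.range m) hm g hg0
  have h2 : ∑ k ∈ F, (if d ≤ |(k : ℝ)| then 1 / (1 + (k : ℝ) ^ 2) else 0) ≤ ∑ k ∈ F, g k.natAbs := by
    refine Finset.sum_le_sum fun k _ => ?_
    have e : ((k.natAbs : ℕ) : ℝ) = |(k : ℝ)| := Nat.cast_natAbs k |>.trans (by push_cast; rfl)
    simp only [hg, e]
    split_ifs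
    · rw [← sq_abs]
      exact hdiff _ (abs_nonneg _)
    · exact le_rfl
  have h3 := tele d hd m
  have h4 : ∑ j ∈ Finset.range m, g j = 4 * ∑ j ∈ Finset.range m, (if d ≤ (j : ℝ) then 1 / (1 + (j : ℝ)) - 1 / (2 + (j : ℝ)) else 0) := by
    rw [Finset.mul_sum]
    refine Finset.sum_congr rfl fun j _ => ?_
    simp only [hg]
    split_ifs
    · rfl
    · simp
  have h5 : (0 : ℝ) ≤ (if d ≤ (m : ℝ) then 1 / (1 + (m : ℝ)) else 1 / (1 + d)) := by
    split_ifs <;> positivity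
  have h6 : ∑ j ∈ Finset.range m, (if d ≤ (j : ℝ) then 1 / (1 + (j : ℝ)) - 1 / (2 + (j : ℝ)) else 0) ≤ 1 / (1 + d) := by linarith
  calc ∑ k ∈ F, (if d ≤ |(k : ℝ)| then 1 / (1 + (k : ℝ) ^ 2) else 0) ≤ 2 * ∑ j ∈ Finset.range m, g j := h2.trans h1
    _ ≤ 2 * (4 * (1 / (1 + d))) := by
        rw [h4]
        gcongr
    _ = 8 / (1 + d) := by ring

open Classical in
/-- the pairs of cells on different sides of the boundary of the window -/
theorem sum_log {H : ℝ} (hH : 1 ≤ H) (F F' : Finset ℤ) :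
    ∑ n ∈ F, ∑ n' ∈ F', (if |(n : ℝ)| ≤ H + 1 ∧ H - 1 ≤ |(n' : ℝ)| then 1 / (1 + ((n : ℝ) - n') ^ 2) else 0) ≤
      144 * (1 + Real.log H) := by
  set J : ℕ := ⌊H + 1⌋₊ with hJ
  have hJ1 : (J : ℝ) ≤ H + 1 := Nat.floor_le (by linarith)
  have hJ2 : H + 1 < J + 1 := Nat.lt_floor_add_one _
  set g : ℕ → ℝ := fun j => if j ≤ J then 24 / ((J : ℝ) - j + 1) else 0 with hg
  have hg0 : ∀ j, 0 ≤ g j := by
    intro j
    simp only [hg]
    split_ifs with h
    · have : (j : ℝ) ≤ J := by exact_mod_cast h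
      have : 0 < (J : ℝ) - j + 1 := by linarith
      positivity
    · exact le_rfl
  have h1 : ∀ n ∈ F, ∑ n' ∈ F', (if |(n : ℝ)| ≤ H + 1 ∧ H - 1 ≤ |(n' : ℝ)| then 1 / (1 + ((n : ℝ) - n') ^ 2) else 0) ≤
      g n.natAbs := by
    intro n _
    have e : ((n.natAbs : ℕ) : ℝ) = |(n : ℝ)| := Nat.cast_natAbs n |>.trans (by push_cast; rfl)
    by_cases hn : |(n : ℝ)| ≤ H + 1
    · have hnJ : n.natAbs ≤ J := by
        apply Nat.le_floor
        rw [e]
        exact hn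
      have hnJ' : |(n : ℝ)| ≤ J := by
        rw [← e]
        exact_mod_cast hnJ
      simp only [hg, if_pos hnJ, e]
      set d : ℝ := max 0 (H - 1 - |(n : ℝ)|) with hd
      have hd0 : 0 ≤ d := le_max_left _ _
      have h2 := sum_tail (F'.image (fun n' => n' - n)) d hd0
      rw [Finset.sum_image (fun a _ b _ hab => sub_left_injective hab)] at h2
      calc ∑ n' ∈ F', (if |(n : ℝ)| ≤ H + 1 ∧ H - 1 ≤ |(n' : ℝ)| then 1 / (1 + ((n : ℝ) - n') ^ 2) else 0) ≤
            ∑ n' ∈ F', (if d ≤ |((n' - n : ℤ) : ℝ)| then 1 / (1 + ((n' - n : ℤ) : ℝ) ^ 2) else 0) := by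
            refine Finset.sum_le_sum fun n' _ => ?_
            have e2 : ((n : ℝ) - n') ^ 2 = ((n' - n : ℤ) : ℝ) ^ 2 := by push_cast; ring
            by_cases hc : |(n : ℝ)| ≤ H + 1 ∧ H - 1 ≤ |(n' : ℝ)|
            · rw [if_pos hc, if_pos, e2]
              rw [hd]
              apply max_le (abs_nonneg _)
              push_cast
              have := abs_sub_abs_le_abs_sub (n' : ℝ) n
              linarith [hc.2]
            · rw [if_neg hc]
              split_ifs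
              · positivity
              · exact le_rfl
        _ ≤ 8 / (1 + d) := h2
        _ ≤ 24 / ((J : ℝ) - |(n : ℝ)| + 1) := by
            rw [div_le_div_iff₀ (by linarith) (by linarith)]
            have k1 : H - 1 - |(n : ℝ)| ≤ d := le_max_right _ _
            nlinarith
    · refine le_trans (le_of_eq ?_) (hg0 _)
      refine Finset.sum_eq_zero fun n' _ => ?_
      rw [if_neg (fun h => hn h.1)]
  refine (Finset.sum_le_sum h1).trans ?_
  set m : ℕ := F.sup Int.natAbs + J + 1 with hm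
  have hmF : ∀ k ∈ F, k.natAbs ∈ Finset.range m := by
    intro k hk
    rw [Finset.mem_range]
    have := Finset.le_sup (f := Int.natAbs) hk
    omega
  refine (sum_natAbs F (Finset.range m) hmF g hg0).trans ?_
  have h2 : ∑ j ∈ Finset.range m, g j = ∑ j ∈ Finset.range (J + 1), 24 / ((J : ℝ) - j + 1) := by
    simp only [hg]
    rw [← Finset.sum_filter]
    refine Finset.sum_congr ?_ fun _ _ => rfl
    ext j
    simp only [Finset.mem_filter, Finset.mem_range]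
    omega
  have h3 : ∑ j ∈ Finset.range (J + 1), 24 / ((J : ℝ) - j + 1) = 24 * (harmonic (J + 1) : ℝ) := by
    rw [← Finset.sum_range_reflect, harmonic]
    push_cast
    rw [Finset.mul_sum]
    refine Finset.sum_congr rfl fun j hj => ?_
    have := Finset.mem_range.1 hj
    have e : ((J - j : ℕ) : ℝ) = (J : ℝ) - j := Nat.cast_sub (by omega)
    rw [e, div_eq_mul_inv]
    congr 2
    ring
  have h4 : (harmonic (J + 1) : ℝ) ≤ 1 + Real.log (J + 1 : ℕ) := by exact_mod_cast harmonic_le_one_add_log (J + 1)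
  have h5 : Real.log (J + 1 : ℕ) ≤ 2 + Real.log H := by
    have h6 : ((J + 1 : ℕ) : ℝ) ≤ 3 * H := by push_cast; linarith
    have h7 : Real.log 3 ≤ 2 := by
      rw [Real.log_le_iff_le_exp (by norm_num)]
      have := Real.add_one_le_exp (2 : ℝ)
      linarith
    calc Real.log (J + 1 : ℕ) ≤ Real.log (3 * H) := Real.log_le_log (by positivity) h6
      _ = Real.log 3 + Real.log H := Real.log_mul (by norm_num) (by linarith)
      _ ≤ _ := by linarith
  have h8 : 0 ≤ Real.log H := Real.log_nonneg hH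
  rw [h2, h3]
  nlinarith

end Pool.Agent.Q16.UM3
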