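import Pool.Agent.Q16.UM.Bdy

set_option autoImplicit false

/-! Project UM3 (helper97), job UM3-BDY: the theorem. -/

namespace Pool.Agent.Q16.UM3

open Filter Topology MeasureTheory Set
open Pool.Agent.Q97.UM Pool.Agent.Q210.UM

open Classical in
/-- the indicator of the window -/
noncomputable def iw (H L t : ℝ) (s : ℂ) : ℝ := if |s.im - t| ≤ H / L then 1 else 0

theorem DW_eq (R : ℝ → ℝ) (lam H T t : ℝ) : DW R lam H T t =
    ∑ s ∈ ZT T, ∑ s' ∈ ZT T, (mz s : ℝ) * (mz s' : ℝ) * iw H (Real.log T) t s * fR R (lam * Real.log T * (s.im - s'.im)) := by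
  classical
  unfold DW Sg
  rw [Finset.sum_filter]
  refine Finset.sum_congr rfl fun s _ => ?_
  unfold iw
  split_ifs with h
  · rw [Finset.mul_sum]
    exact Finset.sum_congr rfl fun s' _ => by ring
  · symm
    apply Finset.sum_eq_zero
    intro s' _
    ring

theorem pair_le {δ H C : ℝ} {K : ℕ} {w : ℝ → ℝ} (hw : OmW δ H C K w) (hC : 1 ≤ C) (hK : 2 ≤ K)
    {R : ℝ → ℝ} {D M lam : ℝ} (hR : Tst R D M) (hlam : 0 < lam) (hlam1 : lam ≤ 1) {T t η : ℝ} (hL : 0 < Real.log T)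
    (hη0 : 0 ≤ η) (hη : (H / Real.log T) ^ 2 ≤ η) (s s' : ℂ) :
    |qr w T t s * qr w T t s' - iw H (Real.log T) t s| * |fR R (lam * Real.log T * (s.im - s'.im))| ≤
      WB H C (4 * (M / lam ^ 2)) η ⌊Real.log T * (s.im - t)⌋ ⌊Real.log T * (s'.im - t)⌋ := by
  classical
  set L := Real.log T with hLd
  set x := L * (s.im - t) with hx
  set x' := L * (s'.im - t) with hx'
  obtain ⟨hM, hf, _⟩ := fR_bd hR hlam hlam1 (x - x')
  have ef : lam * L * (s.im - s'.im) = lam * (x - x') := by rw [hx, hx']; ring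
  rw [ef]
  have q0 := qr_nonneg (w := w) T t s
  have q0' := qr_nonneg (w := w) T t s'
  have q1 := qr_le_one hw T t s
  have q1' := qr_le_one hw T t s'
  have hml : 0 ≤ M / lam ^ 2 := by positivity
  have hfl : |fR R (lam * (x - x'))| ≤ 4 * (M / lam ^ 2) * (1 / (1 + (((⌊x⌋ : ℤ) : ℝ) - ((⌊x'⌋ : ℤ) : ℝ)) ^ 2)) := by
    refine hf.trans ?_
    calc M / lam ^ 2 * (1 / (1 + (x - x') ^ 2)) ≤
          M / lam ^ 2 * (4 * (1 / (1 + (((⌊x⌋ : ℤ) : ℝ) - ((⌊x'⌋ : ℤ) : ℝ)) ^ 2))) :=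
          mul_le_mul_of_nonneg_left (inv_pair x x') hml
      _ = _ := by ring
  have habs : ∀ y : ℂ, |L * (y.im - t)| ≤ H ↔ |y.im - t| ≤ H / L := by
    intro y
    rw [abs_mul, abs_of_pos hL, le_div_iff₀ hL, mul_comm]
  have hA : ∀ z : ℝ, 2 * C / (1 + |(|z| - H)|) ^ K ≤ 2 * C * (4 / (1 + |(|((⌊z⌋ : ℤ) : ℝ)| - H)|) ^ 2) := fun z =>
    inv_cell hK (by linarith)
  have hfloor : ∀ z : ℝ, |(|z| - |((⌊z⌋ : ℤ) : ℝ)|)| ≤ 1 := by
    intro z
    refine (abs_abs_sub_abs_le_abs_sub z _).trans ?_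
    have h4 := Int.floor_le z
    have h5 := Int.lt_floor_add_one z
    rw [abs_le]
    constructor <;> linarith
  have hsq : ∀ y : ℂ, |L * (y.im - t)| ≤ H → (y.im - t) ^ 2 ≤ η := by
    intro y hy
    refine le_trans ?_ hη
    rw [← sq_abs (y.im - t)]
    exact pow_le_pow_left₀ (abs_nonneg _) ((habs y).1 hy) 2
  have hmain : |qr w T t s * qr w T t s' - iw H L t s| ≤
      2 * C * (4 / (1 + |(|((⌊x⌋ : ℤ) : ℝ)| - H)|) ^ 2) +
      (if |((⌊x⌋ : ℤ) : ℝ)| ≤ H + 1 then 2 * η + 2 * C * (4 / (1 + |(|((⌊x'⌋ : ℤ) : ℝ)| - H)|) ^ 2) else 0) +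
      (if |((⌊x⌋ : ℤ) : ℝ)| ≤ H + 1 ∧ H - 1 ≤ |((⌊x'⌋ : ℤ) : ℝ)| then 1 else 0) := by
    have b1 := abs_le.1 (hfloor x)
    have b2 := abs_le.1 (hfloor x')
    by_cases hc : |x| ≤ H
    · have e1 : iw H L t s = 1 := by
        unfold iw
        rw [if_pos ((habs s).1 hc)]
      have hn : |((⌊x⌋ : ℤ) : ℝ)| ≤ H + 1 := by linarith [b1.1]
      rw [e1, if_pos hn]
      have k1 := qr_near hw hc (hsq s hc)
      have e2 : |(|x| - H)| = H - |x| := by rw [abs_of_nonpos (by linarith)]; ring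
      have k2 := hA x
      rw [e2] at k2
      have hqq : qr w T t s * qr w T t s' ≤ 1 := mul_le_one₀ q1 q0' q1'
      rw [abs_of_nonpos (by linarith)]
      have k3 : -(qr w T t s * qr w T t s' - 1) ≤ (1 - qr w T t s) + (1 - qr w T t s') := by nlinarith
      by_cases hc' : |x'| ≤ H
      · have k4 := qr_near hw hc' (hsq s' hc')
        have e3 : |(|x'| - H)| = H - |x'| := by rw [abs_of_nonpos (by linarith)]; ring
        have k5 := hA x'
        rw [e3] at k5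
        have k6 : (0 : ℝ) ≤ (if |((⌊x⌋ : ℤ) : ℝ)| ≤ H + 1 ∧ H - 1 ≤ |((⌊x'⌋ : ℤ) : ℝ)| then 1 else 0) := by
          split_ifs <;> norm_num
        linarith
      · push Not at hc'
        rw [if_pos (⟨hn, by linarith [b2.2]⟩ : |((⌊x⌋ : ℤ) : ℝ)| ≤ H + 1 ∧ H - 1 ≤ |((⌊x'⌋ : ℤ) : ℝ)|)]
        have k6 : 0 ≤ 2 * C * (4 / (1 + |(|((⌊x'⌋ : ℤ) : ℝ)| - H)|) ^ 2) := by positivity
        linarith
    · push Not at hc
      have e1 : iw H L t s = 0 := by
        unfold iw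
        rw [if_neg (fun h => absurd ((habs s).2 h) (not_le.2 hc))]
      rw [e1, sub_zero, abs_of_nonneg (mul_nonneg q0 q0')]
      have k1 := om_far hw hc.le
      have k2 := qr_le_sq hw T t s
      have e2 : |(|x| - H)| = |x| - H := abs_of_pos (by linarith)
      have k3 := hA x
      rw [e2] at k3
      have k4 : C / (1 + (|x| - H)) ^ K ≤ 2 * C / (1 + (|x| - H)) ^ K := by
        have : 0 < 1 + (|x| - H) := by linarith
        gcongr
        linarith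
      have k5 : qr w T t s * qr w T t s' ≤ qr w T t s := mul_le_of_le_one_right q0 q1'
      have k6 : (0 : ℝ) ≤ (if |((⌊x⌋ : ℤ) : ℝ)| ≤ H + 1 ∧ H - 1 ≤ |((⌊x'⌋ : ℤ) : ℝ)| then 1 else 0) := by
        split_ifs <;> norm_num
      have k7 : (0 : ℝ) ≤ (if |((⌊x⌋ : ℤ) : ℝ)| ≤ H + 1 then 2 * η + 2 * C * (4 / (1 + |(|((⌊x'⌋ : ℤ) : ℝ)| - H)|) ^ 2) else 0) := by
        split_ifs
        · positivity
        · exact le_rfl
      linarith
  unfold WB
  exact mul_le_mul hmain hfl (abs_nonneg _) ((abs_nonneg _).trans hmain)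

theorem pair_far {δ H C : ℝ} {K : ℕ} {w : ℝ → ℝ} (hw : OmW δ H C K w) (hC : 1 ≤ C) (hK : 2 ≤ K)
    {R : ℝ → ℝ} {D M lam : ℝ} (hR : Tst R D M) (hlam : 0 < lam) (hlam1 : lam ≤ 1) {T t Q : ℝ} (hL : 0 < Real.log T)
    (hQ : 1 ≤ Q) (hQH : 2 * H ≤ Q) (s s' : ℂ)
    (hss : Q < |Real.log T * (s.im - t)| ∨ Q < |Real.log T * (s'.im - t)|) :
    |qr w T t s * qr w T t s' - iw H (Real.log T) t s| * |fR R (lam * Real.log T * (s.im - s'.im))| ≤
      4 * C * (M / lam ^ 2) / Q ^ 2 := by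
  classical
  set L := Real.log T with hLd
  set x := L * (s.im - t) with hx
  set x' := L * (s'.im - t) with hx'
  obtain ⟨hM, hf, hf2⟩ := fR_bd hR hlam hlam1 (x - x')
  have ef : lam * L * (s.im - s'.im) = lam * (x - x') := by rw [hx, hx']; ring
  rw [ef]
  have q0 := qr_nonneg (w := w) T t s
  have q0' := qr_nonneg (w := w) T t s'
  have q1 := qr_le_one hw T t s
  have q1' := qr_le_one hw T t s'
  have hml : 0 ≤ M / lam ^ 2 := by positivity
  have habs : ∀ y : ℂ, |L * (y.im - t)| ≤ H ↔ |y.im - t| ≤ H / L := by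
    intro y
    rw [abs_mul, abs_of_pos hL, le_div_iff₀ hL, mul_comm]
  have hfar : ∀ y : ℂ, Q < |L * (y.im - t)| → H ≤ |L * (y.im - t)| → qr w T t y ≤ 4 * C / Q ^ 2 := by
    intro y hy hH
    have k1 := om_far hw hH
    have k2 := qr_le_sq hw T t y
    have k3 : Q / 2 ≤ 1 + (|L * (y.im - t)| - H) := by linarith
    have k5 : 1 ≤ 1 + (|L * (y.im - t)| - H) := by linarith
    have k4 : (Q / 2) ^ 2 ≤ (1 + (|L * (y.im - t)| - H)) ^ K :=
      (pow_le_pow_left₀ (by positivity) k3 2).trans (pow_le_pow_right₀ k5 hK)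
    calc qr w T t y ≤ C / (1 + (|L * (y.im - t)| - H)) ^ K := k2.trans k1
      _ ≤ C / (Q / 2) ^ 2 := div_le_div_of_nonneg_left (by linarith) (by positivity) k4
      _ = 4 * C / Q ^ 2 := by field_simp; norm_num
  by_cases hc : |x| ≤ H
  · have e1 : iw H L t s = 1 := by
      unfold iw
      rw [if_pos ((habs s).1 hc)]
    have hx'Q : Q < |x'| := by
      rcases hss with h | h
      · exfalso
        linarith [abs_nonneg x]
      · exact h
    have k1 : |qr w T t s * qr w T t s' - iw H L t s| ≤ 1 := by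
      rw [e1, abs_le]
      have hqq : qr w T t s * qr w T t s' ≤ 1 := mul_le_one₀ q1 q0' q1'
      have hqq0 : 0 ≤ qr w T t s * qr w T t s' := mul_nonneg q0 q0'
      constructor <;> linarith
    have k2 : Q / 2 ≤ |x - x'| := by
      have := abs_sub_abs_le_abs_sub x' x
      rw [abs_sub_comm] at this
      linarith
    have k3 : 1 / (1 + (x - x') ^ 2) ≤ 4 * C / Q ^ 2 := by
      rw [div_le_div_iff₀ (by positivity) (by positivity)]
      have : (Q / 2) ^ 2 ≤ (x - x') ^ 2 := by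
        rw [← sq_abs (x - x')]
        exact pow_le_pow_left₀ (by positivity) k2 2
      nlinarith [sq_nonneg (x - x')]
    calc _ ≤ 1 * (M / lam ^ 2 * (4 * C / Q ^ 2)) :=
          mul_le_mul k1 (hf.trans (mul_le_mul_of_nonneg_left k3 hml)) (abs_nonneg _) zero_le_one
      _ = _ := by ring
  · push Not at hc
    have e1 : iw H L t s = 0 := by
      unfold iw
      rw [if_neg (fun h => absurd ((habs s).2 h) (not_le.2 hc))]
    rw [e1, sub_zero, abs_of_nonneg (mul_nonneg q0 q0')]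
    have k1 : qr w T t s * qr w T t s' ≤ 4 * C / Q ^ 2 := by
      rcases hss with h | h
      · exact (mul_le_of_le_one_right q0 q1').trans (hfar s h hc.le)
      · exact (mul_le_of_le_one_left q0' q1).trans (hfar s' h (by linarith [abs_nonneg x]))
    calc _ ≤ 4 * C / Q ^ 2 * (M / lam ^ 2) := mul_le_mul k1 hf2 (abs_nonneg _) (by positivity)
      _ = _ := by ring

theorem t_BDY : J_BDY := by
  classical
  intro hMVL θ C₂ hθ0 hθ1 hC₂ hS R D M lam δ C K _ hR hlam hlam1 hδ hδ1 hC hK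
  obtain ⟨Cn, hCn, hcr⟩ := H370.NN_crude H370.good_zeta
  have hM := (fR_bd hR hlam hlam1 0).1
  have hml : 0 ≤ M / lam ^ 2 := by positivity
  have hZ0 := Z0_nonneg
  refine ⟨C₂ * (4 * (M / lam ^ 2) * (1024 * C * Z0 ^ 2 + 128 * Z0 ^ 2 + 144)) + 2 * (4096 * C * (M / lam ^ 2) * Cn ^ 2),
    by positivity, ?_⟩
  intro H hH w hw
  unfold SDB at hS
  have e2 : ∀ᶠ T : ℝ in atTop, 4 * Real.log T ≤ T := by
    have h1 := Real.isLittleO_log_id_atTop.bound (by norm_num : (0 : ℝ) < 1 / 4)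
    filter_upwards [h1, eventually_ge_atTop (1 : ℝ)] with T h2 h3
    simp only [id, Real.norm_eq_abs] at h2
    rw [abs_of_nonneg (Real.log_nonneg h3), abs_of_nonneg (by linarith : 0 ≤ T)] at h2
    linarith
  filter_upwards [hS, e2, eventually_ge_atTop (1024 : ℝ), Real.tendsto_log_atTop.eventually_ge_atTop (H * (1 + H)),
    eventually_ge_atTop (32 * H)] with T hS1 hT2 hT hLH hTH N hN b
  have hT0 : 0 < T := by linarith
  set L : ℝ := Real.log T with hL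
  have hL1 : 1 ≤ L := by nlinarith
  have hL0 : 0 < L := by linarith
  have hV := V_cont Pool.Agent.Q84.UM.t_DPM N b
  have hV0 : ∀ s : ℝ, 0 ≤ ‖dp N b s‖ ^ 2 := fun s => sq_nonneg _
  have hNb := Pool.Agent.Q210.UM.N2_nonneg N b
  have hcount : ∑ s ∈ ZT T, (mz s : ℝ) ≤ Cn * (T * L) := by
    have h1 := hcr T (by linarith) (T + 1) (2 * T - 1) (by linarith) (by linarith)
    rw [H370.NN_eq H370.good_zeta (by linarith : (1 : ℝ) ≤ T + 1)] at h1
    push_cast at h1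
    exact h1
  have hcount0 : 0 ≤ ∑ s ∈ ZT T, (mz s : ℝ) := Finset.sum_nonneg fun _ _ => Nat.cast_nonneg _
  set Q : ℝ := T * L / 32 with hQ
  have hTL : T ≤ T * L := le_mul_of_one_le_right hT0.le hL1
  have hQ1 : 1 ≤ Q := by rw [hQ]; linarith
  have hHLL : H ≤ L := by nlinarith
  have hQH : 2 * H ≤ Q := by
    rw [hQ]
    nlinarith
  set Mz : ℤ := ⌈Q⌉ + 1 with hMz
  have hMz1 : Q + 1 ≤ Mz := by
    rw [hMz]
    push_cast
    linarith [Int.le_ceil Q]
  have hMz2 : (Mz : ℝ) ≤ Q + 2 := by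
    rw [hMz]
    push_cast
    linarith [Int.ceil_lt_add_one Q]
  set η : ℝ := (H / L) ^ 2 with hη
  have hη0 : 0 ≤ η := by positivity
  have hη1 : η * (1 + H) ^ 2 ≤ 1 := by
    rw [hη, ← mul_pow, div_mul_eq_mul_div]
    apply pow_le_one₀ (by positivity)
    rw [div_le_one hL0]
    exact hLH
  have hX : ∀ n ∈ Finset.Icc (-Mz) Mz, |((n : ℝ) / L)| ≤ T / 8 := by
    intro n hn
    rw [Finset.mem_Icc] at hn
    have h2 : |(n : ℝ)| ≤ Mz := by
      rw [abs_le]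
      have h3 : ((-Mz : ℤ) : ℝ) ≤ n := by exact_mod_cast hn.1
      have h4 : (n : ℝ) ≤ Mz := by exact_mod_cast hn.2
      push_cast at h3
      exact ⟨h3, h4⟩
    rw [abs_div, abs_of_pos hL0, div_le_iff₀ hL0]
    have : Q + 2 ≤ T / 8 * L := by
      rw [hQ]
      nlinarith
    linarith
  have hB : ∀ n ∈ Finset.Icc (-Mz) Mz, ∫ t in T..(2 * T), (nz (t + n / L) (1 / L) : ℝ) ^ 2 * ‖dp N b t‖ ^ 2 ≤ C₂ * T * N2 N b :=
    fun n hn => hS1 N hN b (n / L) (hX n hn)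
  have hΦ : ∀ t ∈ Icc (T + 2 * L) (2 * T - 2 * L),
      |(∑ s ∈ ZT T, ∑ s' ∈ ZT T, (mz s : ℝ) * (mz s' : ℝ) *
      (qr w T t s * qr w T t s') * fR R (lam * Real.log T * (s.im - s'.im))) - DW R lam H T t| ≤
      ∑ n ∈ Finset.Icc (-Mz) Mz, ∑ n' ∈ Finset.Icc (-Mz) Mz, WB H C (4 * (M / lam ^ 2)) η n n' *
        ((nz (t + n / L) (1 / L) : ℝ) * (nz (t + n' / L) (1 / L) : ℝ)) + 4096 * C * (M / lam ^ 2) * Cn ^ 2 := by
    intro t _
    rw [DW_eq, ← Finset.sum_sub_distrib]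
    have h1 : |∑ s ∈ ZT T, ((∑ s' ∈ ZT T, (mz s : ℝ) * (mz s' : ℝ) *
      (qr w T t s * qr w T t s') * fR R (lam * Real.log T * (s.im - s'.im))) -
      ∑ s' ∈ ZT T, (mz s : ℝ) * (mz s' : ℝ) * iw H (Real.log T) t s * fR R (lam * Real.log T * (s.im - s'.im)))| ≤
      ∑ s ∈ ZT T, ∑ s' ∈ ZT T, (mz s : ℝ) * (mz s' : ℝ) *
        (|qr w T t s * qr w T t s' - iw H (Real.log T) t s| * |fR R (lam * Real.log T * (s.im - s'.im))|) := by
      refine (Finset.abs_sum_le_sum_abs _ _).trans (Finset.sum_le_sum fun s _ => ?_)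
      rw [← Finset.sum_sub_distrib]
      refine (Finset.abs_sum_le_sum_abs _ _).trans (Finset.sum_le_sum fun s' _ => ?_)
      rw [← sub_mul, ← mul_sub, abs_mul, abs_mul, abs_of_nonneg (by positivity : (0 : ℝ) ≤ (mz s : ℝ) * (mz s' : ℝ)), mul_assoc]
    refine h1.trans ?_
    have h2 := cell (T := T) (t := t) (L := L) (E := 4 * C * (M / lam ^ 2) / Q ^ 2) (R := Q) (M := Mz) (by linarith) hL0
      (fun s s' => |qr w T t s * qr w T t s' - iw H (Real.log T) t s| * |fR R (lam * Real.log T * (s.im - s'.im))|)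
      (WB H C (4 * (M / lam ^ 2)) η) (WB_nonneg (by linarith) (by positivity) hη0) (by positivity) hMz1
      (fun s _ s' _ _ _ => pair_le hw hC (by omega) hR hlam hlam1 hL0 hη0 le_rfl s s')
      (fun s _ s' _ hss => pair_far hw hC (by omega) hR hlam hlam1 hL0 hQ1 hQH s s' hss)
    refine h2.trans ?_
    have h3 : 4 * C * (M / lam ^ 2) / Q ^ 2 * (∑ s ∈ ZT T, (mz s : ℝ)) ^ 2 ≤ 4096 * C * (M / lam ^ 2) * Cn ^ 2 := by
      calc 4 * C * (M / lam ^ 2) / Q ^ 2 * (∑ s ∈ ZT T, (mz s : ℝ)) ^ 2 ≤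
            4 * C * (M / lam ^ 2) / Q ^ 2 * (Cn * (T * L)) ^ 2 := by gcongr
        _ = 4096 * C * (M / lam ^ 2) * Cn ^ 2 := by
            rw [hQ]
            field_simp
            ring
    linarith
  have hfin := cell_bound (T := T) (a' := T + 2 * L) (b' := 2 * T - 2 * L) (L := L) (B := C₂ * T * N2 N b)
    (E' := 4096 * C * (M / lam ^ 2) * Cn ^ 2) (r := 1 / L) hT0 (by linarith) (by linarith) (by linarith) hV hV0 (by positivity)
    (Finset.Icc (-Mz) Mz) (WB H C (4 * (M / lam ^ 2)) η) (WB_nonneg (by linarith) (by positivity) hη0) hB hΦ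
  refine hfin.trans ?_
  have hW := sum_WB (G := 4 * (M / lam ^ 2)) hH hC (by positivity) hη0 hη1 Mz
  have hVi : ∫ t in T..(2 * T), ‖dp N b t‖ ^ 2 ≤ 2 * T * N2 N b := by
    refine (hMVL T (by linarith) N ?_ b).2
    refine hN.trans ?_
    exact Real.rpow_le_rpow_of_exponent_le (by linarith) hθ1
  have hlogH : 0 ≤ Real.log H := Real.log_nonneg hH
  have hTN : 0 ≤ T * N2 N b := by positivity
  calc (∑ n ∈ Finset.Icc (-Mz) Mz, ∑ n' ∈ Finset.Icc (-Mz) Mz, WB H C (4 * (M / lam ^ 2)) η n n') * (C₂ * T * N2 N b) +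
        4096 * C * (M / lam ^ 2) * Cn ^ 2 * ∫ t in T..(2 * T), ‖dp N b t‖ ^ 2 ≤
        (4 * (M / lam ^ 2) * (1024 * C * Z0 ^ 2 + 128 * Z0 ^ 2 + 144) * (1 + Real.log H)) * (C₂ * T * N2 N b) +
        4096 * C * (M / lam ^ 2) * Cn ^ 2 * (2 * T * N2 N b) := by gcongr
    _ = C₂ * (4 * (M / lam ^ 2) * (1024 * C * Z0 ^ 2 + 128 * Z0 ^ 2 + 144)) * (1 + Real.log H) * (T * N2 N b) +
        2 * (4096 * C * (M / lam ^ 2) * Cn ^ 2) * 1 * (T * N2 N b) := by ring
    _ ≤ C₂ * (4 * (M / lam ^ 2) * (1024 * C * Z0 ^ 2 + 128 * Z0 ^ 2 + 144)) * (1 + Real.log H) * (T * N2 N b) +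
        2 * (4096 * C * (M / lam ^ 2) * Cn ^ 2) * (1 + Real.log H) * (T * N2 N b) := by
        gcongr
        linarith
    _ = _ := by ring

end Pool.Agent.Q16.UM3
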