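import Pool.Agent.Q16.UM.DENS

set_option autoImplicit false

/-! Project UM2 (helper97), job CLU: clusters of zeros relative to every Dirichlet polynomial. -/

namespace Pool.Agent.Q16.UM9

open Filter Topology MeasureTheory Set
open Pool.Agent.Q97.UM Pool.Agent.Q210.UM Pool.Agent.Q222.UM

lemma nzm (r : ℝ) : Measurable (fun t => (nz t r : ℝ)) := by
  refine measurable_from_nat.comp (measurable_of_Ici fun k => ?_)
  exact hZ.2.1 r k

/-- the layer cake formula for the exponential moment -/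
lemma cakeE {r T' : ℝ} (hT' : 0 < T') {C c : ℝ} (hC : 0 ≤ C) (hc : 0 < c)
    {V : ℝ → ℝ} (hV : Continuous V) (hV0 : ∀ s, 0 ≤ V s) {Nb : ℝ} (hNb : 0 ≤ Nb)
    (K₀ : ℕ) (hK₀ : ∀ s, T' ≤ s → s ≤ 2 * T' → nz s r ≤ K₀)
    (h : ∀ K : ℕ, ∫ t in T'..(2 * T'), ({t : ℝ | K ≤ nz t r}).indicator (1 : ℝ → ℝ) t * V t ≤
      C * Real.exp (-(c * K)) * T' * Nb) :
    ∫ t in T'..(2 * T'), Real.exp (c / 2 * nz t r) * V t ≤ C * (1 - Real.exp (-(c / 2)))⁻¹ * T' * Nb := by
  classical
  have hm : ∀ K : ℕ, MeasurableSet {t : ℝ | K ≤ nz t r} := hZ.2.1 r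
  have hi : ∀ K ∈ Finset.range (K₀ + 1), IntervalIntegrable
      (fun t => ({t : ℝ | K ≤ nz t r}).indicator (1 : ℝ → ℝ) t * V t) volume T' (2 * T') := by
    intro K _
    refine gint (M := 1) (measurable_one.indicator (hm K)) (by linarith)
      (fun s => indicator_nonneg (fun _ _ => zero_le_one) s)
      (fun s _ _ => indicator_le_self' (fun _ _ => zero_le_one) s) hV hV0
  have hi0 : IntervalIntegrable (fun t => Real.exp (c / 2 * nz t r) * V t) volume T' (2 * T') := by
    refine gint (M := Real.exp (c / 2 * K₀)) (Real.measurable_exp.comp (measurable_const.mul (nzm r))) (by linarith)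
      (fun s => (Real.exp_pos _).le) (fun s h1 h2 => ?_) hV hV0
    have h3 : (nz s r : ℝ) ≤ K₀ := by exact_mod_cast hK₀ s h1 h2
    apply Real.exp_le_exp.2
    have : 0 ≤ c / 2 := by positivity
    exact mul_le_mul_of_nonneg_left h3 this
  have hi1 : IntervalIntegrable (fun t => ∑ K ∈ Finset.range (K₀ + 1), Real.exp (c / 2 * K) *
      (({t : ℝ | K ≤ nz t r}).indicator (1 : ℝ → ℝ) t * V t)) volume T' (2 * T') := by
    have := IntervalIntegrable.sum (Finset.range (K₀ + 1)) fun K hK => (hi K hK).const_mul (Real.exp (c / 2 * K))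
    refine this.congr fun s _ => ?_
    simp [Finset.sum_apply]
  have h1 : ∫ t in T'..(2 * T'), Real.exp (c / 2 * nz t r) * V t ≤
      ∫ t in T'..(2 * T'), ∑ K ∈ Finset.range (K₀ + 1), Real.exp (c / 2 * K) *
        (({t : ℝ | K ≤ nz t r}).indicator (1 : ℝ → ℝ) t * V t) := by
    refine intervalIntegral.integral_mono_on (by linarith) hi0 hi1 fun t ht => ?_
    have h2 := Finset.single_le_sum (f := fun K : ℕ => Real.exp (c / 2 * K) *
        (({t : ℝ | K ≤ nz t r}).indicator (1 : ℝ → ℝ) t * V t)) (s := Finset.range (K₀ + 1))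
      (fun K _ => by
        have := hV0 t
        have : 0 ≤ ({t : ℝ | K ≤ nz t r}).indicator (1 : ℝ → ℝ) t := indicator_nonneg (fun _ _ => zero_le_one) t
        positivity) (Finset.mem_range.2 (Nat.lt_succ_of_le (hK₀ t ht.1 ht.2)))
    rw [indicator_of_mem (show t ∈ {t_1 : ℝ | nz t r ≤ nz t_1 r} from le_refl (nz t r)), Pi.one_apply, one_mul] at h2
    exact h2
  refine h1.trans ?_
  rw [intervalIntegral.integral_finsetSum fun K hK => (hi K hK).const_mul _]
  have hx : Real.exp (-(c / 2)) < 1 := by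
    rw [Real.exp_lt_one_iff]
    linarith
  have hx0 : 0 < Real.exp (-(c / 2)) := Real.exp_pos _
  calc ∑ K ∈ Finset.range (K₀ + 1), ∫ t in T'..(2 * T'), Real.exp (c / 2 * K) *
        (({t : ℝ | K ≤ nz t r}).indicator (1 : ℝ → ℝ) t * V t) ≤
        ∑ K ∈ Finset.range (K₀ + 1), C * T' * Nb * Real.exp (-(c / 2)) ^ K := by
        refine Finset.sum_le_sum fun K _ => ?_
        rw [intervalIntegral.integral_const_mul]
        refine (mul_le_mul_of_nonneg_left (h K) (Real.exp_pos _).le).trans (le_of_eq ?_)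
        have h3 : Real.exp (c / 2 * K) * Real.exp (-(c * K)) = Real.exp (-(c / 2)) ^ K := by
          rw [← Real.exp_add, ← Real.exp_nat_mul]
          congr 1
          ring
        rw [← h3]
        ring
    _ = C * T' * Nb * ∑ K ∈ Finset.range (K₀ + 1), Real.exp (-(c / 2)) ^ K := by rw [Finset.mul_sum]
    _ ≤ C * T' * Nb * (1 - Real.exp (-(c / 2)))⁻¹ := by
        apply mul_le_mul_of_nonneg_left _ (by positivity)
        rw [← tsum_geometric_of_lt_one hx0.le hx]
        exact (summable_geometric_of_lt_one hx0.le hx).sum_le_tsum _ (fun i _ => by positivity)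
    _ = _ := by ring

/-- exponential moments in windows of radius `2 / log T` -/
theorem expm (hD : S_DPM) {θ c C : ℝ} (hθ0 : 0 < θ) (hc : 0 < c) (hC : 0 ≤ C) (hTB : TailB θ c C) :
    ∃ C₂ : ℝ, 0 ≤ C₂ ∧ ∀ᶠ T : ℝ in atTop, ∀ N : ℕ, (N : ℝ) ≤ T ^ (θ / 2) → ∀ b : ℕ → ℂ,
      ∫ t in T..(2 * T), Real.exp (c / 10 * nz t (2 / Real.log T)) * ‖dp N b t‖ ^ 2 ≤ C₂ * T * N2 N b := by
  unfold TailB at hTB
  have hx : Real.exp (-(c / 2)) < 1 := by
    rw [Real.exp_lt_one_iff]
    linarith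
  obtain ⟨G, hG⟩ : ∃ G, G = C * (1 - Real.exp (-(c / 2)))⁻¹ := ⟨_, rfl⟩
  have hG0 : 0 ≤ G := by
    rw [hG]
    have : 0 < 1 - Real.exp (-(c / 2)) := by linarith
    positivity
  refine ⟨30 * G, by positivity, ?_⟩
  have hT1 := (tendsto_id.atTop_div_const (two_pos : (0 : ℝ) < 2)).eventually hTB
  have hT2 := (tendsto_id.const_mul_atTop (two_pos : (0 : ℝ) < 2)).eventually hTB
  filter_upwards [hT1, hTB, hT2, eventually_ge_atTop (Real.exp 4)] with T h1 h2 h3 hT N hN b
  simp only [id] at h1 h3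
  have hT4 : (5 : ℝ) ≤ T := by
    have := Real.add_one_le_exp (4 : ℝ)
    linarith
  have hT0 : 0 < T := by linarith
  have hL : 4 ≤ Real.log T := by
    rw [Real.le_log_iff_exp_le hT0]
    exact hT
  have hlog2 : Real.log 2 ≤ 1 := by
    have := Real.log_two_lt_d9
    linarith
  have hlog2p : 0 < Real.log 2 := Real.log_pos one_lt_two
  have el1 : Real.log (T / 2) = Real.log T - Real.log 2 := Real.log_div hT0.ne' two_ne_zero
  have el2 : Real.log (2 * T) = Real.log 2 + Real.log T := Real.log_mul two_ne_zero hT0.ne'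
  have el3 : Real.log (4 * T) = 2 * Real.log 2 + Real.log T := by
    rw [Real.log_mul four_ne_zero hT0.ne', show (4 : ℝ) = 2 ^ 2 by norm_num, Real.log_pow]
    push_cast
    ring
  set r : ℝ := 1 / Real.log (4 * T) with hr
  set w : ℝ := 2 / Real.log T with hw
  have hL4 : 4 ≤ Real.log (4 * T) := by linarith
  have hr0 : 0 < r := by positivity
  have hw0 : 0 ≤ w := by positivity
  have hrq : r ≤ 1 / 4 := by
    rw [hr]
    exact one_div_le_one_div_of_le (by norm_num) hL4
  have hwq : w ≤ 1 / 2 := by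
    rw [hw, div_le_div_iff₀ (by linarith) (by norm_num)]
    linarith
  -- the three scales
  have key : ∀ T' : ℝ, (T' = T / 2 ∨ T' = T ∨ T' = 2 * T) → 0 < T' ∧ T' ≤ 2 * T ∧ T / 2 ≤ T' ∧ Real.log T / 2 ≤ Real.log T' ∧
      Real.log T' ≤ Real.log (4 * T) ∧ (N : ℝ) ≤ T' ^ θ ∧ ∀ b : ℕ → ℂ,
      (∀ K : ℕ, ∫ t in {t : ℝ | T' ≤ t ∧ t ≤ 2 * T' ∧ K ≤ nz t (1 / Real.log T')}, ‖dp N b t‖ ^ 2 ≤
        C * Real.exp (-(c * K)) * T' * N2 N b) := by
    intro T' hT'
    have k1 : 0 < T' ∧ T' ≤ 2 * T ∧ T / 2 ≤ T' ∧ Real.log T / 2 ≤ Real.log T' ∧ Real.log T' ≤ Real.log (4 * T) := by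
      rcases hT' with h | h | h
      · rw [h, el1, el3]
        exact ⟨by linarith, by linarith, by linarith, by linarith, by linarith⟩
      · rw [h, el3]
        exact ⟨by linarith, by linarith, by linarith, by linarith, by linarith⟩
      · rw [h, el2, el3]
        exact ⟨by linarith, by linarith, by linarith, by linarith, by linarith⟩
    obtain ⟨k2, k3, k4, k5, k6⟩ := k1
    have k7 : (N : ℝ) ≤ T' ^ θ := by
      refine hN.trans ?_
      rw [Real.rpow_def_of_pos hT0, Real.rpow_def_of_pos k2]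
      refine Real.exp_le_exp.2 ?_
      nlinarith
    refine ⟨k2, k3, k4, k5, k6, k7, ?_⟩
    rcases hT' with h | h | h
    · rw [h] at k7 ⊢
      exact fun b => (h1 N k7 b).2
    · rw [h] at k7 ⊢
      exact fun b => (h2 N k7 b).2
    · rw [h] at k7 ⊢
      exact fun b => (h3 N k7 b).2
  have hn : ((⌈w / r⌉₊ + 1 : ℕ) : ℝ) ≤ 5 := by
    have h5 : (⌈w / r⌉₊ : ℝ) < w / r + 1 := Nat.ceil_lt_add_one (by positivity)
    have h6 : w / r ≤ 3 := by
      rw [hw, hr, div_div_eq_mul_div, div_one, div_mul_eq_mul_div, div_le_iff₀ (by linarith), el3]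
      nlinarith
    push_cast
    linarith
  have hV : ∀ b : ℕ → ℂ, Continuous fun t : ℝ => ‖dp N b t‖ ^ 2 := fun b => V_cont hD N b
  have hNb : ∀ b : ℕ → ℂ, 0 ≤ N2 N b := fun b => N2_nonneg N b
  have hrT : ∀ T' : ℝ, (T' = T / 2 ∨ T' = T ∨ T' = 2 * T) → r ≤ 1 / Real.log T' := by
    intro T' hT'
    obtain ⟨k2, k3, k4, k5, k6, k7, k8⟩ := key T' hT'
    exact one_div_le_one_div_of_le (by linarith) k6
  -- one window
  have h5 : ∀ T' : ℝ, (T' = T / 2 ∨ T' = T ∨ T' = 2 * T) → ∀ b : ℕ → ℂ,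
      ∫ s in T'..(2 * T'), Real.exp (c / 2 * nz s r) * ‖dp N b s‖ ^ 2 ≤ (2 * G * T) * N2 N b := by
    intro T' hT' b
    obtain ⟨k2, k3, k4, k5, k6, k7, k8⟩ := key T' hT'
    have h7 : ∀ K : ℕ, ∫ t in T'..(2 * T'), ({t : ℝ | K ≤ nz t r}).indicator (1 : ℝ → ℝ) t *
        ‖dp N b t‖ ^ 2 ≤ C * Real.exp (-(c * K)) * T' * N2 N b := by
      intro K
      have mK : MeasurableSet {t : ℝ | K ≤ nz t r} := hZ.2.1 r K
      have e3 : ∫ t in T'..(2 * T'), ({t : ℝ | K ≤ nz t r}).indicator (1 : ℝ → ℝ) t *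
          ‖dp N b t‖ ^ 2 =
          ∫ t in {t : ℝ | T' ≤ t ∧ t ≤ 2 * T' ∧ t ∈ {t : ℝ | K ≤ nz t r}}, ‖dp N b t‖ ^ 2 :=
        (set_int k2.le mK _).symm
      rw [e3]
      refine le_trans ?_ (k8 b K)
      refine setIntegral_mono_set (((hV b).integrableOn_Icc (a := T') (b := 2 * T')).mono_set
        (fun t ht => ⟨ht.1, ht.2.1⟩))
        (Eventually.of_forall fun t => sq_nonneg _) (LE.le.eventuallyLE ?_)
      rintro t ⟨t1, t2, t3⟩
      exact ⟨t1, t2, le_trans t3 (nz_mono hZ (Zw_sub (by simpa using hrT T' hT')))⟩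
    have h8 := cakeE (r := r) k2 hC hc (hV b) (fun s => sq_nonneg _) (hNb b) (nz 0 (4 * T + r))
      (fun s s1 s2 => nz_mono hZ (Zw_sub (by rw [sub_zero, abs_of_nonneg (by linarith)]; linarith)))
      h7
    refine h8.trans ?_
    have hN2 := hNb b
    rw [← hG]
    calc G * T' * N2 N b ≤ G * (2 * T) * N2 N b := by gcongr
      _ = _ := by ring
  have hxj : ∀ j ∈ Finset.range (⌈w / r⌉₊ + 1), |((-w + r + 2 * r * j) : ℝ)| ≤ T / 2 := by
    intro j hj
    have h6 := off_bd hr0 hw0 hj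
    linarith
  have h11 : ∀ t, T ≤ t → t ≤ 2 * T → Real.exp (c / 10 * nz t w) ≤
      ∑ j ∈ Finset.range (⌈w / r⌉₊ + 1), Real.exp (c / 2 * nz (t + (-w + r + 2 * r * j)) r) := by
    intro t _ _
    have h6 := nz_cover hZ (t := t) hr0 hw0
    obtain ⟨i, hi, hmax⟩ := Finset.exists_max_image (Finset.range (⌈w / r⌉₊ + 1))
      (fun j : ℕ => nz (t + (-w + r + 2 * r * j)) r) ⟨0, Finset.mem_range.2 (Nat.succ_pos _)⟩
    have h7 : nz t w ≤ (⌈w / r⌉₊ + 1) * nz (t + (-w + r + 2 * r * i)) r := by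
      refine h6.trans ?_
      calc _ ≤ ∑ j ∈ Finset.range (⌈w / r⌉₊ + 1), nz (t + (-w + r + 2 * r * i)) r := Finset.sum_le_sum hmax
        _ = _ := by rw [Finset.sum_const, Finset.card_range, smul_eq_mul]
    have h8 : (nz t w : ℝ) ≤ 5 * nz (t + (-w + r + 2 * r * i)) r := by
      have h9 : (nz t w : ℝ) ≤ ((⌈w / r⌉₊ + 1 : ℕ) : ℝ) * nz (t + (-w + r + 2 * r * i)) r := by exact_mod_cast h7
      exact h9.trans (mul_le_mul_of_nonneg_right hn (Nat.cast_nonneg _))
    have h10 : Real.exp (c / 10 * nz t w) ≤ Real.exp (c / 2 * nz (t + (-w + r + 2 * r * i)) r) := by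
      apply Real.exp_le_exp.2
      have h12 := mul_le_mul_of_nonneg_left h8 (show 0 ≤ c / 10 by positivity)
      linarith
    refine h10.trans ?_
    exact Finset.single_le_sum (f := fun j : ℕ => Real.exp (c / 2 * nz (t + (-w + r + 2 * r * j)) r))
      (fun j _ => (Real.exp_pos _).le) hi
  have h13 := comb' hD hT0 (Real.measurable_exp.comp (measurable_const.mul (nzm r)) : Measurable
    fun s => Real.exp (c / 2 * nz s r))
    (fun s => (Real.exp_pos _).le)
    (M := Real.exp (c / 2 * nz 0 (4 * T + r)))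
    (fun s s1 s2 => by
      have h6 : (nz s r : ℝ) ≤ nz 0 (4 * T + r) := by
        have := nz_mono hZ (Zw_sub (t := s) (r := r) (t' := 0) (r' := 4 * T + r)
          (by rw [sub_zero, abs_of_nonneg (by linarith)]; linarith))
        exact_mod_cast this
      apply Real.exp_le_exp.2
      exact mul_le_mul_of_nonneg_left h6 (by positivity)) N
    (by positivity) h5 b hxj h11
  refine h13.trans ?_
  have hN2 := hNb b
  calc ((⌈w / r⌉₊ + 1 : ℕ) : ℝ) * (3 * (2 * G * T) * N2 N b)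
      ≤ 5 * (3 * (2 * G * T) * N2 N b) :=
        mul_le_mul_of_nonneg_right hn (by positivity)
    _ = 30 * G * T * N2 N b := by ring

theorem t_CLU : J_CLU := by
  classical
  intro hD _ _ hTA
  obtain ⟨θ₀, c, C, hθ0, hθ1, hc, hC, hTB⟩ := hTA
  obtain ⟨C₂, hC₂, hE⟩ := expm hD hθ0 hc hC hTB
  refine ⟨min (θ₀ / 2) (1 / 40), c / 20, 3 * (20 / c * C₂), by positivity, min_le_right _ _, by positivity, by positivity, ?_⟩
  filter_upwards [hE, eventually_ge_atTop (4 : ℝ), Real.tendsto_log_atTop.eventually_ge_atTop 1] with T hE hT hL1 N hN b k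
  have hT0 : 0 < T := by linarith
  have hN₀ : (N : ℝ) ≤ T ^ (θ₀ / 2) := hN.trans (Real.rpow_le_rpow_of_exponent_le (by linarith) (min_le_left _ _))
  have hNT : (N : ℝ) ≤ T := by
    refine hN₀.trans ?_
    calc T ^ (θ₀ / 2) ≤ T ^ (1 : ℝ) := Real.rpow_le_rpow_of_exponent_le (by linarith) (by linarith)
      _ = T := Real.rpow_one T
  obtain ⟨L, hLd⟩ : ∃ L, L = Real.log T := ⟨_, rfl⟩
  have hL0 : 0 < L := by rw [hLd]; linarith
  obtain ⟨Q, hQ⟩ : ∃ Q, Q = 20 / c * Real.exp (-(c / 20 * k)) := ⟨_, rfl⟩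
  have hQ0 : 0 ≤ Q := by rw [hQ]; positivity
  have hV : ∀ b : ℕ → ℂ, Continuous fun t : ℝ => ‖dp N b t‖ ^ 2 := fun b => V_cont hD N b
  have hWi : ∀ b : ℕ → ℂ, IntervalIntegrable (fun t => Q * Real.exp (c / 10 * nz t (2 / L)) * ‖dp N b t‖ ^ 2) volume T (2 * T) := by
    intro b
    refine gint (M := Q * Real.exp (c / 10 * nz 0 (2 * T + 2 / L)))
      (measurable_const.mul (Real.measurable_exp.comp (measurable_const.mul (nzm (2 / L))))) (by linarith)
      (fun s => mul_nonneg hQ0 (Real.exp_pos _).le) (fun s s1 s2 => ?_) (hV b) (fun s => sq_nonneg _)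
    have h6 : (nz s (2 / L) : ℝ) ≤ nz 0 (2 * T + 2 / L) := by
      have := nz_mono hZ (Zw_sub (t := s) (r := 2 / L) (t' := 0) (r' := 2 * T + 2 / L)
        (by rw [sub_zero, abs_of_nonneg (by linarith)]; linarith))
      exact_mod_cast this
    apply mul_le_mul_of_nonneg_left _ hQ0
    apply Real.exp_le_exp.2
    exact mul_le_mul_of_nonneg_left h6 (by positivity)
  have hsub : (H370.Zf riemannZeta T (2 * T)).filter (fun s => k ≤ nz s.im (1 / Real.log T)) ⊆ H370.Zf riemannZeta T (2 * T) :=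
    Finset.filter_subset _ _
  have key := samp_dp hD hT hL1 hNT b hsub (W := fun t => Q * Real.exp (c / 10 * nz t (2 / L))) (B := Q * C₂ * T) (by positivity)
    (by
      intro t h1 h2
      rw [← hLd]
      by_cases hex : ∃ s ∈ (H370.Zf riemannZeta T (2 * T)).filter (fun s => k ≤ nz s.im (1 / L)), |s.im - t| ≤ 1 / L
      · obtain ⟨s, hs, hst⟩ := hex
        have hk : k ≤ nz t (2 / L) := by
          refine (Finset.mem_filter.1 hs).2.trans (nz_mono hZ (Zw_sub ?_))
          have : 2 / L = 1 / L + 1 / L := by ring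
          linarith
        have hsum : ∑ s ∈ ((H370.Zf riemannZeta T (2 * T)).filter (fun s => k ≤ nz s.im (1 / L))).filter
            (fun s => |s.im - t| ≤ 1 / L), (mz s : ℝ) ≤ nz t (2 / L) := by
          rw [nz_eq hZ]
          push_cast
          refine Finset.sum_le_sum_of_subset_of_nonneg (fun s hs => ?_) fun _ _ _ => Nat.cast_nonneg _
          rw [Finset.mem_filter, Finset.mem_filter] at hs
          obtain ⟨⟨hs1, hs2⟩, hs3⟩ := hs
          have h3 := (H370.mem_Zf H370.good_zeta (by linarith : (1 : ℝ) ≤ T)).1 hs1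
          rw [Set.Finite.mem_toFinset]
          refine ⟨h3.2.2.2.2, h3.1, h3.2.1, hs3.trans ?_⟩
          apply div_le_div_of_nonneg_right (by norm_num) hL0.le
        refine hsum.trans ?_
        set n : ℝ := (nz t (2 / L) : ℝ) with hn
        have hkn : (k : ℝ) ≤ n := by rw [hn]; exact_mod_cast hk
        have h3 : n ≤ 20 / c * Real.exp (c / 20 * n) := by
          have h4 := Real.add_one_le_exp (c / 20 * n)
          have h5 : 20 / c * (c / 20 * n) = n := by field_simp
          have h6 : 20 / c * (c / 20 * n) ≤ 20 / c * Real.exp (c / 20 * n) :=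
            mul_le_mul_of_nonneg_left (by linarith) (by positivity)
          linarith
        have h4 : Real.exp (c / 20 * n) ≤ Real.exp (-(c / 20 * k)) * Real.exp (c / 10 * n) := by
          rw [← Real.exp_add]
          apply Real.exp_le_exp.2
          have : c / 20 * k ≤ c / 20 * n := mul_le_mul_of_nonneg_left hkn (by positivity)
          linarith
        rw [hQ]
        calc n ≤ 20 / c * Real.exp (c / 20 * n) := h3
          _ ≤ 20 / c * (Real.exp (-(c / 20 * k)) * Real.exp (c / 10 * n)) := mul_le_mul_of_nonneg_left h4 (by positivity)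
          _ = _ := by ring
      · have h0 : ((H370.Zf riemannZeta T (2 * T)).filter (fun s => k ≤ nz s.im (1 / L))).filter
            (fun s => |s.im - t| ≤ 1 / L) = ∅ := by
          rw [Finset.filter_eq_empty_iff]
          intro s hs hst
          exact hex ⟨s, hs, hst⟩
        rw [h0, Finset.sum_empty]
        positivity)
    hWi (fun b => by
      have h1 := hE N hN₀ b
      rw [← hLd] at h1
      have e1 : ∀ t : ℝ, Q * Real.exp (c / 10 * nz t (2 / L)) * ‖dp N b t‖ ^ 2 =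
        Q * (Real.exp (c / 10 * nz t (2 / L)) * ‖dp N b t‖ ^ 2) := fun t => by ring
      simp_rw [e1]
      rw [intervalIntegral.integral_const_mul]
      calc Q * _ ≤ Q * (C₂ * T * N2 N b) := mul_le_mul_of_nonneg_left h1 hQ0
        _ = _ := by ring)
  refine key.trans (le_of_eq ?_)
  rw [hQ]
  ring

end Pool.Agent.Q16.UM9
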