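import Pool.Agent.Q97.UM.Stm7
import Pool.Agent.Q178.UM.ZF2
import Pool.Agent.Q84.UM.DPM
import Pool.Agent.Q222.UM.ERR

set_option autoImplicit false

/-! Project UM3 (helper97): sums over pairs of zeros in unit cells. -/

namespace Pool.Agent.Q16.UM3

open Filter Topology MeasureTheory Set
open Pool.Agent.Q97.UM Pool.Agent.Q210.UM

theorem hZ : S_ZF2 := Pool.Agent.Q178.UM.ZF2.t_ZF2

theorem nz_meas (r : ℝ) : Measurable (fun t => (nz t r : ℝ)) := by
  have h : Measurable (fun t => nz t r) := by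
    apply measurable_to_countable'
    intro k
    have e : (fun t => nz t r) ⁻¹' {k} = {t : ℝ | k ≤ nz t r} \ {t : ℝ | k + 1 ≤ nz t r} := by
      ext t
      simp only [mem_preimage, mem_singleton_iff, Set.mem_sdiff, mem_ofPred_eq]
      omega
    rw [e]
    exact (hZ.2.1 r k).diff (hZ.2.1 r (k + 1))
  exact (measurable_from_nat (f := fun n : ℕ => (n : ℝ))).comp h

theorem nz_int {V : ℝ → ℝ} (hV : Continuous V) (hV0 : ∀ s, 0 ≤ V s) (X r : ℝ) {a b : ℝ} (hab : a ≤ b) :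
    IntervalIntegrable (fun t => (nz (t + X) r : ℝ) ^ 2 * V t) volume a b := by
  refine gint (M := (nz 0 (|a| + |b| + |X| + r) : ℝ) ^ 2) (((nz_meas r).comp (measurable_id.add_const X)).pow_const 2) hab
    (fun s => sq_nonneg _) (fun s h1 h2 => ?_) hV hV0
  have h3 : nz (s + X) r ≤ nz 0 (|a| + |b| + |X| + r) := by
    apply nz_mono hZ
    apply Zw_sub
    rw [sub_zero]
    have h4 : |s| ≤ |a| + |b| := by
      rw [abs_le]
      have := neg_abs_le a
      have := le_abs_self b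
      have := abs_nonneg a
      have := abs_nonneg b
      constructor <;> linarith
    have h5 := abs_add_le s X
    linarith
  have h6 : (nz (s + X) r : ℝ) ≤ nz 0 (|a| + |b| + |X| + r) := by exact_mod_cast h3
  exact pow_le_pow_left₀ (Nat.cast_nonneg _) h6 2

open Classical in
/-- the multiplicities in a cell -/
theorem cell_count {T t L : ℝ} (hT : 16 ≤ T) (hL : 0 < L) (n : ℤ) :
    ∑ s ∈ ZT T, (if ⌊L * (s.im - t)⌋ = n then (mz s : ℝ) else 0) ≤ nz (t + n / L) (1 / L) := by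
  rw [← Finset.sum_filter, nz_eq hZ]
  push_cast
  refine Finset.sum_le_sum_of_subset_of_nonneg (fun s hs => ?_) fun _ _ _ => Nat.cast_nonneg _
  rw [Finset.mem_filter] at hs
  obtain ⟨hsZ, hsn⟩ := hs
  have h1 := (H370.mem_Zf H370.good_zeta (by linarith : (1 : ℝ) ≤ T + 1)).1 hsZ
  rw [Set.Finite.mem_toFinset]
  refine ⟨h1.2.2.2.2, h1.1, h1.2.1, ?_⟩
  have h4 := Int.floor_le (L * (s.im - t))
  have h5 := Int.lt_floor_add_one (L * (s.im - t))
  rw [hsn] at h4 h5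
  have h6 : s.im - (t + n / L) = (L * (s.im - t) - n) / L := by
    field_simp
    ring
  rw [h6, abs_div, abs_of_pos hL]
  refine div_le_div_of_nonneg_right ?_ hL.le
  rw [abs_le]
  constructor <;> linarith

open Classical in
/-- the sum over pairs of zeros in cells -/
theorem cell {T t L E R : ℝ} {M : ℤ} (hT : 16 ≤ T) (hL : 0 < L) (κ : ℂ → ℂ → ℝ) (W : ℤ → ℤ → ℝ) (hW : ∀ n n', 0 ≤ W n n')
    (hE : 0 ≤ E) (hM : R + 1 ≤ M)
    (h1 : ∀ s ∈ ZT T, ∀ s' ∈ ZT T, |L * (s.im - t)| ≤ R → |L * (s'.im - t)| ≤ R →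
      κ s s' ≤ W ⌊L * (s.im - t)⌋ ⌊L * (s'.im - t)⌋)
    (h2 : ∀ s ∈ ZT T, ∀ s' ∈ ZT T, (R < |L * (s.im - t)| ∨ R < |L * (s'.im - t)|) → κ s s' ≤ E) :
    ∑ s ∈ ZT T, ∑ s' ∈ ZT T, (mz s : ℝ) * (mz s' : ℝ) * κ s s' ≤
      ∑ n ∈ Finset.Icc (-M) M, ∑ n' ∈ Finset.Icc (-M) M, W n n' * ((nz (t + n / L) (1 / L) : ℝ) * (nz (t + n' / L) (1 / L) : ℝ)) +
        E * (∑ s ∈ ZT T, (mz s : ℝ)) ^ 2 := by
  set x : ℂ → ℝ := fun s => L * (s.im - t) with hx
  set a : ℤ → ℂ → ℝ := fun n s => if ⌊x s⌋ = n then (mz s : ℝ) else 0 with ha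
  have ha0 : ∀ n s, 0 ≤ a n s := fun n s => by
    simp only [ha]
    split_ifs
    · exact Nat.cast_nonneg _
    · exact le_rfl
  have hfl : ∀ s, |x s| ≤ R → ⌊x s⌋ ∈ Finset.Icc (-M) M := by
    intro s hs
    obtain ⟨k1, k2⟩ := abs_le.1 hs
    have h4 := Int.floor_le (x s)
    have h5 := Int.lt_floor_add_one (x s)
    rw [Finset.mem_Icc]
    have h6 : ((-M : ℤ) : ℝ) ≤ (⌊x s⌋ : ℝ) := by
      push_cast
      linarith
    have h7 : (⌊x s⌋ : ℝ) ≤ ((M : ℤ) : ℝ) := by linarith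
    exact ⟨by exact_mod_cast h6, by exact_mod_cast h7⟩
  have hpt : ∀ s ∈ ZT T, ∀ s' ∈ ZT T, (mz s : ℝ) * (mz s' : ℝ) * κ s s' ≤
      (∑ n ∈ Finset.Icc (-M) M, ∑ n' ∈ Finset.Icc (-M) M, W n n' * (a n s * a n' s')) + E * ((mz s : ℝ) * (mz s' : ℝ)) := by
    intro s hs s' hs'
    have hm : (0 : ℝ) ≤ (mz s : ℝ) * (mz s' : ℝ) := by positivity
    have ht0 : ∀ n n', 0 ≤ W n n' * (a n s * a n' s') := fun n n' => mul_nonneg (hW n n') (mul_nonneg (ha0 n s) (ha0 n' s'))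
    by_cases hc : |x s| ≤ R ∧ |x s'| ≤ R
    · have q1 := h1 s hs s' hs' hc.1 hc.2
      have q2 := Finset.single_le_sum (f := fun n : ℤ => ∑ n' ∈ Finset.Icc (-M) M, W n n' * (a n s * a n' s'))
        (fun n _ => Finset.sum_nonneg fun n' _ => ht0 n n') (hfl s hc.1)
      have q3 := Finset.single_le_sum (f := fun n' : ℤ => W ⌊x s⌋ n' * (a ⌊x s⌋ s * a n' s'))
        (fun n' _ => ht0 ⌊x s⌋ n') (hfl s' hc.2)
      have e1 : a ⌊x s⌋ s = mz s := by simp [ha]
      have e2 : a ⌊x s'⌋ s' = mz s' := by simp [ha]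
      simp only [e1, e2] at q3
      simp only [e1] at q2
      calc (mz s : ℝ) * (mz s' : ℝ) * κ s s' ≤ (mz s : ℝ) * (mz s' : ℝ) * W ⌊x s⌋ ⌊x s'⌋ := mul_le_mul_of_nonneg_left q1 hm
        _ = W ⌊x s⌋ ⌊x s'⌋ * ((mz s : ℝ) * (mz s' : ℝ)) := mul_comm _ _
        _ ≤ _ := by
            have : 0 ≤ E * ((mz s : ℝ) * (mz s' : ℝ)) := by positivity
            linarith
    · have q1 : κ s s' ≤ E := by
        apply h2 s hs s' hs'
        by_contra hcon
        push Not at hcon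
        exact hc hcon
      have q2 : 0 ≤ ∑ n ∈ Finset.Icc (-M) M, ∑ n' ∈ Finset.Icc (-M) M, W n n' * (a n s * a n' s') :=
        Finset.sum_nonneg fun n _ => Finset.sum_nonneg fun n' _ => ht0 n n'
      calc (mz s : ℝ) * (mz s' : ℝ) * κ s s' ≤ (mz s : ℝ) * (mz s' : ℝ) * E := mul_le_mul_of_nonneg_left q1 hm
        _ ≤ _ := by linarith
  refine (Finset.sum_le_sum fun s hs => Finset.sum_le_sum fun s' hs' => hpt s hs s' hs').trans ?_
  have e1 : ∑ s ∈ ZT T, ∑ s' ∈ ZT T, ((∑ n ∈ Finset.Icc (-M) M, ∑ n' ∈ Finset.Icc (-M) M, W n n' * (a n s * a n' s')) +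
      E * ((mz s : ℝ) * (mz s' : ℝ))) =
      ∑ n ∈ Finset.Icc (-M) M, ∑ n' ∈ Finset.Icc (-M) M, W n n' * ((∑ s ∈ ZT T, a n s) * (∑ s' ∈ ZT T, a n' s')) +
        E * (∑ s ∈ ZT T, (mz s : ℝ)) ^ 2 := by
    simp_rw [Finset.sum_add_distrib]
    congr 1
    · have f1 : ∀ s, ∑ s' ∈ ZT T, ∑ n ∈ Finset.Icc (-M) M, ∑ n' ∈ Finset.Icc (-M) M, W n n' * (a n s * a n' s') =
          ∑ n ∈ Finset.Icc (-M) M, ∑ n' ∈ Finset.Icc (-M) M, W n n' * (a n s * ∑ s' ∈ ZT T, a n' s') := by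
        intro s
        rw [Finset.sum_comm]
        refine Finset.sum_congr rfl fun n _ => ?_
        rw [Finset.sum_comm]
        refine Finset.sum_congr rfl fun n' _ => ?_
        rw [Finset.mul_sum, Finset.mul_sum]
      simp_rw [f1]
      rw [Finset.sum_comm]
      refine Finset.sum_congr rfl fun n _ => ?_
      rw [Finset.sum_comm]
      refine Finset.sum_congr rfl fun n' _ => ?_
      rw [Finset.sum_mul, Finset.mul_sum]
    · rw [sq, Finset.sum_mul_sum, Finset.mul_sum]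
      refine Finset.sum_congr rfl fun s _ => ?_
      rw [Finset.mul_sum]
  rw [e1]
  gcongr with n _ n' _
  · exact hW n n'
  · exact cell_count hT hL n
  · exact cell_count hT hL n'

/-- the integral of a function bounded by cell counts -/
theorem cell_bound {T a' b' L B E' r : ℝ} (hT : 0 < T) (ha : T ≤ a') (hab : a' ≤ b') (hb : b' ≤ 2 * T) {V : ℝ → ℝ}
    (hV : Continuous V) (hV0 : ∀ s, 0 ≤ V s) (hE' : 0 ≤ E') (I : Finset ℤ) (W : ℤ → ℤ → ℝ) (hW : ∀ n n', 0 ≤ W n n')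
    (hB : ∀ n ∈ I, ∫ t in T..(2 * T), (nz (t + n / L) r : ℝ) ^ 2 * V t ≤ B) {Φ : ℝ → ℝ}
    (hΦ : ∀ t ∈ Icc a' b', |Φ t| ≤ ∑ n ∈ I, ∑ n' ∈ I, W n n' * ((nz (t + n / L) r : ℝ) * (nz (t + n' / L) r : ℝ)) + E') :
    |∫ t in a'..b', Φ t * V t| ≤ (∑ n ∈ I, ∑ n' ∈ I, W n n') * B + E' * ∫ t in T..(2 * T), V t := by
  have hTT : T ≤ 2 * T := by linarith
  set G : ℝ → ℝ := fun t => ∑ n ∈ I, ∑ n' ∈ I, (W n n' / 2 * ((nz (t + n / L) r : ℝ) ^ 2 * V t) +
    W n n' / 2 * ((nz (t + n' / L) r : ℝ) ^ 2 * V t)) with hG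
  have hi1 : ∀ n n' : ℤ, ∀ {x y : ℝ}, x ≤ y → IntervalIntegrable (fun t => W n n' / 2 * ((nz (t + n / L) r : ℝ) ^ 2 * V t) +
      W n n' / 2 * ((nz (t + n' / L) r : ℝ) ^ 2 * V t)) volume x y := fun n n' x y hxy =>
    ((nz_int hV hV0 _ r hxy).const_mul _).add ((nz_int hV hV0 _ r hxy).const_mul _)
  have hi2 : ∀ n : ℤ, ∀ {x y : ℝ}, x ≤ y → IntervalIntegrable (fun t => ∑ n' ∈ I, (W n n' / 2 * ((nz (t + n / L) r : ℝ) ^ 2 * V t) +
      W n n' / 2 * ((nz (t + n' / L) r : ℝ) ^ 2 * V t))) volume x y := by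
    intro n x y hxy
    have := IntervalIntegrable.sum I (fun n' _ => hi1 n n' hxy)
    refine this.congr fun s _ => ?_
    simp [Finset.sum_apply]
  have hi3 : ∀ {x y : ℝ}, x ≤ y → IntervalIntegrable G volume x y := by
    intro x y hxy
    have := IntervalIntegrable.sum I (fun n _ => hi2 n hxy)
    refine this.congr fun s _ => ?_
    simp [Finset.sum_apply, hG]
  have hVi : ∀ x y : ℝ, IntervalIntegrable V volume x y := fun x y => hV.intervalIntegrable x y
  have hG0 : ∀ t, 0 ≤ G t := fun t => Finset.sum_nonneg fun n _ => Finset.sum_nonneg fun n' _ => by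
    have := hW n n'
    have := hV0 t
    positivity
  have hVnn : 0 ≤ ∫ t in T..(2 * T), V t := intervalIntegral.integral_nonneg hTT fun t _ => hV0 t
  have hGint : ∫ t in T..(2 * T), (G t + E' * V t) ≤ (∑ n ∈ I, ∑ n' ∈ I, W n n') * B + E' * ∫ t in T..(2 * T), V t := by
    rw [intervalIntegral.integral_add (hi3 hTT) ((hVi _ _).const_mul _), intervalIntegral.integral_const_mul]
    apply add_le_add_left
    simp only [hG]
    rw [intervalIntegral.integral_finsetSum (fun n _ => hi2 n hTT), Finset.sum_mul]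
    refine Finset.sum_le_sum fun n hn => ?_
    rw [intervalIntegral.integral_finsetSum (fun n' _ => hi1 n n' hTT), Finset.sum_mul]
    refine Finset.sum_le_sum fun n' hn' => ?_
    rw [intervalIntegral.integral_add ((nz_int hV hV0 _ r hTT).const_mul _) ((nz_int hV hV0 _ r hTT).const_mul _),
      intervalIntegral.integral_const_mul, intervalIntegral.integral_const_mul]
    have q1 := mul_le_mul_of_nonneg_left (hB n hn) (by have := hW n n'; positivity : 0 ≤ W n n' / 2)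
    have q2 := mul_le_mul_of_nonneg_left (hB n' hn') (by have := hW n n'; positivity : 0 ≤ W n n' / 2)
    linarith
  have hrhs : 0 ≤ (∑ n ∈ I, ∑ n' ∈ I, W n n') * B + E' * ∫ t in T..(2 * T), V t := by
    refine le_trans ?_ hGint
    exact intervalIntegral.integral_nonneg hTT fun t _ => add_nonneg (hG0 t) (mul_nonneg hE' (hV0 t))
  by_cases hi : IntervalIntegrable (fun t => Φ t * V t) volume a' b'
  swap
  · rw [intervalIntegral.integral_undef hi, abs_zero]
    exact hrhs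
  calc |∫ t in a'..b', Φ t * V t| ≤ ∫ t in a'..b', |Φ t * V t| := intervalIntegral.abs_integral_le_integral_abs hab
    _ ≤ ∫ t in a'..b', (G t + E' * V t) := by
        refine intervalIntegral.integral_mono_on hab hi.abs ((hi3 hab).add ((hVi _ _).const_mul _)) fun t ht => ?_
        rw [abs_mul, abs_of_nonneg (hV0 t)]
        refine (mul_le_mul_of_nonneg_right (hΦ t ht) (hV0 t)).trans ?_
        rw [add_mul]
        apply add_le_add_left
        simp only [hG]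
        rw [Finset.sum_mul]
        refine Finset.sum_le_sum fun n _ => ?_
        rw [Finset.sum_mul]
        refine Finset.sum_le_sum fun n' _ => ?_
        have k1 := two_mul_le_add_sq (nz (t + n / L) r : ℝ) (nz (t + n' / L) r : ℝ)
        have k2 : 0 ≤ W n n' * V t := mul_nonneg (hW n n') (hV0 t)
        nlinarith [mul_le_mul_of_nonneg_left k1 k2]
    _ ≤ ∫ t in T..(2 * T), (G t + E' * V t) := by
        refine intervalIntegral.integral_mono_interval ha hab hb ?_ ((hi3 hTT).add ((hVi _ _).const_mul _))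
        exact Eventually.of_forall fun t => add_nonneg (hG0 t) (mul_nonneg hE' (hV0 t))
    _ ≤ _ := hGint

end Pool.Agent.Q16.UM3
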