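import Pool.Agent.Q16.UM.Three

set_option autoImplicit false

/-! # Project UM, jobs UM-CVB and UM-MS -/

namespace Pool.Agent.Q16.UM

open Filter Topology MeasureTheory Complex
open Pool.Agent.Q97.UM

noncomputable section

theorem rpow_top {θ : ℝ} (hθ : 0 < θ) : Tendsto (fun T : ℝ => T ^ θ) atTop atTop := tendsto_rpow_atTop hθ

/-- sizes -/
theorem ev_sz {θ : ℝ} (hθ : 0 < θ) (hθ1 : θ ≤ 1 / 40) : ∀ᶠ T : ℝ in atTop, 34 ≤ T ∧ 2 ≤ ⌊T ^ θ⌋₊ ∧
    T ^ θ / 2 ≤ (⌊T ^ θ⌋₊ : ℝ) ∧ (⌊T ^ θ⌋₊ : ℝ) ≤ T ^ θ ∧ T ^ θ ≤ T ∧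
    ∀ N : ℕ, (N : ℝ) ≤ T ^ (θ / 80) → (N : ℝ) ≤ T ^ θ ∧ (N : ℝ) ≤ (T / 2) ^ (1 / 4 : ℝ) := by
  filter_upwards [eventually_ge_atTop (34 : ℝ), (rpow_top hθ).eventually_ge_atTop 4] with T h1 h2
  have hT1 : 1 ≤ T := by linarith
  have h3 := Nat.lt_floor_add_one (T ^ θ)
  refine ⟨h1, ?_, by linarith, Nat.floor_le (by positivity), ?_, ?_⟩
  · apply Nat.le_floor
    push_cast
    linarith
  · calc T ^ θ ≤ T ^ (1 : ℝ) := Real.rpow_le_rpow_of_exponent_le hT1 (by linarith)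
      _ = T := Real.rpow_one T
  · intro N hN
    refine ⟨hN.trans (Real.rpow_le_rpow_of_exponent_le hT1 (by linarith)), ?_⟩
    have h4 : T ^ (1 / 2 : ℝ) ≤ T / 2 := by
      have h5 : T = T ^ (1 / 2 : ℝ) * T ^ (1 / 2 : ℝ) := by
        rw [← Real.rpow_add (by linarith)]
        norm_num
      have h6 : 2 ≤ T ^ (1 / 2 : ℝ) := by
        rw [← Real.sqrt_eq_rpow]
        apply Real.le_sqrt_of_sq_le
        linarith
      have h7 : 0 ≤ T ^ (1 / 2 : ℝ) := by positivity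
      nlinarith
    calc (N : ℝ) ≤ T ^ (θ / 80) := hN
      _ ≤ T ^ (1 / 8 : ℝ) := Real.rpow_le_rpow_of_exponent_le hT1 (by linarith)
      _ = (T ^ (1 / 2 : ℝ)) ^ (1 / 4 : ℝ) := by
        rw [← Real.rpow_mul (by linarith)]
        norm_num
      _ ≤ (T / 2) ^ (1 / 4 : ℝ) := Real.rpow_le_rpow (by positivity) h4 (by norm_num)

/-- the use of R2K -/
theorem use_r2k {Pw : ℝ → ℝ} {θ C : ℝ} (hθ : 0 < θ) (hθ1 : θ ≤ 1 / 40) (hC : 0 ≤ C) (hR : R2K Pw θ C) (hDPM : S_DPM)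
    (hMVL : S_MVL) : ∀ᶠ T : ℝ in atTop, ∀ N : ℕ, (N : ℝ) ≤ T ^ (θ / 80) → 1 ≤ N → ∀ (b : ℕ → ℂ) (κ y x c : ℝ),
    0 ≤ κ → |c| ≤ 1 → |y| ≤ T / 8 → 0 ≤ x →
    ∫ t in (T / 2)..(3 * T), ‖dp N (mv b x) t‖ ^ 2 *
      ‖Hc (et (til Pw κ) ⌊T ^ θ⌋₊) ⌊T ^ θ⌋₊ c (((1 / 2 : ℝ) : ℂ) + (t + y : ℝ) * I)‖ ^ 2 ≤
      (2 * C + 14) * Real.exp (4 * κ) * T * ((N : ℝ) ^ (2 * x) * N2 N b) := by
  filter_upwards [hR, ev_sz hθ hθ1] with T h1 h2
  obtain ⟨g1, g2, g3, g4, g5, g6⟩ := h2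
  intro N hN hN1 b κ y x c hκ hc hy hx
  have hT : 0 < T := by linarith
  obtain ⟨n1, n2⟩ := g6 N hN
  set Y := ⌊T ^ θ⌋₊ with hY
  set e := et (til Pw κ) Y with he
  set b' := mv b x with hb'
  have r1 := (h1 N n1 b' κ y).1 hy
  rw [abs_of_nonneg hκ] at r1
  have e1 : ∀ t : ℝ, ‖dp N b' t‖ ^ 2 * (‖zt (t + y)‖ * ‖eta (til Pw κ) Y (t + y)‖ ^ 2) ^ 2 =
      ‖dp N b' t‖ ^ 2 * ‖Hc e Y 0 (((1 / 2 : ℝ) : ℂ) + (t + y : ℝ) * I)‖ ^ 2 := by
    intro t
    unfold Hc zt Pool.Agent.Q97.UM.eta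
    have e2 : (((1 / 2 : ℝ) : ℂ) + (t + y : ℝ) * I) = 1 / 2 + (t + y : ℝ) * I := by push_cast; ring
    rw [e2, dq_dp, ofReal_zero, sub_zero, norm_mul, norm_pow]
  simp only [e1] at r1
  have i0 : ∀ p q' : ℝ, T / 4 ≤ p → T / 4 ≤ q' → IntervalIntegrable
      (fun t => ‖dp N b' t‖ ^ 2 * ‖Hc e Y 0 (((1 / 2 : ℝ) : ℂ) + (t + y : ℝ) * I)‖ ^ 2) volume p q' :=
    fun p q' hp hq => Hc_int hDPM hy hT hp hq
  have i1 : IntervalIntegrable (fun t => ‖dp N b' t‖ ^ 2) volume (T / 2) (3 * T) :=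
    ((dp_contD hDPM N _).norm.pow 2).intervalIntegrable _ _
  have r2 : ∫ t in (T / 2)..(3 * T), ‖dp N b' t‖ ^ 2 * ‖Hc e Y 0 (((1 / 2 : ℝ) : ℂ) + (t + y : ℝ) * I)‖ ^ 2 ≤
      C * Real.exp (4 * κ) * T * N2 N b' := by
    refine le_trans ?_ r1
    exact intervalIntegral.integral_mono_interval (by linarith) (by linarith) (by linarith)
      (Eventually.of_forall fun t => by positivity) (i0 _ _ le_rfl (by linarith))
  have r3 := mvl3 hMVL hDPM (by linarith : 32 ≤ T) n2 b'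
  have hpt : ∀ t ∈ Set.Icc (T / 2) (3 * T), ‖dp N b' t‖ ^ 2 * ‖Hc e Y c (((1 / 2 : ℝ) : ℂ) + (t + y : ℝ) * I)‖ ^ 2 ≤
      2 * (‖dp N b' t‖ ^ 2 * ‖Hc e Y 0 (((1 / 2 : ℝ) : ℂ) + (t + y : ℝ) * I)‖ ^ 2) + 2 * ‖dp N b' t‖ ^ 2 := by
    intro t _
    set s := (((1 / 2 : ℝ) : ℂ) + (t + y : ℝ) * I)
    have h3 : ‖Hc e Y c s‖ ≤ ‖Hc e Y 0 s‖ + 1 := by
      have e3 : Hc e Y c s = Hc e Y 0 s - c := by unfold Hc; simp
      rw [e3]
      refine (norm_sub_le _ _).trans ?_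
      rw [norm_real, Real.norm_eq_abs]
      linarith
    have h4 : ‖Hc e Y c s‖ ^ 2 ≤ 2 * ‖Hc e Y 0 s‖ ^ 2 + 2 := by
      have := pow_le_pow_left₀ (norm_nonneg _) h3 2
      nlinarith [sq_nonneg (‖Hc e Y 0 s‖ - 1)]
    have h5 : 0 ≤ ‖dp N b' t‖ ^ 2 := by positivity
    nlinarith
  have hint := intervalIntegral.integral_mono_on (by linarith : T / 2 ≤ 3 * T)
    (Hc_int hDPM (e := e) (Y := Y) (c := c) (b := b') (N := N) hy hT (by linarith) (by linarith))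
    (((i0 _ _ (by linarith) (by linarith)).const_mul 2).add (i1.const_mul 2)) hpt
  refine hint.trans ?_
  rw [intervalIntegral.integral_add ((i0 _ _ (by linarith) (by linarith)).const_mul 2) (i1.const_mul 2),
    intervalIntegral.integral_const_mul, intervalIntegral.integral_const_mul]
  have hb2 : N2 N b' ≤ (N : ℝ) ^ (2 * x) * N2 N b := N2_mv_le hN1 b hx
  have hb0 : 0 ≤ N2 N b' := N2_nonneg _ _
  have hexp : 1 ≤ Real.exp (4 * κ) := Real.one_le_exp (by linarith)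
  calc 2 * (∫ t in (T / 2)..(3 * T), ‖dp N b' t‖ ^ 2 * ‖Hc e Y 0 (((1 / 2 : ℝ) : ℂ) + (t + y : ℝ) * I)‖ ^ 2) +
        2 * ∫ t in (T / 2)..(3 * T), ‖dp N b' t‖ ^ 2
      ≤ 2 * (C * Real.exp (4 * κ) * T * N2 N b') + 2 * (7 * T * N2 N b') := by linarith
    _ ≤ 2 * (C * Real.exp (4 * κ) * T * N2 N b') + 14 * Real.exp (4 * κ) * T * N2 N b' := by
        have h6 : 14 * (T * N2 N b') ≤ 14 * (Real.exp (4 * κ) * (T * N2 N b')) := by
          have : 0 ≤ T * N2 N b' := by positivity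
          nlinarith
        linarith
    _ = (2 * C + 14) * Real.exp (4 * κ) * T * N2 N b' := by ring
    _ ≤ _ := by gcongr

theorem fm_eq (Pw : ℝ → ℝ) (Y : ℕ) (s : ℂ) : fm Pw Y s - 1 = Hc (et Pw Y) Y 1 s := by
  unfold fm Hc
  simp

theorem fm_eq0 (Pw : ℝ → ℝ) (Y : ℕ) (s : ℂ) : fm Pw Y s = Hc (et Pw Y) Y 0 s := by
  unfold fm Hc
  simp

theorem N_zero (b : ℕ → ℂ) (t : ℝ) : dp 0 b t = 0 := by
  unfold dp
  simp

theorem rpow_eq_exp {T x : ℝ} (hT : 0 < T) : T ^ x = Real.exp (x * Real.log T) := by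
  rw [Real.rpow_def_of_pos hT, mul_comm]

/-- CVB -/
theorem cvb : S_CVB := by
  intro Pw q c₀ C₀ θ C hG hθ hθ1 hC hR hAL hDPM hMVL hTL
  obtain ⟨CT, hCT, htlb⟩ := tlb hTL hMVL hDPM
  refine ⟨7 * θ / 40, CT * ((2 * C + 15) * 257 * 2), by positivity, by positivity, ?_⟩
  filter_upwards [htlb, use_r2k hθ hθ1 hC hR hDPM hMVL, ev_sz hθ hθ1] with T h1 h2 h3
  obtain ⟨g1, g2, g3, g4, g5, g6⟩ := h3
  intro N hN b σ y hσ1 hσ2 hy
  have hT : 0 < T := by linarith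
  have hT1 : 1 ≤ T := by linarith
  set Y := ⌊T ^ θ⌋₊ with hY
  rcases Nat.eq_zero_or_pos N with rfl | hN1
  · simp only [N_zero]
    have : N2 0 b = 0 := by unfold N2; simp
    rw [this]
    simp
  have hN1' : (1 : ℝ) ≤ N := by exact_mod_cast hN1
  obtain ⟨n1, n2⟩ := g6 N hN
  set x := σ - 1 / 2 with hx
  have hx0 : 0 ≤ x := by linarith
  have hx1 : x ≤ 5 / 2 := by linarith
  have hN2 := N2_nonneg N b
  have hY0 : (0 : ℝ) < Y := by exact_mod_cast (by omega : 0 < Y)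
  have hYT : (Y : ℝ) ≤ T := g4.trans g5
  have hr := h2 N hN hN1 b 0 y x 1 le_rfl (by simp) hy hx0
  rw [til_zero, mul_zero, Real.exp_zero, mul_one] at hr
  have hε : ∀ u : ℝ, ‖Hc (et Pw Y) Y 1 (((3 : ℝ) : ℂ) + (u : ℝ) * I)‖ ^ 2 ≤ 256 * (Y : ℝ) ^ (-(1 / 2 : ℝ)) := by
    intro u
    rw [← fm_eq]
    have h4 := f_three hG hAL g2 (s := ((3 : ℝ) : ℂ) + (u : ℝ) * I) (by simp)
    have h5 := pow_le_pow_left₀ (norm_nonneg _) h4 2
    refine h5.trans (le_of_eq ?_)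
    rw [mul_pow, ← Real.rpow_natCast ((Y : ℝ) ^ (-(1 / 4 : ℝ))), ← Real.rpow_mul hY0.le]
    norm_num
  have he1 : ∀ n ∈ Finset.Icc 1 Y, ‖et Pw Y n‖ ≤ (1 : ℝ) := by
    intro n hn
    have := til_bd hG hAL g2 le_rfl hn
    rwa [til_zero, Real.exp_zero] at this
  have hmain := h1 N Y b (et Pw Y) 1 1 σ y _ _ n2 hYT zero_le_one hT1 he1 (by simp) hσ1 hσ2 hy (by positivity) hr hε
  simp only [← fm_eq] at hmain
  refine hmain.trans ?_
  rw [← hx]
  set lam := x / (5 / 2) with hlam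
  have hl0 : 0 ≤ lam := by positivity
  have hl1 : lam ≤ 1 := by rw [hlam, div_le_one (by norm_num)]; exact hx1
  have hNx : 1 ≤ (N : ℝ) ^ (2 * x) := Real.one_le_rpow hN1' (by linarith)
  have hTinv : 1 / T ≤ T := by
    rw [div_le_iff₀ hT]
    nlinarith
  have hTN : 0 ≤ T * N2 N b := by positivity
  have hNT : N2 N b / T ≤ T * N2 N b := by
    have := mul_le_mul_of_nonneg_right hTinv hN2
    calc N2 N b / T = 1 / T * N2 N b := by ring
      _ ≤ T * N2 N b := this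
  have hU : (2 * C + 14) * T * ((N : ℝ) ^ (2 * x) * N2 N b) + N2 N b / T ≤ (2 * C + 15) * (T * N2 N b) * (N : ℝ) ^ (2 * x) := by
    have a1 : T * N2 N b ≤ T * N2 N b * (N : ℝ) ^ (2 * x) := le_mul_of_one_le_right hTN hNx
    nlinarith
  have hYh : 1 / T ≤ T * (Y : ℝ) ^ (-(1 / 2 : ℝ)) := by
    have a1 : (Y : ℝ) ^ (1 / 2 : ℝ) ≤ T := by
      calc (Y : ℝ) ^ (1 / 2 : ℝ) ≤ T ^ (1 / 2 : ℝ) := Real.rpow_le_rpow hY0.le hYT (by norm_num)
        _ ≤ T ^ (1 : ℝ) := Real.rpow_le_rpow_of_exponent_le hT1 (by norm_num)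
        _ = T := Real.rpow_one T
    rw [Real.rpow_neg hY0.le, ← div_eq_mul_inv, div_le_div_iff₀ hT (by positivity), one_mul]
    nlinarith
  have hV : 256 * (Y : ℝ) ^ (-(1 / 2 : ℝ)) * T * N2 N b + N2 N b / T ≤ 257 * (T * N2 N b) * (Y : ℝ) ^ (-(1 / 2 : ℝ)) := by
    have a1 := mul_le_mul_of_nonneg_right hYh hN2
    have e : 1 / T * N2 N b = N2 N b / T := by ring
    rw [e] at a1
    linarith
  have hcomb := comb (lam := lam) (add_nonneg (by positivity) (by positivity)) (add_nonneg (by positivity) (by positivity)) hTN hNx (by positivity)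
    (by linarith : (1 : ℝ) ≤ 2 * C + 15) (by norm_num : (1 : ℝ) ≤ 257) hl0 hl1 hU hV
  have hW : (N : ℝ) ^ (2 * x) * ((Y : ℝ) ^ (-(1 / 2 : ℝ))) ^ lam ≤ 2 * Real.exp (-(7 * θ / 40 * x * Real.log T)) := by
    have a1 : (N : ℝ) ^ (2 * x) ≤ Real.exp (θ / 40 * x * Real.log T) := by
      calc (N : ℝ) ^ (2 * x) ≤ (T ^ (θ / 80)) ^ (2 * x) := Real.rpow_le_rpow (by positivity) hN (by linarith)
        _ = Real.exp (θ / 40 * x * Real.log T) := by
          rw [← Real.rpow_mul hT.le, rpow_eq_exp hT]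
          congr 1; ring
    have a2 : ((Y : ℝ) ^ (-(1 / 2 : ℝ))) ^ lam = (Y : ℝ) ^ (-(x / 5)) := by
      rw [← Real.rpow_mul hY0.le]
      congr 1
      rw [hlam]
      ring
    have a3 : (Y : ℝ) ^ (-(x / 5)) ≤ (T ^ θ / 2) ^ (-(x / 5)) :=
      Real.rpow_le_rpow_of_nonpos (by positivity) g3 (by linarith)
    have a4 : (T ^ θ / 2) ^ (-(x / 5)) ≤ 2 * Real.exp (-(θ / 5 * x * Real.log T)) := by
      rw [Real.div_rpow (by positivity) (by norm_num), ← Real.rpow_mul hT.le, rpow_eq_exp hT, div_eq_mul_inv,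
        ← Real.rpow_neg (by norm_num), neg_neg]
      have a5 : (2 : ℝ) ^ (x / 5) ≤ 2 := by
        calc (2 : ℝ) ^ (x / 5) ≤ 2 ^ (1 : ℝ) := Real.rpow_le_rpow_of_exponent_le (by norm_num) (by linarith)
          _ = 2 := Real.rpow_one 2
      have e : θ * -(x / 5) * Real.log T = -(θ / 5 * x * Real.log T) := by ring
      rw [e, mul_comm]
      gcongr
    rw [a2]
    calc (N : ℝ) ^ (2 * x) * (Y : ℝ) ^ (-(x / 5)) ≤
          Real.exp (θ / 40 * x * Real.log T) * (2 * Real.exp (-(θ / 5 * x * Real.log T))) :=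
          mul_le_mul a1 (a3.trans a4) (by positivity) (by positivity)
      _ = 2 * (Real.exp (θ / 40 * x * Real.log T) * Real.exp (-(θ / 5 * x * Real.log T))) := by ring
      _ = 2 * Real.exp (-(7 * θ / 40 * x * Real.log T)) := by
        rw [← Real.exp_add]
        congr 2; ring
  calc CT * (((2 * C + 14) * T * ((N : ℝ) ^ (2 * x) * N2 N b) + N2 N b / T) ^ (1 - lam) *
        (256 * (Y : ℝ) ^ (-(1 / 2 : ℝ)) * T * N2 N b + N2 N b / T) ^ lam)
      ≤ CT * ((2 * C + 15) * 257 * (T * N2 N b) * (N : ℝ) ^ (2 * x) * ((Y : ℝ) ^ (-(1 / 2 : ℝ))) ^ lam) := by gcongr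
    _ = CT * ((2 * C + 15) * 257) * (T * N2 N b) * ((N : ℝ) ^ (2 * x) * ((Y : ℝ) ^ (-(1 / 2 : ℝ))) ^ lam) := by ring
    _ ≤ CT * ((2 * C + 15) * 257) * (T * N2 N b) * (2 * Real.exp (-(7 * θ / 40 * x * Real.log T))) := by gcongr
    _ = CT * ((2 * C + 15) * 257 * 2) * T * Real.exp (-(7 * θ / 40 * x * Real.log T)) * N2 N b := by ring

/-- MS -/
theorem ms : S_MS := by
  intro Pw q c₀ C₀ θ C hG hθ hθ1 hC hR hAL hDPM hMVL hTL hCVB hFE
  obtain ⟨CT, hCT, htlb⟩ := tlb hTL hMVL hDPM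
  obtain ⟨c₁, C₁, hc₁, hC₁, hcvb⟩ := hCVB Pw q c₀ C₀ θ C hG hθ hθ1 hC hR hAL hDPM hMVL hTL
  obtain ⟨CF, hCF, hfe⟩ := hFE
  refine ⟨(2 * C₁ + 4) + 2 * CF ^ 2 * (CT * ((2 * C + 15) * 65)), by positivity, ?_⟩
  filter_upwards [htlb, use_r2k hθ hθ1 hC hR hDPM hMVL, ev_sz hθ hθ1, hcvb, eventually_ge_atTop (2 * CF)] with
    T h1 h2 h3 h4 hTF
  obtain ⟨g1, g2, g3, g4, g5, g6⟩ := h3
  intro N hN b σ y hσ1 hσ2 hy
  have hT : 0 < T := by linarith
  have hT1 : 1 ≤ T := by linarith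
  have hlT : 0 ≤ Real.log T := Real.log_nonneg hT1
  set Y := ⌊T ^ θ⌋₊ with hY
  have hN2 := N2_nonneg N b
  rcases Nat.eq_zero_or_pos N with rfl | hN1
  · simp only [N_zero]
    have : N2 0 b = 0 := by unfold N2; simp
    rw [this]
    simp
  have hN1' : (1 : ℝ) ≤ N := by exact_mod_cast hN1
  obtain ⟨n1, n2⟩ := g6 N hN
  have hTN : 0 ≤ T * N2 N b := by positivity
  rcases le_total (1 / 2) σ with hσ | hσ
  · -- right of the line
    have r1 := h4 N hN b σ y hσ hσ2 hy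
    have m1 : (N : ℝ) ≤ T ^ (1 / 4 : ℝ) := n2.trans (Real.rpow_le_rpow (by linarith) (by linarith) (by norm_num))
    have r2 := (hMVL T (by linarith) N m1 b).2
    have i1 : IntervalIntegrable (fun t => ‖dp N b t‖ ^ 2) volume T (2 * T) :=
      ((dp_contD hDPM N _).norm.pow 2).intervalIntegrable _ _
    have i2 := Hc_int hDPM (e := et Pw Y) (Y := Y) (c := 1) (σ := σ) (b := b) (N := N) hy hT (p := T) (q := 2 * T)
      (by linarith) (by linarith)
    have i3 := Hc_int hDPM (e := et Pw Y) (Y := Y) (c := 0) (σ := σ) (b := b) (N := N) hy hT (p := T) (q := 2 * T)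
      (by linarith) (by linarith)
    simp only [← fm_eq] at i2
    simp only [← fm_eq0] at i3
    have hpt : ∀ t ∈ Set.Icc T (2 * T), ‖dp N b t‖ ^ 2 * ‖fm Pw Y (σ + (t + y : ℝ) * I)‖ ^ 2 ≤
        2 * (‖dp N b t‖ ^ 2 * ‖fm Pw Y (σ + (t + y : ℝ) * I) - 1‖ ^ 2) + 2 * ‖dp N b t‖ ^ 2 := by
      intro t _
      set s := ((σ : ℂ) + (t + y : ℝ) * I)
      have h3 : ‖fm Pw Y s‖ ≤ ‖fm Pw Y s - 1‖ + 1 := by
        have e3 : fm Pw Y s = (fm Pw Y s - 1) + 1 := by ring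
        calc ‖fm Pw Y s‖ = ‖(fm Pw Y s - 1) + 1‖ := by rw [← e3]
          _ ≤ ‖fm Pw Y s - 1‖ + ‖(1 : ℂ)‖ := norm_add_le _ _
          _ = _ := by rw [norm_one]
      have h4 : ‖fm Pw Y s‖ ^ 2 ≤ 2 * ‖fm Pw Y s - 1‖ ^ 2 + 2 := by
        have := pow_le_pow_left₀ (norm_nonneg _) h3 2
        nlinarith [sq_nonneg (‖fm Pw Y s - 1‖ - 1)]
      have h5 : 0 ≤ ‖dp N b t‖ ^ 2 := by positivity
      nlinarith
    have hint := intervalIntegral.integral_mono_on (by linarith : T ≤ 2 * T) i3 ((i2.const_mul 2).add (i1.const_mul 2)) hpt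
    rw [intervalIntegral.integral_add (i2.const_mul 2) (i1.const_mul 2),
      intervalIntegral.integral_const_mul, intervalIntegral.integral_const_mul] at hint
    have e1 : Real.exp (-(c₁ * (σ - 1 / 2) * Real.log T)) ≤ 1 := by
      rw [Real.exp_le_one_iff]
      have : 0 ≤ c₁ * (σ - 1 / 2) * Real.log T := by
        have : 0 ≤ σ - 1 / 2 := by linarith
        positivity
      linarith
    have e2 : 1 ≤ Real.exp (4 * |σ - 1 / 2| * Real.log T) := Real.one_le_exp (by positivity)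
    have r3 : C₁ * T * Real.exp (-(c₁ * (σ - 1 / 2) * Real.log T)) * N2 N b ≤ C₁ * (T * N2 N b) := by
      calc C₁ * T * Real.exp (-(c₁ * (σ - 1 / 2) * Real.log T)) * N2 N b =
            C₁ * (T * N2 N b) * Real.exp (-(c₁ * (σ - 1 / 2) * Real.log T)) := by ring
        _ ≤ C₁ * (T * N2 N b) * 1 := by gcongr
        _ = C₁ * (T * N2 N b) := by ring
    have r4 : ∫ t in T..(2 * T), ‖dp N b t‖ ^ 2 * ‖fm Pw Y (σ + (t + y : ℝ) * I)‖ ^ 2 ≤ (2 * C₁ + 4) * (T * N2 N b) := by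
      linarith
    refine r4.trans ?_
    have k1 : (2 * C₁ + 4) * (T * N2 N b) ≤ (2 * C₁ + 4) * (T * N2 N b) * Real.exp (4 * |σ - 1 / 2| * Real.log T) :=
      le_mul_of_one_le_right (by positivity) e2
    have k2 : 0 ≤ 2 * CF ^ 2 * (CT * ((2 * C + 15) * 65)) * (T * N2 N b) * Real.exp (4 * |σ - 1 / 2| * Real.log T) := by
      positivity
    calc (2 * C₁ + 4) * (T * N2 N b) ≤ (2 * C₁ + 4) * (T * N2 N b) * Real.exp (4 * |σ - 1 / 2| * Real.log T) +
          2 * CF ^ 2 * (CT * ((2 * C + 15) * 65)) * (T * N2 N b) * Real.exp (4 * |σ - 1 / 2| * Real.log T) := by linarith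
      _ = _ := by ring
  · -- left of the line
    set a := 1 / 2 - σ with ha
    have ha0 : 0 ≤ a := by linarith
    have ha1 : a ≤ 1 / 4 := by linarith
    have habs : |σ - 1 / 2| = a := by
      rw [abs_of_nonpos (by linarith)]
      linarith
    rw [habs]
    have hY0 : (0 : ℝ) < Y := by exact_mod_cast (by omega : 0 < Y)
    have hY1 : (1 : ℝ) < Y := by exact_mod_cast (by omega : 1 < Y)
    have hlY : 0 < Real.log Y := Real.log_pos hY1
    have hYT : (Y : ℝ) ≤ T := g4.trans g5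
    set κ := 2 * a * Real.log Y with hκ
    have hκ0 : 0 ≤ κ := by positivity
    have hlYT : Real.log Y ≤ θ * Real.log T := by
      have := Real.log_le_log hY0 g4
      rwa [Real.log_rpow hT] at this
    have hκT : κ ≤ 2 * a * (θ * Real.log T) := by
      rw [hκ]
      gcongr
    have hET : Real.exp κ ≤ T := by
      have k1 : κ ≤ Real.log T := by
        refine hκT.trans ?_
        have : 2 * a * θ ≤ 1 := by nlinarith
        nlinarith
      calc Real.exp κ ≤ Real.exp (Real.log T) := Real.exp_le_exp.2 k1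
        _ = T := Real.exp_log hT
    set e := et (til Pw κ) Y with he
    have hr := h2 N hN hN1 b κ y a 0 hκ0 (by simp) hy ha0
    have hε : ∀ u : ℝ, ‖Hc e Y 0 (((3 : ℝ) : ℂ) + (u : ℝ) * I)‖ ^ 2 ≤ 64 * Real.exp (4 * κ) := by
      intro u
      set s := ((3 : ℝ) : ℂ) + (u : ℝ) * I
      have hs : s.re = 3 := by simp [s]
      have k1 := dq_three (Real.exp_pos κ).le (fun n hn => til_bd hG hAL g2 hκ0 hn) hs (M := Y)
      have k2 := zeta_three hs
      unfold Hc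
      rw [ofReal_zero, sub_zero, norm_mul, norm_pow]
      have k3 : ‖riemannZeta s‖ * ‖dq Y e s‖ ^ 2 ≤ 2 * (2 * Real.exp κ) ^ 2 := by gcongr
      have k4 := pow_le_pow_left₀ (by positivity) k3 2
      refine k4.trans (le_of_eq ?_)
      have k5 : Real.exp (4 * κ) = Real.exp κ ^ 4 := by
        rw [← Real.exp_nat_mul]
        norm_num
      rw [k5]
      ring
    have hmain := h1 N Y b e 0 (Real.exp κ) (1 / 2 + a) y
      ((2 * C + 14) * Real.exp (4 * κ) * T * ((N : ℝ) ^ (2 * a) * N2 N b)) (64 * Real.exp (4 * κ)) n2 hYT (Real.exp_pos κ).le hET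
      (fun n hn => til_bd hG hAL g2 hκ0 hn) (by simp) (by linarith) (by linarith) hy (by positivity)
      (by rw [show 1 / 2 + a - 1 / 2 = a by ring]; exact hr) hε
    rw [show 1 / 2 + a - 1 / 2 = a by ring] at hmain
    -- the functional equation
    have hpt : ∀ t ∈ Set.Icc T (2 * T), ‖dp N b t‖ ^ 2 * ‖fm Pw Y (σ + (t + y : ℝ) * I)‖ ^ 2 ≤
        2 * CF ^ 2 * T ^ (2 * a) * (‖dp N b t‖ ^ 2 * ‖Hc e Y 0 ((1 / 2 + a : ℝ) + (t + y : ℝ) * I)‖ ^ 2) := by
      intro t ht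
      have hya := abs_le.1 hy
      have hu1 : CF ≤ t + y := by linarith [ht.1]
      have hu2 : t + y ≤ 4 * T := by linarith [ht.2]
      have hu0 : 0 < t + y := by linarith [ht.1]
      have k1 := hfe a (t + y) ha0 ha1 hu1
      have e1 : ((1 / 2 - a : ℝ) : ℂ) = (σ : ℂ) := by
        have : (1 / 2 - a : ℝ) = σ := by linarith
        rw [this]
      rw [e1] at k1
      have k2 : dq Y (et Pw Y) ((σ : ℂ) + (t + y : ℝ) * I) = dq Y e (((1 / 2 + a : ℝ) : ℂ) + (t + y : ℝ) * I) := by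
        unfold dq
        apply Finset.sum_congr rfl
        intro n hn
        have hn1 := (Finset.mem_Icc.1 hn).1
        have hn0 : (0 : ℝ) < n := by exact_mod_cast hn1
        have hnc : (n : ℂ) ≠ 0 := by exact_mod_cast (by omega : n ≠ 0)
        rw [he]
        unfold et til
        have e2 : Real.exp (κ * (Real.log n / Real.log Y)) = (n : ℝ) ^ (2 * a) := by
          rw [rpow_eq_exp hn0, hκ]
          congr 1
          field_simp
        rw [e2]
        push_cast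
        rw [ofReal_cpow hn0.le]
        have e3 : (n : ℂ) ^ (-((σ : ℂ) + ((t : ℂ) + y) * I)) = (n : ℂ) ^ ((2 * a : ℝ) : ℂ) *
            (n : ℂ) ^ (-((1 / 2 + (a : ℂ)) + ((t : ℂ) + y) * I)) := by
          rw [← cpow_add _ _ hnc]
          congr 1
          have : (σ : ℂ) = 1 / 2 - a := by
            rw [ha]; push_cast; ring
          rw [this]
          push_cast
          ring
        rw [e3]
        push_cast
        ring
      have k3 : ‖fm Pw Y ((σ : ℂ) + (t + y : ℝ) * I)‖ ≤ CF * (t + y) ^ a *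
          ‖Hc e Y 0 (((1 / 2 + a : ℝ) : ℂ) + (t + y : ℝ) * I)‖ := by
        unfold fm Hc
        rw [k2, ofReal_zero, sub_zero, norm_mul, norm_mul, ← mul_assoc]
        gcongr
      have k4 : (CF * (t + y) ^ a) ^ 2 ≤ 2 * CF ^ 2 * T ^ (2 * a) := by
        rw [mul_pow, ← Real.rpow_natCast ((t + y) ^ a), ← Real.rpow_mul hu0.le]
        have k5 : (t + y) ^ (a * ((2 : ℕ) : ℝ)) ≤ 2 * T ^ (2 * a) := by
          calc (t + y) ^ (a * ((2 : ℕ) : ℝ)) ≤ (4 * T) ^ (a * ((2 : ℕ) : ℝ)) :=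
                Real.rpow_le_rpow hu0.le hu2 (by positivity)
            _ = 4 ^ (a * ((2 : ℕ) : ℝ)) * T ^ (2 * a) := by
                rw [Real.mul_rpow (by norm_num) hT.le]
                congr 2
                push_cast; ring
            _ ≤ 2 * T ^ (2 * a) := by
                have : (4 : ℝ) ^ (a * ((2 : ℕ) : ℝ)) ≤ 4 ^ (1 / 2 : ℝ) :=
                  Real.rpow_le_rpow_of_exponent_le (by norm_num) (by push_cast; linarith)
                have h4 : (4 : ℝ) ^ (1 / 2 : ℝ) = 2 := by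
                  rw [← Real.sqrt_eq_rpow, show (4 : ℝ) = 2 ^ 2 by norm_num, Real.sqrt_sq (by norm_num)]
                rw [h4] at this
                gcongr
        calc CF ^ 2 * (t + y) ^ (a * ((2 : ℕ) : ℝ)) ≤ CF ^ 2 * (2 * T ^ (2 * a)) := by gcongr
          _ = _ := by ring
      have k6 := pow_le_pow_left₀ (norm_nonneg _) k3 2
      rw [mul_pow] at k6
      calc ‖dp N b t‖ ^ 2 * ‖fm Pw Y ((σ : ℂ) + (t + y : ℝ) * I)‖ ^ 2 ≤ ‖dp N b t‖ ^ 2 *
            ((CF * (t + y) ^ a) ^ 2 * ‖Hc e Y 0 (((1 / 2 + a : ℝ) : ℂ) + (t + y : ℝ) * I)‖ ^ 2) := by gcongr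
        _ ≤ ‖dp N b t‖ ^ 2 * ((2 * CF ^ 2 * T ^ (2 * a)) * ‖Hc e Y 0 (((1 / 2 + a : ℝ) : ℂ) + (t + y : ℝ) * I)‖ ^ 2) := by
            gcongr
        _ = _ := by ring
    have i3 := Hc_int hDPM (e := et Pw Y) (Y := Y) (c := 0) (σ := σ) (b := b) (N := N) hy hT (p := T) (q := 2 * T)
      (by linarith) (by linarith)
    simp only [← fm_eq0] at i3
    have i4 := Hc_int hDPM (e := e) (Y := Y) (c := 0) (σ := 1 / 2 + a) (b := b) (N := N) hy hT (p := T) (q := 2 * T)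
      (by linarith) (by linarith)
    have hint := intervalIntegral.integral_mono_on (by linarith : T ≤ 2 * T) i3 (i4.const_mul _) hpt
    rw [intervalIntegral.integral_const_mul] at hint
    refine hint.trans ?_
    -- the bound of the right side
    set lam := a / (5 / 2) with hlam
    have hl0 : 0 ≤ lam := by positivity
    have hl1 : lam ≤ 1 := by rw [hlam, div_le_one (by norm_num)]; linarith
    have hNx : 1 ≤ (N : ℝ) ^ (2 * a) := Real.one_le_rpow hN1' (by linarith)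
    have hexp1 : 1 ≤ Real.exp (4 * κ) := Real.one_le_exp (by linarith)
    have hTinv : 1 / T ≤ T := by
      rw [div_le_iff₀ hT]
      nlinarith
    have hNT : N2 N b / T ≤ T * N2 N b := by
      have := mul_le_mul_of_nonneg_right hTinv hN2
      calc N2 N b / T = 1 / T * N2 N b := by ring
        _ ≤ T * N2 N b := this
    set X := Real.exp (4 * κ) * (T * N2 N b) with hX
    have hX0 : 0 ≤ X := by positivity
    have hTX : T * N2 N b ≤ X := le_mul_of_one_le_left hTN hexp1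
    have hU : (2 * C + 14) * Real.exp (4 * κ) * T * ((N : ℝ) ^ (2 * a) * N2 N b) + N2 N b / T ≤
        (2 * C + 15) * X * (N : ℝ) ^ (2 * a) := by
      have a1 : X ≤ X * (N : ℝ) ^ (2 * a) := le_mul_of_one_le_right hX0 hNx
      have e : (2 * C + 14) * Real.exp (4 * κ) * T * ((N : ℝ) ^ (2 * a) * N2 N b) = (2 * C + 14) * (X * (N : ℝ) ^ (2 * a)) := by
        rw [hX]; ring
      rw [e]
      linarith
    have hV : 64 * Real.exp (4 * κ) * T * N2 N b + N2 N b / T ≤ 65 * X * 1 := by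
      have e : 64 * Real.exp (4 * κ) * T * N2 N b = 64 * X := by rw [hX]; ring
      rw [e]
      linarith
    have hcomb := comb (lam := lam) (add_nonneg (by positivity) (by positivity))
      (add_nonneg (by positivity) (by positivity)) hX0 hNx zero_le_one
      (by linarith : (1 : ℝ) ≤ 2 * C + 15) (by norm_num : (1 : ℝ) ≤ 65) hl0 hl1 hU hV
    rw [Real.one_rpow, mul_one] at hcomb
    have hexpo : T ^ (2 * a) * (Real.exp (4 * κ) * (N : ℝ) ^ (2 * a)) ≤ Real.exp (4 * a * Real.log T) := by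
      have a1 : (N : ℝ) ^ (2 * a) ≤ Real.exp (θ / 40 * a * Real.log T) := by
        calc (N : ℝ) ^ (2 * a) ≤ (T ^ (θ / 80)) ^ (2 * a) := Real.rpow_le_rpow (by positivity) hN (by linarith)
          _ = Real.exp (θ / 40 * a * Real.log T) := by
            rw [← Real.rpow_mul hT.le, rpow_eq_exp hT]
            congr 1; ring
      have a2 : Real.exp (4 * κ) ≤ Real.exp (8 * a * θ * Real.log T) := Real.exp_le_exp.2 (by linarith)
      have a3 : T ^ (2 * a) = Real.exp (2 * a * Real.log T) := rpow_eq_exp hT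
      rw [a3]
      calc Real.exp (2 * a * Real.log T) * (Real.exp (4 * κ) * (N : ℝ) ^ (2 * a)) ≤
            Real.exp (2 * a * Real.log T) * (Real.exp (8 * a * θ * Real.log T) * Real.exp (θ / 40 * a * Real.log T)) := by
            gcongr
        _ = Real.exp (2 * a * Real.log T + (8 * a * θ * Real.log T + θ / 40 * a * Real.log T)) := by
            rw [Real.exp_add, Real.exp_add]
        _ ≤ Real.exp (4 * a * Real.log T) := by
            apply Real.exp_le_exp.2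
            have k1 : a * θ * Real.log T ≤ 1 / 40 * (a * Real.log T) := by
              have : 0 ≤ a * Real.log T := by positivity
              nlinarith
            have k2 : 0 ≤ a * Real.log T := by positivity
            linarith
    calc 2 * CF ^ 2 * T ^ (2 * a) * ∫ t in T..(2 * T), ‖dp N b t‖ ^ 2 * ‖Hc e Y 0 ((1 / 2 + a : ℝ) + (t + y : ℝ) * I)‖ ^ 2
        ≤ 2 * CF ^ 2 * T ^ (2 * a) * (CT * ((2 * C + 15) * 65 * X * (N : ℝ) ^ (2 * a))) := by
          apply mul_le_mul_of_nonneg_left _ (by positivity)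
          refine hmain.trans ?_
          exact mul_le_mul_of_nonneg_left hcomb (by linarith)
      _ = 2 * CF ^ 2 * (CT * ((2 * C + 15) * 65)) * (T * N2 N b) * (T ^ (2 * a) * (Real.exp (4 * κ) * (N : ℝ) ^ (2 * a))) := by
          rw [hX]; ring
      _ ≤ 2 * CF ^ 2 * (CT * ((2 * C + 15) * 65)) * (T * N2 N b) * Real.exp (4 * a * Real.log T) := by gcongr
      _ ≤ (2 * C₁ + 4) * (T * N2 N b) * Real.exp (4 * a * Real.log T) +
          2 * CF ^ 2 * (CT * ((2 * C + 15) * 65)) * (T * N2 N b) * Real.exp (4 * a * Real.log T) := by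
          have : 0 ≤ (2 * C₁ + 4) * (T * N2 N b) * Real.exp (4 * a * Real.log T) := by positivity
          linarith
      _ = _ := by ring

end

end Pool.Agent.Q16.UM
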