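import Pool.Agent.Q16.UM.Up

set_option autoImplicit false

/-! Project UM2 (helper97), job DENS: the density theorem at the zeros, relative to every Dirichlet polynomial. -/

namespace Pool.Agent.Q16.UM9

open Filter Topology MeasureTheory Set
open Pool.Agent.Q97.UM Pool.Agent.Q210.UM

theorem hZ : S_ZF2 := Pool.Agent.Q178.UM.ZF2.t_ZF2

theorem t_DENS : J_DENS := by
  classical
  intro hD hE
  obtain ⟨θ₀, c, C, hθ0, hθ1, hc, hC, hE⟩ := hE
  refine ⟨min θ₀ (1 / 40), c, 3 * C, by positivity, min_le_right _ _, hc, by positivity, ?_⟩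
  unfold EDB at hE
  filter_upwards [hE, eventually_ge_atTop (4 : ℝ), Real.tendsto_log_atTop.eventually_ge_atTop 1] with T hE hT hL1 N hN b σ hσ
  have hT0 : 0 < T := by linarith
  have hN₀ : (N : ℝ) ≤ T ^ θ₀ := hN.trans (Real.rpow_le_rpow_of_exponent_le (by linarith) (min_le_left _ _))
  have hNT : (N : ℝ) ≤ T := by
    refine hN₀.trans ?_
    calc T ^ θ₀ ≤ T ^ (1 : ℝ) := Real.rpow_le_rpow_of_exponent_le (by linarith) (by linarith)
      _ = T := Real.rpow_one T
  obtain ⟨L, hLd⟩ : ∃ L, L = Real.log T := ⟨_, rfl⟩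
  have hL0 : 0 < L := by rw [hLd]; linarith
  obtain ⟨A, hA⟩ : ∃ A, A = (σ - 1 / 2) * L := ⟨_, rfl⟩
  have hA0 : 0 ≤ A := by
    rw [hA]
    have : 0 ≤ σ - 1 / 2 := by linarith
    positivity
  have hAL : A / L = σ - 1 / 2 := by rw [hA]; field_simp
  have hB : ∀ b : ℕ → ℂ, ∫ t in T..(2 * T), cz t (1 / L) (A / L) * ‖dp N b t‖ ^ 2 ≤ C * Real.exp (-(c * A)) * T * N2 N b := by
    intro b
    have := hE N hN₀ b 0 A (by rw [abs_zero]; positivity) hA0
    simp only [add_zero] at this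
    rw [hLd]
    exact this
  have hWi : ∀ b : ℕ → ℂ, IntervalIntegrable (fun t => cz t (1 / L) (A / L) * ‖dp N b t‖ ^ 2) volume T (2 * T) := by
    intro b
    have := Pool.Agent.Q222.UM.cz_int hZ 0 (1 / L) (A / L) (show T ≤ 2 * T by linarith) (V_cont hD N b) (fun s => sq_nonneg _)
    simpa only [add_zero] using this
  have hsub : (H370.Zf riemannZeta T (2 * T)).filter (fun s => σ ≤ s.re) ⊆ H370.Zf riemannZeta T (2 * T) := Finset.filter_subset _ _
  have key := samp_dp hD hT hL1 hNT b hsub (W := fun t => cz t (1 / L) (A / L)) (B := C * Real.exp (-(c * A)) * T) (by positivity)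
    (by
      intro t h1 h2
      rw [Pool.Agent.Q222.UM.cz_eq hZ, ← Finset.sum_filter]
      refine Finset.sum_le_sum_of_subset_of_nonneg (fun s hs => ?_) fun _ _ _ => Nat.cast_nonneg _
      rw [Finset.mem_filter, Finset.mem_filter] at hs
      obtain ⟨⟨hs1, hs2⟩, hs3⟩ := hs
      have h3 := (H370.mem_Zf H370.good_zeta (by linarith : (1 : ℝ) ≤ T)).1 hs1
      rw [Finset.mem_filter, Set.Finite.mem_toFinset]
      refine ⟨⟨h3.2.2.2.2, h3.1, h3.2.1, ?_⟩, ?_⟩
      · rw [hLd]; exact hs3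
      · rw [hAL]
        exact le_trans (by linarith) (le_abs_self _))
    hWi (fun b => by
      have := hB b
      exact this)
  refine key.trans (le_of_eq ?_)
  have h5 : T ^ (-(c * (σ - 1 / 2))) = Real.exp (-(c * A)) := by
    rw [Real.rpow_def_of_pos hT0, hA, hLd]
    congr 1
    ring
  rw [h5]
  ring

end Pool.Agent.Q16.UM9
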