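import Pool.Agent.Q16.UM.SpcA

set_option autoImplicit false

/-! Project UM3 (helper97), job UM3-SPC: Montgomery's theorem relative to every Dirichlet polynomial, from windows to the zeros. -/

namespace Pool.Agent.Q16.UM3

open Filter Topology MeasureTheory Set
open Pool.Agent.Q97.UM Pool.Agent.Q210.UM

theorem GA_ii (R : ℝ → ℝ) (lam H T : ℝ) {V : ℝ → ℝ} (hV : Continuous V) (x y : ℝ) :
    IntervalIntegrable (fun t => GA R lam H T t * V t) volume x y := by
  classical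
  have h1 : (fun t => GA R lam H T t * V t) = fun t => ∑ s ∈ ZT T, ((mz s : ℝ) * Ag R lam T s) *
      Set.indicator (Set.Icc (s.im - H / Real.log T) (s.im + H / Real.log T)) V t := by
    funext t
    unfold GA
    rw [Finset.sum_filter, Finset.sum_mul]
    refine Finset.sum_congr rfl fun s _ => ?_
    by_cases h : |s.im - t| ≤ H / Real.log T
    · rw [if_pos h, Set.indicator_of_mem ((Pool.Agent.Q61.UM.mem_win _ _ _).2 h)]
    · rw [if_neg h, Set.indicator_of_notMem (fun h' => h ((Pool.Agent.Q61.UM.mem_win _ _ _).1 h'))]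
      ring
  rw [h1]
  have h2 := IntervalIntegrable.sum (μ := volume) (a := x) (b := y) (ZT T)
    (f := fun s t => ((mz s : ℝ) * Ag R lam T s) * Set.indicator (Set.Icc (s.im - H / Real.log T) (s.im + H / Real.log T)) V t)
    fun s _ => (Pool.Agent.Q61.UM.ind_ii hV _ _ _ _).const_mul _
  refine h2.congr ?_
  intro t _
  simp only [Finset.sum_apply]

theorem t_SPC : J_SPC := by
  classical
  intro hD _ hMVL hSD hWPC hRH R D M lam ε hT hl0 hl1 hε
  have hF := H370.good_zeta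
  obtain ⟨C, hC, hcnt⟩ := H370.zcount hF
  obtain ⟨ϑ, C₂, hϑ0, hϑ1, hC₂, hSDB⟩ := hSD
  obtain ⟨H₀, hH1, hH₀⟩ := hWPC hRH R D M lam ε hT hl0 hl1 hε
  obtain ⟨θ₀, hθ₀, hθ₁, hev⟩ := hH₀ H₀ le_rfl
  obtain ⟨H, hHd⟩ : ∃ H, H = H₀ := ⟨_, rfl⟩
  rw [← hHd] at hH1 hev
  have hH : 0 < H := by linarith
  obtain ⟨CH, hCH, hGA⟩ := GA_bound hϑ1 hC₂ hSDB hMVL hT hl0 hl1.le hH1
  obtain ⟨CA, hCA, hAg⟩ := Ag_bound hT hl0 hl1.le
  set θ : ℝ := min (min θ₀ ϑ) (ε / (16 * CH)) with hθ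
  have hθ0 : 0 < θ := by positivity
  have hθa : θ ≤ θ₀ := (min_le_left _ _).trans (min_le_left _ _)
  have hθb : θ ≤ ϑ := (min_le_left _ _).trans (min_le_right _ _)
  have hθ40 : θ ≤ 1 / 40 := hθa.trans hθ₁
  have hθH : θ * (16 * CH) ≤ ε := by
    have := min_le_right (min θ₀ ϑ) (ε / (16 * CH))
    rw [← hθ, le_div_iff₀ (by positivity)] at this
    exact this
  refine ⟨θ, hθ0, hθ40, ?_⟩
  have hlog : ∀ᶠ T : ℝ in atTop, 24 * C * CA * Real.log T ^ 2 ≤ ε / 4 * T ^ (19 / 40 : ℝ) := by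
    have h1 : (fun T : ℝ => Real.log T ^ (2 : ℕ)) =o[atTop] fun T : ℝ => T ^ (19 / 40 : ℝ) := by
      have h3 := isLittleO_log_rpow_rpow_atTop (s := (19 / 40 : ℝ)) 2 (by norm_num)
      refine h3.congr' ?_ (EventuallyEq.refl _ _)
      filter_upwards with x
      norm_cast
    have h2 := h1.bound (show 0 < ε / 4 / (24 * C * CA) by positivity)
    filter_upwards [h2, eventually_ge_atTop (1 : ℝ)] with T h hT
    rw [Real.norm_eq_abs, Real.norm_eq_abs, abs_of_nonneg (by positivity), abs_of_nonneg (by positivity)] at h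
    have h3 : 24 * C * CA * Real.log T ^ 2 ≤ 24 * C * CA * (ε / 4 / (24 * C * CA) * T ^ (19 / 40 : ℝ)) := by gcongr
    refine h3.trans (le_of_eq ?_)
    field_simp
  have hlog2 : ∀ᶠ T : ℝ in atTop, 4 * Real.log T ≤ T := by
    have h2 := (Real.isLittleO_log_id_atTop).bound (show (0 : ℝ) < 1 / 4 by norm_num)
    filter_upwards [h2, eventually_ge_atTop (1 : ℝ)] with T h hT
    simp only [id] at h
    rw [Real.norm_eq_abs, Real.norm_eq_abs, abs_of_nonneg (Real.log_nonneg hT), abs_of_nonneg (by positivity)] at h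
    linarith
  filter_upwards [hev, hlog, hlog2, hGA, hAg, eventually_ge_atTop (4 : ℝ), Real.tendsto_log_atTop.eventually_ge_atTop 1,
    Real.tendsto_log_atTop.eventually_ge_atTop H] with T hev hlog hLT hGA hAg hT4 hL1 hLH
  intro N hN b
  have hT0 : 0 < T := by linarith
  have hN₀ : (N : ℝ) ≤ T ^ θ₀ := hN.trans (Real.rpow_le_rpow_of_exponent_le (by linarith) hθa)
  have hN₁ : (N : ℝ) ≤ T ^ ϑ := hN.trans (Real.rpow_le_rpow_of_exponent_le (by linarith) hθb)
  have hN40 : (N : ℝ) ≤ T ^ (1 / 40 : ℝ) := hN.trans (Real.rpow_le_rpow_of_exponent_le (by linarith) hθ40)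
  have hπ : 3 < Real.pi := Real.pi_gt_three
  set L : ℝ := Real.log T with hL
  have hL0 : 0 < L := by linarith
  set r : ℝ := H / L with hr
  have hr0 : 0 < r := by positivity
  have hr1 : r ≤ 1 := by rw [hr, div_le_one hL0]; exact hLH
  have hc : ∀ c : ℕ → ℂ, Continuous (dp N c) := fun c => (hD.2.2 N c 0).2
  obtain ⟨lm, hlm⟩ : ∃ lm, lm = θ * L := ⟨_, rfl⟩
  have hlm0 : 0 < lm := by rw [hlm]; positivity
  have hS0 := Pool.Agent.Q61.UM.N2_nonneg N b
  have hAB : T + 2 * L ≤ 2 * T - 2 * L := by linarith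
  have hkc : Continuous fun t => lm * ‖dp N b t‖ ^ 2 + lm⁻¹ * ‖dp N (Pool.Agent.Q61.UM.bd b) t‖ ^ 2 :=
    (((hc b).norm.pow 2).const_mul _).add (((hc _).norm.pow 2).const_mul _)
  have core := samp_signed (F := ZT T) (m := fun s => (mz s : ℝ) * Ag R lam T s) (ω := fun s => (mz s : ℝ) * Sg R lam T s)
    (fun s _ => by
      rw [abs_mul, abs_of_nonneg (Nat.cast_nonneg (mz s))]
      exact mul_le_mul_of_nonneg_left (Sg_le R lam T s) (Nat.cast_nonneg _))
    hAB hr0 (M := N * N2 N b)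
    (f := fun t => ‖dp N b t‖ ^ 2) (k := fun t => lm * ‖dp N b t‖ ^ 2 + lm⁻¹ * ‖dp N (Pool.Agent.Q61.UM.bd b) t‖ ^ 2)
    ((hc b).norm.pow 2) hkc (fun t => by positivity) (fun t => (hD.2.2 N b t).1) (fun t => by positivity)
    (Pool.Agent.Q61.UM.dp_var hD N b hlm0)
  -- the first error term
  have g1 := hGA N hN₁ b
  have g2 := hGA N hN₁ (Pool.Agent.Q61.UM.bd b)
  have hI : (∫ t in (T + 2 * L)..(2 * T - 2 * L), (∑ s ∈ (ZT T).filter (fun s => |s.im - t| ≤ r), (mz s : ℝ) * Ag R lam T s) *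
      (lm * ‖dp N b t‖ ^ 2 + lm⁻¹ * ‖dp N (Pool.Agent.Q61.UM.bd b) t‖ ^ 2)) =
      lm * (∫ t in (T + 2 * L)..(2 * T - 2 * L), GA R lam H T t * ‖dp N b t‖ ^ 2) +
      lm⁻¹ * (∫ t in (T + 2 * L)..(2 * T - 2 * L), GA R lam H T t * ‖dp N (Pool.Agent.Q61.UM.bd b) t‖ ^ 2) := by
    have i1 : IntervalIntegrable (fun t => lm * (GA R lam H T t * ‖dp N b t‖ ^ 2)) volume (T + 2 * L) (2 * T - 2 * L) :=
      (GA_ii R lam H T ((hc b).norm.pow 2) _ _).const_mul _
    have i2 : IntervalIntegrable (fun t => lm⁻¹ * (GA R lam H T t * ‖dp N (Pool.Agent.Q61.UM.bd b) t‖ ^ 2)) volume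
        (T + 2 * L) (2 * T - 2 * L) :=
      (GA_ii R lam H T ((hc _).norm.pow 2) _ _).const_mul _
    rw [← intervalIntegral.integral_const_mul, ← intervalIntegral.integral_const_mul, ← intervalIntegral.integral_add i1 i2]
    congr 1
    funext t
    unfold GA
    ring
  rw [hI] at core
  have hNL : N2 N (Pool.Agent.Q61.UM.bd b) ≤ lm ^ 2 * N2 N b := by
    refine (Pool.Agent.Q61.UM.N2_bd N b).trans (mul_le_mul_of_nonneg_right ?_ hS0)
    rcases Nat.eq_zero_or_pos N with h0 | h0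
    · rw [h0]; simp; positivity
    · have h1 : (1 : ℝ) ≤ N := by exact_mod_cast h0
      have h2 : Real.log N ≤ lm := by
        rw [hlm, hL, ← Real.log_rpow hT0]
        exact Real.log_le_log (by linarith) hN
      have h3 := Real.log_nonneg h1
      gcongr
  have e1 : lm * (∫ t in (T + 2 * L)..(2 * T - 2 * L), GA R lam H T t * ‖dp N b t‖ ^ 2) +
      lm⁻¹ * (∫ t in (T + 2 * L)..(2 * T - 2 * L), GA R lam H T t * ‖dp N (Pool.Agent.Q61.UM.bd b) t‖ ^ 2) ≤
      ε / 8 * L * (T * N2 N b) := by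
    calc lm * (∫ t in (T + 2 * L)..(2 * T - 2 * L), GA R lam H T t * ‖dp N b t‖ ^ 2) +
      lm⁻¹ * (∫ t in (T + 2 * L)..(2 * T - 2 * L), GA R lam H T t * ‖dp N (Pool.Agent.Q61.UM.bd b) t‖ ^ 2) ≤
        lm * (CH * T * N2 N b) + lm⁻¹ * (CH * T * (lm ^ 2 * N2 N b)) := by
          refine add_le_add (mul_le_mul_of_nonneg_left g1 hlm0.le) (mul_le_mul_of_nonneg_left (g2.trans ?_) (by positivity))
          exact mul_le_mul_of_nonneg_left hNL (by positivity)
      _ = (2 * CH * θ) * (L * (T * N2 N b)) := by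
          rw [hlm]
          field_simp
          ring
      _ ≤ ε / 8 * (L * (T * N2 N b)) := by
          apply mul_le_mul_of_nonneg_right _ (by positivity)
          linarith
      _ = ε / 8 * L * (T * N2 N b) := by ring
  -- the second error term
  have ho := Pool.Agent.Q61.UM.outer_sum hC hcnt (T := T) (L := L) (r := r) hL hL1 hr1 hT4 hLT
  have hsub : ZT T ⊆ H370.Zf riemannZeta T (2 * T) := by
    intro s hs
    unfold ZT at hs
    rw [H370.mem_Zf hF (by linarith)] at hs ⊢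
    obtain ⟨a1, a2, a3, a4, a5⟩ := hs
    exact ⟨a1, a2, by linarith, by linarith, a5⟩
  have hsq : 0 ≤ Real.sqrt T := Real.sqrt_nonneg _
  have ho2 : ∑ s ∈ (ZT T).filter (fun s => ¬ (T + 2 * L ≤ s.im - r ∧ s.im + r ≤ 2 * T - 2 * L)), (mz s : ℝ) * Ag R lam T s ≤
      CA * (Real.sqrt T * L) * (12 * C * L ^ 2) := by
    calc _ ≤ ∑ s ∈ (ZT T).filter (fun s => ¬ (T + 2 * L ≤ s.im - r ∧ s.im + r ≤ 2 * T - 2 * L)),
          CA * (Real.sqrt T * L) * (mz s : ℝ) := by
          refine Finset.sum_le_sum fun s hs => ?_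
          rw [mul_comm]
          exact mul_le_mul_of_nonneg_right (hAg s (Finset.mem_filter.1 hs).1) (Nat.cast_nonneg _)
      _ = CA * (Real.sqrt T * L) * ∑ s ∈ (ZT T).filter (fun s => ¬ (T + 2 * L ≤ s.im - r ∧ s.im + r ≤ 2 * T - 2 * L)),
          (mz s : ℝ) := by rw [Finset.mul_sum]
      _ ≤ _ := by
          apply mul_le_mul_of_nonneg_left _ (by positivity)
          refine le_trans ?_ ho
          exact Finset.sum_le_sum_of_subset_of_nonneg (Finset.filter_subset_filter _ hsub) fun _ _ _ => Nat.cast_nonneg _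
  have hrp : Real.sqrt T * T ^ (1 / 40 : ℝ) * T ^ (19 / 40 : ℝ) = T := by
    rw [Real.sqrt_eq_rpow, ← Real.rpow_add hT0, ← Real.rpow_add hT0]
    norm_num
  have e2 : (N : ℝ) * N2 N b * ∑ s ∈ (ZT T).filter
      (fun s => ¬ (T + 2 * L ≤ s.im - r ∧ s.im + r ≤ 2 * T - 2 * L)), (mz s : ℝ) * Ag R lam T s ≤ ε / 8 * L * (T * N2 N b) := by
    calc _ ≤ T ^ (1 / 40 : ℝ) * N2 N b * (CA * (Real.sqrt T * L) * (12 * C * L ^ 2)) := by
          have h1 : 0 ≤ ∑ s ∈ (ZT T).filter (fun s => ¬ (T + 2 * L ≤ s.im - r ∧ s.im + r ≤ 2 * T - 2 * L)),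
              (mz s : ℝ) * Ag R lam T s := Finset.sum_nonneg fun s _ => mul_nonneg (Nat.cast_nonneg _) (Ag_nonneg _ _ _ _)
          gcongr
      _ = 1 / 2 * (24 * C * CA * L ^ 2) * (Real.sqrt T * T ^ (1 / 40 : ℝ)) * (L * N2 N b) := by ring
      _ ≤ 1 / 2 * (ε / 4 * T ^ (19 / 40 : ℝ)) * (Real.sqrt T * T ^ (1 / 40 : ℝ)) * (L * N2 N b) := by gcongr
      _ = ε / 8 * (Real.sqrt T * T ^ (1 / 40 : ℝ) * T ^ (19 / 40 : ℝ)) * (L * N2 N b) := by ring
      _ = ε / 8 * L * (T * N2 N b) := by rw [hrp]; ring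
  -- conclusion
  set S : ℝ := T * N2 N b with hS
  have hS00 : 0 ≤ S := by positivity
  have w := hev N hN₀ b
  set X := ∫ t in (T + 2 * L)..(2 * T - 2 * L), DW R lam H T t * ‖dp N b t‖ ^ 2 with hX
  have hXe : (∫ t in (T + 2 * L)..(2 * T - 2 * L), (∑ s ∈ (ZT T).filter (fun s => |s.im - t| ≤ r), (mz s : ℝ) * Sg R lam T s) *
      ‖dp N b t‖ ^ 2) = X := by
    rw [hX]
    congr 1
  rw [hXe] at core
  have hYe : ∑ s ∈ ZT T, (mz s : ℝ) * Sg R lam T s * ‖dp N b s.im‖ ^ 2 =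
      ∑ s ∈ ZT T, (mz s : ℝ) * ‖dp N b s.im‖ ^ 2 * Sg R lam T s := Finset.sum_congr rfl fun s _ => by ring
  rw [hYe] at core
  set Y := ∑ s ∈ ZT T, (mz s : ℝ) * ‖dp N b s.im‖ ^ 2 * Sg R lam T s with hY
  have core2 : |X - 2 * r * Y| ≤ 2 * r * (ε / 2 * L * S) := by
    refine core.trans ?_
    have h1 : 2 * (2 * r * (ε / 8 * L * S + ε / 8 * L * S)) = 2 * r * (ε / 2 * L * S) := by ring
    rw [← h1]
    gcongr
  have key : |L / (2 * H) * X - Y| ≤ ε / 2 * L * S := by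
    have f1 : L / (2 * H) * X - Y = L / (2 * H) * (X - 2 * r * Y) := by
      rw [hr]
      field_simp
    have f2 : ε / 2 * L * S = L / (2 * H) * (2 * r * (ε / 2 * L * S)) := by
      rw [hr]
      field_simp
    rw [f1, f2, abs_mul, abs_of_pos (show 0 < L / (2 * H) by positivity)]
    exact mul_le_mul_of_nonneg_left core2 (by positivity)
  have w2 : |L / (2 * H) * X - kap R lam * (L / (2 * Real.pi)) * S| ≤ ε / 6 * L * S := by
    have f1 : L / (2 * H) * X - kap R lam * (L / (2 * Real.pi)) * S =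
        L / (2 * H) * (X - kap R lam * (H / Real.pi) * S) := by
      field_simp
    rw [f1, abs_mul, abs_of_pos (show 0 < L / (2 * H) by positivity)]
    refine (mul_le_mul_of_nonneg_left w (by positivity)).trans ?_
    have f2 : L / (2 * H) * (ε * (H / Real.pi) * S) = ε / (2 * Real.pi) * (L * S) := by
      field_simp
    rw [f2]
    have f3 : ε / (2 * Real.pi) ≤ ε / 6 := by
      apply div_le_div_of_nonneg_left hε.le (by norm_num)
      linarith
    calc ε / (2 * Real.pi) * (L * S) ≤ ε / 6 * (L * S) := mul_le_mul_of_nonneg_right f3 (by positivity)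
      _ = _ := by ring
  have q1 := abs_le.1 key
  have q2 := abs_le.1 w2
  have q3 : 0 ≤ ε * L * S := by positivity
  rw [abs_le]
  constructor <;> linarith [q1.1, q1.2, q2.1, q2.2]

end Pool.Agent.Q16.UM3
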