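import Pool.Agent.Q16.UM.Bdy2
import Pool.Agent.Q61.UM.SAMPb

set_option autoImplicit false

/-! Project UM3 (helper97), job UM3-SPC, part A: the abstract inequality, the weighted second moment. -/

namespace Pool.Agent.Q16.UM3

open Filter Topology MeasureTheory Set
open Pool.Agent.Q97.UM Pool.Agent.Q210.UM

open Classical in
/-- `samp_core` with signed weights -/
theorem samp_signed {F : Finset ℂ} {m ω : ℂ → ℝ}
    (hωm : ∀ s ∈ F, |ω s| ≤ m s) {A B r M : ℝ} (hAB : A ≤ B) (hr : 0 < r) {f k : ℝ → ℝ} (hf : Continuous f)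
    (hk : Continuous k) (hf0 : ∀ t, 0 ≤ f t) (hfM : ∀ t, f t ≤ M) (hk0 : ∀ t, 0 ≤ k t)
    (hfk : ∀ x y : ℝ, |f y - f x| ≤ |∫ t in x..y, k t|) :
    |(∫ t in A..B, (∑ s ∈ F.filter (fun s => |s.im - t| ≤ r), ω s) * f t) - 2 * r * ∑ s ∈ F, ω s * f s.im| ≤
      2 * (2 * r * ((∫ t in A..B, (∑ s ∈ F.filter (fun s => |s.im - t| ≤ r), m s) * k t) +
        M * ∑ s ∈ F.filter (fun s => ¬ (A ≤ s.im - r ∧ s.im + r ≤ B)), m s)) := by
  have h1 := Pool.Agent.Q61.UM.samp_core (Finset.Subset.refl F) (m := m) (ω := fun s => max (ω s) 0)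
    (fun s _ => le_max_right _ _) (fun s hs => max_le ((le_abs_self _).trans (hωm s hs)) ((abs_nonneg _).trans (hωm s hs)))
    hAB hr hf hk hf0 hfM hk0 hfk (fun s hs _ _ => hs)
  have h2 := Pool.Agent.Q61.UM.samp_core (Finset.Subset.refl F) (m := m) (ω := fun s => max (-ω s) 0)
    (fun s _ => le_max_right _ _) (fun s hs => max_le ((neg_le_abs _).trans (hωm s hs)) ((abs_nonneg _).trans (hωm s hs)))
    hAB hr hf hk hf0 hfM hk0 hfk (fun s hs _ _ => hs)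
  have h3 : ∀ x : ℝ, max x 0 - max (-x) 0 = x := by
    intro x
    rcases le_total x 0 with h | h
    · rw [max_eq_right h, max_eq_left (by linarith)]; ring
    · rw [max_eq_left h, max_eq_right (by linarith)]; ring
  have e1 : (∫ t in A..B, (∑ s ∈ F.filter (fun s => |s.im - t| ≤ r), ω s) * f t) =
      (∫ t in A..B, (∑ s ∈ F.filter (fun s => |s.im - t| ≤ r), max (ω s) 0) * f t) -
      ∫ t in A..B, (∑ s ∈ F.filter (fun s => |s.im - t| ≤ r), max (-ω s) 0) * f t := by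
    rw [Pool.Agent.Q61.UM.win_sum hf F ω A B r, Pool.Agent.Q61.UM.win_sum hf F (fun s => max (ω s) 0) A B r,
      Pool.Agent.Q61.UM.win_sum hf F (fun s => max (-ω s) 0) A B r, ← Finset.sum_sub_distrib]
    refine Finset.sum_congr rfl fun s _ => ?_
    rw [← sub_mul, h3]
  have e2 : ∑ s ∈ F, ω s * f s.im = ∑ s ∈ F, max (ω s) 0 * f s.im - ∑ s ∈ F, max (-ω s) 0 * f s.im := by
    rw [← Finset.sum_sub_distrib]
    refine Finset.sum_congr rfl fun s _ => ?_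
    rw [← sub_mul, h3]
  rw [e1, e2]
  have q1 := abs_le.1 h1
  have q2 := abs_le.1 h2
  rw [abs_le]
  constructor <;> linarith [q1.1, q1.2, q2.1, q2.2]

/-- absolute version of `Sg` -/
noncomputable def Ag (R : ℝ → ℝ) (lam T : ℝ) (s : ℂ) : ℝ :=
  ∑ s' ∈ ZT T, (mz s' : ℝ) * |fR R (lam * Real.log T * (s.im - s'.im))|

theorem Ag_nonneg (R : ℝ → ℝ) (lam T : ℝ) (s : ℂ) : 0 ≤ Ag R lam T s :=
  Finset.sum_nonneg fun _ _ => by positivity

theorem Sg_le (R : ℝ → ℝ) (lam T : ℝ) (s : ℂ) : |Sg R lam T s| ≤ Ag R lam T s := by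
  unfold Sg Ag
  refine (Finset.abs_sum_le_sum_abs _ _).trans (Finset.sum_le_sum fun s' _ => ?_)
  rw [abs_mul, abs_of_nonneg (Nat.cast_nonneg (mz s'))]

open Classical in
/-- the absolute version of `DW` -/
noncomputable def GA (R : ℝ → ℝ) (lam H T t : ℝ) : ℝ :=
  ∑ s ∈ (ZT T).filter (fun s => |s.im - t| ≤ H / Real.log T), (mz s : ℝ) * Ag R lam T s

theorem GA_eq (R : ℝ → ℝ) (lam H T t : ℝ) : GA R lam H T t =
    ∑ s ∈ ZT T, ∑ s' ∈ ZT T, (mz s : ℝ) * (mz s' : ℝ) *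
      (iw H (Real.log T) t s * |fR R (lam * Real.log T * (s.im - s'.im))|) := by
  classical
  unfold GA Ag
  rw [Finset.sum_filter]
  refine Finset.sum_congr rfl fun s _ => ?_
  unfold iw
  split_ifs with h
  · rw [Finset.mul_sum]
    exact Finset.sum_congr rfl fun s' _ => by ring
  · symm
    apply Finset.sum_eq_zero
    intro s' _
    ring

theorem GA_nonneg (R : ℝ → ℝ) (lam H T t : ℝ) : 0 ≤ GA R lam H T t := by
  unfold GA
  exact Finset.sum_nonneg fun s _ => mul_nonneg (Nat.cast_nonneg _) (Ag_nonneg _ _ _ _)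

open Classical in
/-- the weight of a pair of cells -/
noncomputable def WG (H G : ℝ) (n n' : ℤ) : ℝ := (if |(n : ℝ)| ≤ H + 1 then 1 else 0) * (G * (1 / (1 + ((n : ℝ) - n') ^ 2)))

theorem WG_nonneg {H G : ℝ} (hG : 0 ≤ G) (n n' : ℤ) : 0 ≤ WG H G n n' := by
  unfold WG
  have h2 : (0 : ℝ) ≤ (if |(n : ℝ)| ≤ H + 1 then 1 else 0) := by split_ifs <;> norm_num
  positivity

theorem sum_WG {H G : ℝ} (hH : 1 ≤ H) (hG : 0 ≤ G) (M : ℤ) :
    ∑ n ∈ Finset.Icc (-M) M, ∑ n' ∈ Finset.Icc (-M) M, WG H G n n' ≤ (1 + H) ^ 2 / 4 * (32 * Z0) * (G * (8 * Z0)) := by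
  have hZ0 := Z0_nonneg
  set I := Finset.Icc (-M) M with hI
  have hpt : ∀ n, ∑ n' ∈ I, WG H G n n' ≤ ((1 + H) ^ 2 / 4 * (4 / (1 + |(|(n : ℝ)| - H)|) ^ 2)) * (G * (8 * Z0)) := by
    intro n
    unfold WG
    rw [← Finset.mul_sum, ← Finset.mul_sum]
    have h1 : (if |(n : ℝ)| ≤ H + 1 then (1 : ℝ) else 0) ≤ (1 + H) ^ 2 / 4 * (4 / (1 + |(|(n : ℝ)| - H)|) ^ 2) := by
      split_ifs with h
      · rw [div_mul_div_comm, mul_comm ((1 + H) ^ 2) 4, mul_div_mul_left _ _ (by norm_num : (4 : ℝ) ≠ 0),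
          le_div_iff₀ (by positivity), one_mul]
        apply pow_le_pow_left₀ (by positivity)
        have : |(|(n : ℝ)| - H)| ≤ H := by
          rw [abs_le]
          have := abs_nonneg (n : ℝ)
          constructor <;> linarith
        linarith
      · positivity
    have h2 : G * ∑ n' ∈ I, 1 / (1 + ((n : ℝ) - n') ^ 2) ≤ G * (8 * Z0) := mul_le_mul_of_nonneg_left (sum_inv I n) hG
    exact mul_le_mul h1 h2 (by positivity) (by positivity)
  calc ∑ n ∈ I, ∑ n' ∈ I, WG H G n n' ≤ ∑ n ∈ I, ((1 + H) ^ 2 / 4 * (4 / (1 + |(|(n : ℝ)| - H)|) ^ 2)) * (G * (8 * Z0)) :=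
        Finset.sum_le_sum fun n _ => hpt n
    _ = (1 + H) ^ 2 / 4 * (∑ n ∈ I, 4 / (1 + |(|(n : ℝ)| - H)|) ^ 2) * (G * (8 * Z0)) := by
        rw [← Finset.sum_mul, ← Finset.mul_sum]
    _ ≤ _ := by
        have := sum_A H M
        gcongr

theorem pairG_le {R : ℝ → ℝ} {D M lam : ℝ} (hR : Tst R D M) (hlam : 0 < lam) (hlam1 : lam ≤ 1) {T t H : ℝ} (hL : 0 < Real.log T)
    (s s' : ℂ) :
    iw H (Real.log T) t s * |fR R (lam * Real.log T * (s.im - s'.im))| ≤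
      WG H (4 * (M / lam ^ 2)) ⌊Real.log T * (s.im - t)⌋ ⌊Real.log T * (s'.im - t)⌋ := by
  classical
  set L := Real.log T with hLd
  set x := L * (s.im - t) with hx
  set x' := L * (s'.im - t) with hx'
  obtain ⟨hM, hf, _⟩ := fR_bd hR hlam hlam1 (x - x')
  have ef : lam * L * (s.im - s'.im) = lam * (x - x') := by rw [hx, hx']; ring
  rw [ef]
  have hml : 0 ≤ M / lam ^ 2 := by positivity
  have hfl : |fR R (lam * (x - x'))| ≤ 4 * (M / lam ^ 2) * (1 / (1 + (((⌊x⌋ : ℤ) : ℝ) - ((⌊x'⌋ : ℤ) : ℝ)) ^ 2)) := by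
    refine hf.trans ?_
    calc M / lam ^ 2 * (1 / (1 + (x - x') ^ 2)) ≤
          M / lam ^ 2 * (4 * (1 / (1 + (((⌊x⌋ : ℤ) : ℝ) - ((⌊x'⌋ : ℤ) : ℝ)) ^ 2))) :=
          mul_le_mul_of_nonneg_left (inv_pair x x') hml
      _ = _ := by ring
  have hfloor : |(|x| - |((⌊x⌋ : ℤ) : ℝ)|)| ≤ 1 := by
    refine (abs_abs_sub_abs_le_abs_sub x _).trans ?_
    have h4 := Int.floor_le x
    have h5 := Int.lt_floor_add_one x
    rw [abs_le]
    constructor <;> linarith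
  have hmain : iw H L t s ≤ (if |((⌊x⌋ : ℤ) : ℝ)| ≤ H + 1 then 1 else 0) := by
    unfold iw
    split_ifs with h1 h2 h2
    · exact le_rfl
    · exfalso
      apply h2
      have h3 : |x| ≤ H := by
        rw [hx, abs_mul, abs_of_pos hL, mul_comm]
        exact (le_div_iff₀ hL).1 h1
      linarith [(abs_le.1 hfloor).1]
    · norm_num
    · exact le_rfl
  unfold WG
  refine mul_le_mul hmain hfl (abs_nonneg _) ?_
  split_ifs <;> norm_num

theorem pairG_far {R : ℝ → ℝ} {D M lam : ℝ} (hR : Tst R D M) (hlam : 0 < lam) (hlam1 : lam ≤ 1) {T t H Q : ℝ} (hL : 0 < Real.log T)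
    (hQ : 1 ≤ Q) (hQH : 2 * H ≤ Q) (s s' : ℂ)
    (hss : Q < |Real.log T * (s.im - t)| ∨ Q < |Real.log T * (s'.im - t)|) :
    iw H (Real.log T) t s * |fR R (lam * Real.log T * (s.im - s'.im))| ≤ 4 * (M / lam ^ 2) / Q ^ 2 := by
  classical
  set L := Real.log T with hLd
  set x := L * (s.im - t) with hx
  set x' := L * (s'.im - t) with hx'
  obtain ⟨hM, hf, _⟩ := fR_bd hR hlam hlam1 (x - x')
  have ef : lam * L * (s.im - s'.im) = lam * (x - x') := by rw [hx, hx']; ring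
  rw [ef]
  have hml : 0 ≤ M / lam ^ 2 := by positivity
  by_cases hc : |s.im - t| ≤ H / L
  · have hc' : |x| ≤ H := by
      rw [hx, abs_mul, abs_of_pos hL, mul_comm]
      exact (le_div_iff₀ hL).1 hc
    have hx'Q : Q < |x'| := by
      rcases hss with h | h
      · exfalso
        linarith [abs_nonneg x]
      · exact h
    have k2 : Q / 2 ≤ |x - x'| := by
      have := abs_sub_abs_le_abs_sub x' x
      rw [abs_sub_comm] at this
      linarith
    have k3 : 1 / (1 + (x - x') ^ 2) ≤ 4 / Q ^ 2 := by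
      rw [div_le_div_iff₀ (by positivity) (by positivity)]
      have : (Q / 2) ^ 2 ≤ (x - x') ^ 2 := by
        rw [← sq_abs (x - x')]
        exact pow_le_pow_left₀ (by positivity) k2 2
      nlinarith [sq_nonneg (x - x')]
    unfold iw
    rw [if_pos hc, one_mul]
    refine hf.trans ?_
    calc M / lam ^ 2 * (1 / (1 + (x - x') ^ 2)) ≤ M / lam ^ 2 * (4 / Q ^ 2) := mul_le_mul_of_nonneg_left k3 hml
      _ = _ := by ring
  · unfold iw
    rw [if_neg hc, zero_mul]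
    positivity

theorem GA_bound {θ C₂ : ℝ} (hθ1 : θ ≤ 1 / 4) (hC₂ : 0 ≤ C₂) (hS : SDB θ C₂) (hMVL : S_MVL)
    {R : ℝ → ℝ} {D M lam : ℝ} (hR : Tst R D M) (hlam : 0 < lam) (hlam1 : lam ≤ 1) {H : ℝ} (hH : 1 ≤ H) :
    ∃ CH : ℝ, 0 < CH ∧ ∀ᶠ T : ℝ in atTop, ∀ N : ℕ, (N : ℝ) ≤ T ^ θ → ∀ b : ℕ → ℂ,
      ∫ t in (T + 2 * Real.log T)..(2 * T - 2 * Real.log T), GA R lam H T t * ‖dp N b t‖ ^ 2 ≤ CH * T * N2 N b := by
  classical
  obtain ⟨Cn, hCn, hcr⟩ := H370.NN_crude H370.good_zeta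
  have hM := (fR_bd hR hlam hlam1 0).1
  have hml : 0 ≤ M / lam ^ 2 := by positivity
  have hZ0 := Z0_nonneg
  refine ⟨(1 + H) ^ 2 / 4 * (32 * Z0) * (4 * (M / lam ^ 2) * (8 * Z0)) * C₂ + 2 * (4096 * (M / lam ^ 2) * Cn ^ 2) + 1,
    by positivity, ?_⟩
  unfold SDB at hS
  have e2 : ∀ᶠ T : ℝ in atTop, 4 * Real.log T ≤ T := by
    have h1 := Real.isLittleO_log_id_atTop.bound (by norm_num : (0 : ℝ) < 1 / 4)
    filter_upwards [h1, eventually_ge_atTop (1 : ℝ)] with T h2 h3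
    simp only [id, Real.norm_eq_abs] at h2
    rw [abs_of_nonneg (Real.log_nonneg h3), abs_of_nonneg (by linarith : 0 ≤ T)] at h2
    linarith
  filter_upwards [hS, e2, eventually_ge_atTop (1024 : ℝ), Real.tendsto_log_atTop.eventually_ge_atTop (H * (1 + H)),
    eventually_ge_atTop (32 * H)] with T hS1 hT2 hT hLH hTH N hN b
  have hT0 : 0 < T := by linarith
  set L : ℝ := Real.log T with hL
  have hL1 : 1 ≤ L := by nlinarith
  have hL0 : 0 < L := by linarith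
  have hV := V_cont Pool.Agent.Q84.UM.t_DPM N b
  have hV0 : ∀ s : ℝ, 0 ≤ ‖dp N b s‖ ^ 2 := fun s => sq_nonneg _
  have hNb := Pool.Agent.Q210.UM.N2_nonneg N b
  have hcount : ∑ s ∈ ZT T, (mz s : ℝ) ≤ Cn * (T * L) := by
    have h1 := hcr T (by linarith) (T + 1) (2 * T - 1) (by linarith) (by linarith)
    rw [H370.NN_eq H370.good_zeta (by linarith : (1 : ℝ) ≤ T + 1)] at h1
    push_cast at h1
    exact h1
  have hcount0 : 0 ≤ ∑ s ∈ ZT T, (mz s : ℝ) := Finset.sum_nonneg fun _ _ => Nat.cast_nonneg _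
  set Q : ℝ := T * L / 32 with hQ
  have hTL : T ≤ T * L := le_mul_of_one_le_right hT0.le hL1
  have hQ1 : 1 ≤ Q := by rw [hQ]; linarith
  have hHLL : H ≤ L := by nlinarith
  have hQH : 2 * H ≤ Q := by
    rw [hQ]
    nlinarith
  set Mz : ℤ := ⌈Q⌉ + 1 with hMz
  have hMz1 : Q + 1 ≤ Mz := by
    rw [hMz]
    push_cast
    linarith [Int.le_ceil Q]
  have hMz2 : (Mz : ℝ) ≤ Q + 2 := by
    rw [hMz]
    push_cast
    linarith [Int.ceil_lt_add_one Q]
  have hX : ∀ n ∈ Finset.Icc (-Mz) Mz, |((n : ℝ) / L)| ≤ T / 8 := by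
    intro n hn
    rw [Finset.mem_Icc] at hn
    have h2 : |(n : ℝ)| ≤ Mz := by
      rw [abs_le]
      have h3 : ((-Mz : ℤ) : ℝ) ≤ n := by exact_mod_cast hn.1
      have h4 : (n : ℝ) ≤ Mz := by exact_mod_cast hn.2
      push_cast at h3
      exact ⟨h3, h4⟩
    rw [abs_div, abs_of_pos hL0, div_le_iff₀ hL0]
    have : Q + 2 ≤ T / 8 * L := by
      rw [hQ]
      nlinarith
    linarith
  have hB : ∀ n ∈ Finset.Icc (-Mz) Mz, ∫ t in T..(2 * T), (nz (t + n / L) (1 / L) : ℝ) ^ 2 * ‖dp N b t‖ ^ 2 ≤ C₂ * T * N2 N b :=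
    fun n hn => hS1 N hN b (n / L) (hX n hn)
  have hΦ : ∀ t ∈ Icc (T + 2 * L) (2 * T - 2 * L), |GA R lam H T t| ≤
      ∑ n ∈ Finset.Icc (-Mz) Mz, ∑ n' ∈ Finset.Icc (-Mz) Mz, WG H (4 * (M / lam ^ 2)) n n' *
        ((nz (t + n / L) (1 / L) : ℝ) * (nz (t + n' / L) (1 / L) : ℝ)) + 4096 * (M / lam ^ 2) * Cn ^ 2 := by
    intro t _
    rw [abs_of_nonneg (GA_nonneg _ _ _ _ _), GA_eq]
    have h2 := cell (T := T) (t := t) (L := L) (E := 4 * (M / lam ^ 2) / Q ^ 2) (R := Q) (M := Mz) (by linarith) hL0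
      (fun s s' => iw H (Real.log T) t s * |fR R (lam * Real.log T * (s.im - s'.im))|)
      (WG H (4 * (M / lam ^ 2))) (WG_nonneg (by positivity)) (by positivity) hMz1
      (fun s _ s' _ _ _ => pairG_le hR hlam hlam1 hL0 s s')
      (fun s _ s' _ hss => pairG_far hR hlam hlam1 hL0 hQ1 hQH s s' hss)
    refine h2.trans ?_
    have h3 : 4 * (M / lam ^ 2) / Q ^ 2 * (∑ s ∈ ZT T, (mz s : ℝ)) ^ 2 ≤ 4096 * (M / lam ^ 2) * Cn ^ 2 := by
      calc 4 * (M / lam ^ 2) / Q ^ 2 * (∑ s ∈ ZT T, (mz s : ℝ)) ^ 2 ≤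
            4 * (M / lam ^ 2) / Q ^ 2 * (Cn * (T * L)) ^ 2 := by gcongr
        _ = 4096 * (M / lam ^ 2) * Cn ^ 2 := by
            rw [hQ]
            field_simp
            ring
    linarith
  have hfin := cell_bound (T := T) (a' := T + 2 * L) (b' := 2 * T - 2 * L) (L := L) (B := C₂ * T * N2 N b)
    (E' := 4096 * (M / lam ^ 2) * Cn ^ 2) (r := 1 / L) hT0 (by linarith) (by linarith) (by linarith) hV hV0 (by positivity)
    (Finset.Icc (-Mz) Mz) (WG H (4 * (M / lam ^ 2))) (WG_nonneg (by positivity)) hB hΦ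
  refine (le_abs_self _).trans (hfin.trans ?_)
  have hW := sum_WG (G := 4 * (M / lam ^ 2)) hH (by positivity) Mz
  have hVi : ∫ t in T..(2 * T), ‖dp N b t‖ ^ 2 ≤ 2 * T * N2 N b := by
    refine (hMVL T (by linarith) N ?_ b).2
    refine hN.trans ?_
    exact Real.rpow_le_rpow_of_exponent_le (by linarith) hθ1
  have hTN : 0 ≤ T * N2 N b := by positivity
  calc (∑ n ∈ Finset.Icc (-Mz) Mz, ∑ n' ∈ Finset.Icc (-Mz) Mz, WG H (4 * (M / lam ^ 2)) n n') * (C₂ * T * N2 N b) +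
        4096 * (M / lam ^ 2) * Cn ^ 2 * ∫ t in T..(2 * T), ‖dp N b t‖ ^ 2 ≤
        ((1 + H) ^ 2 / 4 * (32 * Z0) * (4 * (M / lam ^ 2) * (8 * Z0))) * (C₂ * T * N2 N b) +
        4096 * (M / lam ^ 2) * Cn ^ 2 * (2 * T * N2 N b) := by gcongr
    _ = ((1 + H) ^ 2 / 4 * (32 * Z0) * (4 * (M / lam ^ 2) * (8 * Z0)) * C₂ + 2 * (4096 * (M / lam ^ 2) * Cn ^ 2)) *
        (T * N2 N b) := by ring
    _ ≤ ((1 + H) ^ 2 / 4 * (32 * Z0) * (4 * (M / lam ^ 2) * (8 * Z0)) * C₂ + 2 * (4096 * (M / lam ^ 2) * Cn ^ 2) + 1) *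
        (T * N2 N b) := by
        apply mul_le_mul_of_nonneg_right _ hTN
        linarith
    _ = _ := by ring

theorem Ag_bound {R : ℝ → ℝ} {D M lam : ℝ} (hR : Tst R D M) (hlam : 0 < lam) (hlam1 : lam ≤ 1) :
    ∃ CA : ℝ, 0 < CA ∧ ∀ᶠ T : ℝ in atTop, ∀ s ∈ ZT T, Ag R lam T s ≤ CA * (Real.sqrt T * Real.log T) := by
  classical
  have hF := H370.good_zeta
  obtain ⟨Cn, hCn, hcr⟩ := H370.NN_crude hF
  obtain ⟨C, hC, hcnt⟩ := H370.zcount hF
  have hM := (fR_bd hR hlam hlam1 0).1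
  have hml : 0 ≤ M / lam ^ 2 := by positivity
  refine ⟨M / lam ^ 2 * (6 * C + Cn) + 1, by positivity, ?_⟩
  filter_upwards [eventually_ge_atTop (16 : ℝ), Real.tendsto_log_atTop.eventually_ge_atTop 1] with T hT hL1 s hs
  have hT0 : 0 < T := by linarith
  set L : ℝ := Real.log T with hL
  have hL0 : 0 < L := by linarith
  have hs1 := (H370.mem_Zf hF (by linarith : (1 : ℝ) ≤ T + 1)).1 hs
  obtain ⟨a1, a2, a3, a4, a5⟩ := hs1
  set q : ℝ := Real.sqrt T with hq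
  have hq2 : q ^ 2 = T := Real.sq_sqrt hT0.le
  have hq0 : 0 ≤ q := Real.sqrt_nonneg _
  have hq4 : 4 ≤ q := by
    rw [hq]
    apply Real.le_sqrt_of_sq_le
    linarith
  have hqT : q ≤ T / 4 := by nlinarith
  obtain ⟨k, hk1, hk2⟩ : ∃ k : ℕ, q + 1 ≤ k ∧ (k : ℝ) ≤ q + 2 := by
    refine ⟨⌈q + 1⌉₊, Nat.le_ceil _, ?_⟩
    have := (Nat.ceil_lt_add_one (show 0 ≤ q + 1 by linarith)).le
    linarith
  set a : ℝ := s.im - q - 1 with ha
  have ha2 : 2 ≤ a := by rw [ha]; linarith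
  have hcount : ∑ s ∈ ZT T, (mz s : ℝ) ≤ Cn * (T * L) := by
    have h1 := hcr T (by linarith) (T + 1) (2 * T - 1) (by linarith) (by linarith)
    rw [H370.NN_eq H370.good_zeta (by linarith : (1 : ℝ) ≤ T + 1)] at h1
    push_cast at h1
    exact h1
  have hwin : ∑ s' ∈ H370.Zf riemannZeta a (a + 2 * k), (mz s' : ℝ) ≤ 2 * q * (C * (2 * L)) := by
    have h1 := Pool.Agent.Q61.UM.NN_win hC hcnt ha2 k
    rw [H370.NN_eq hF (by linarith : (1 : ℝ) ≤ a)] at h1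
    push_cast at h1
    refine (show _ ≤ _ from h1).trans ?_
    have h3 : a + 2 * k ≤ 4 * T := by rw [ha]; linarith
    have h2 : Real.log (a + 2 * k) ≤ 2 * L := by
      have h5 : Real.log (a + 2 * k) ≤ Real.log (T ^ 2) := Real.log_le_log (by positivity) (by nlinarith)
      rw [Real.log_pow] at h5
      push_cast at h5
      exact h5
    have h4 : 0 ≤ Real.log (a + 2 * k) := Real.log_nonneg (by
      have : (0 : ℝ) ≤ k := Nat.cast_nonneg k
      linarith)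
    have h5 : (k : ℝ) ≤ 2 * q := by linarith
    gcongr
  have hpt : ∀ s' ∈ ZT T, (mz s' : ℝ) * |fR R (lam * Real.log T * (s.im - s'.im))| ≤
      (if s' ∈ H370.Zf riemannZeta a (a + 2 * k) then M / lam ^ 2 * (mz s' : ℝ) else 0) + M / lam ^ 2 / T * (mz s' : ℝ) := by
    intro s' hs'
    have hm : (0 : ℝ) ≤ mz s' := Nat.cast_nonneg _
    have ef : lam * Real.log T * (s.im - s'.im) = lam * (L * (s.im - s'.im)) := by rw [hL]; ring
    rw [ef]
    obtain ⟨_, hf1, hf2⟩ := fR_bd hR hlam hlam1 (L * (s.im - s'.im))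
    split_ifs with h
    · have h1 := mul_le_mul_of_nonneg_left hf2 hm
      have h2 : 0 ≤ M / lam ^ 2 / T * (mz s' : ℝ) := by positivity
      linarith
    · have hs2 := (H370.mem_Zf hF (by linarith : (1 : ℝ) ≤ T + 1)).1 hs'
      obtain ⟨b1, b2, b3, b4, b5⟩ := hs2
      have h3 : q < |s.im - s'.im| := by
        by_contra hcon
        rw [not_lt, abs_le] at hcon
        apply h
        rw [H370.mem_Zf hF (by linarith)]
        refine ⟨b1, b2, ?_, ?_, b5⟩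
        · rw [ha]; linarith [hcon.2]
        · rw [ha]; linarith [hcon.1]
      have h4 : T ≤ (L * (s.im - s'.im)) ^ 2 := by
        rw [mul_pow, ← sq_abs (s.im - s'.im)]
        have h5 : q ^ 2 ≤ |s.im - s'.im| ^ 2 := pow_le_pow_left₀ hq0 h3.le 2
        have h6 : 1 ≤ L ^ 2 := one_le_pow₀ hL1
        nlinarith
      have h5 : 1 / (1 + (L * (s.im - s'.im)) ^ 2) ≤ 1 / T := one_div_le_one_div_of_le hT0 (by linarith)
      rw [zero_add]
      calc (mz s' : ℝ) * |fR R (lam * (L * (s.im - s'.im)))| ≤ mz s' * (M / lam ^ 2 * (1 / T)) := by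
            apply mul_le_mul_of_nonneg_left _ hm
            exact hf1.trans (mul_le_mul_of_nonneg_left h5 hml)
        _ = _ := by ring
  unfold Ag
  refine (Finset.sum_le_sum hpt).trans ?_
  rw [Finset.sum_add_distrib, ← Finset.mul_sum]
  have h1 : ∑ s' ∈ ZT T, (if s' ∈ H370.Zf riemannZeta a (a + 2 * k) then M / lam ^ 2 * (mz s' : ℝ) else 0) ≤
      M / lam ^ 2 * (2 * q * (C * (2 * L))) := by
    rw [← Finset.sum_filter, ← Finset.mul_sum]
    apply mul_le_mul_of_nonneg_left _ hml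
    refine (Finset.sum_le_sum_of_subset_of_nonneg ?_ fun _ _ _ => Nat.cast_nonneg _).trans hwin
    intro x hx
    exact (Finset.mem_filter.1 hx).2
  have h2 : M / lam ^ 2 / T * ∑ s ∈ ZT T, (mz s : ℝ) ≤ M / lam ^ 2 * (Cn * L) := by
    calc M / lam ^ 2 / T * ∑ s ∈ ZT T, (mz s : ℝ) ≤ M / lam ^ 2 / T * (Cn * (T * L)) := by gcongr
      _ = _ := by field_simp
  have h3 : Cn * L ≤ Cn * (q * L) := by
    have : L ≤ q * L := by nlinarith
    gcongr
  calc _ ≤ M / lam ^ 2 * (2 * q * (C * (2 * L))) + M / lam ^ 2 * (Cn * (q * L)) := by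
        have := mul_le_mul_of_nonneg_left h3 hml
        linarith
    _ = M / lam ^ 2 * (4 * C + Cn) * (q * L) := by ring
    _ ≤ (M / lam ^ 2 * (6 * C + Cn) + 1) * (q * L) := by
        apply mul_le_mul_of_nonneg_right _ (by positivity)
        have h4 : M / lam ^ 2 * (4 * C + Cn) ≤ M / lam ^ 2 * (6 * C + Cn) := by gcongr; norm_num
        linarith

end Pool.Agent.Q16.UM3
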