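import Pool.Agent.Q16.UM.TailA

set_option autoImplicit false

/-! Project UM (helper97), job UM-TAIL. -/

namespace Pool.Agent.Q16.UM

open Filter Topology MeasureTheory Complex Set
open Pool.Agent.Q97.UM

theorem fm_diff (Pw : ℝ → ℝ) (Y : ℕ) : DifferentiableOn ℂ (fm Pw Y) {s : ℂ | s ≠ 1} := fun s hs =>
  ((differentiableAt_riemannZeta hs).mul (((dq_diff Y (et Pw Y)) s).pow 2)).differentiableWithinAt

/-- no zero off the line -/
theorem nobox {Pw : ℝ → ℝ} {Y : ℕ} {T A t : ℝ} (hT : 34 ≤ T) (ht : T ≤ t) (hA : 0 ≤ A)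
    (hs : ∀ s : ℂ, 1 / 2 + A / Real.log T ≤ s.re → s.re ≤ 5 / 4 → |s.im - t| ≤ 1 / Real.log T → ‖fm Pw Y s - 1‖ ≤ 1 / 2) :
    ∀ ρ ∈ Zw t (1 / Real.log T), |ρ.re - 1 / 2| < A / Real.log T := by
  have hlog : 1 < Real.log T := by
    rw [Real.lt_log_iff_exp_lt (by linarith)]
    have := Real.exp_one_lt_d9
    linarith
  have hz : ∀ s : ℂ, riemannZeta s = 0 → ‖fm Pw Y s - 1‖ ≤ 1 / 2 → False := by
    intro s h0 h1
    unfold fm at h1
    rw [h0, zero_mul, zero_sub, norm_neg, norm_one] at h1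
    norm_num at h1
  rintro ρ ⟨a0, a1, a2, a3⟩
  have a4 : 1 / Real.log T < 1 := by
    rw [div_lt_one (by linarith)]; exact hlog
  have a5 := abs_le.1 a3
  by_contra hcon
  rw [not_lt, le_abs] at hcon
  rcases hcon with h | h
  · exact hz ρ a0 (hs ρ (by linarith) (by linarith) a3)
  · have h6 := zsym a0 a1 a2 (by linarith [a5.1])
    refine hz _ h6 (hs _ ?_ ?_ ?_)
    · simp only [sub_re, one_re, conj_re]; linarith
    · simp only [sub_re, one_re, conj_re]; linarith
    · simp only [sub_im, one_im, conj_im]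
      rwa [zero_sub, neg_neg]

/-- Jensen's bound at a point -/
theorem jstep (hZF : ∀ t r : ℝ, (Zw t r).Finite) (hJEN : S_JEN) {Pw : ℝ → ℝ} {Y : ℕ} {T A t : ℝ} (hT : 34 ≤ T) (ht : T ≤ t)
    (hA : 1 ≤ A) (hAL : 14 * A ≤ Real.log T / 4)
    (hs : ∀ s : ℂ, 1 / 2 + A / Real.log T ≤ s.re → s.re ≤ 5 / 4 → |s.im - t| ≤ 1 / Real.log T → ‖fm Pw Y s - 1‖ ≤ 1 / 2) :
    (nz t (1 / Real.log T) : ℝ) * Real.log 2 ≤ Real.log 2 + 1 / 2 * Real.log (1 + 1 / (2 * Real.pi) *
      ∫ φ in (0 : ℝ)..(2 * Real.pi), ‖fm Pw Y (((1 / 2 + A / Real.log T : ℝ) : ℂ) + t * I + 2 * (3 * A / Real.log T : ℝ) * cexp (φ * I))‖ ^ 2) := by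
  have hlog : 1 < Real.log T := by
    rw [Real.lt_log_iff_exp_lt (by linarith)]
    have := Real.exp_one_lt_d9
    linarith
  set L := Real.log T with hL
  have hL0 : 0 < L := by linarith
  have hq : A / L ≤ 1 / 56 := by
    rw [div_le_iff₀ hL0]; linarith
  have hq0 : 0 < A / L := by positivity
  have h1L : 1 / L ≤ A / L := by gcongr
  have e3 : 3 * A / L = 3 * (A / L) := by ring
  set s₀ : ℂ := ((1 / 2 + A / L : ℝ) : ℂ) + t * I with hs₀
  have hre : s₀.re = 1 / 2 + A / L := by simp [s₀]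
  have him : s₀.im = t := by simp [s₀]
  rw [nz_cast hZF]
  have hj := hJEN (fun s => dq Y (et Pw Y) s ^ 2) s₀ (3 * A / L) ((dq_diff _ _).pow 2) (by positivity)
    (by rw [him, abs_of_pos (by linarith), e3]; linarith)
    (by
      have h1 := hs s₀ (by rw [hre]) (by rw [hre]; linarith) (by rw [him, sub_self, abs_zero]; positivity)
      have h2 : (1 : ℝ) ≤ ‖fm Pw Y s₀‖ + ‖fm Pw Y s₀ - 1‖ := by
        have := norm_sub_le (fm Pw Y s₀) (fm Pw Y s₀ - 1)
        simp only [sub_sub_cancel, norm_one] at this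
        exact this
      show 1 / 2 ≤ ‖fm Pw Y s₀‖
      linarith)
    (Zw t (1 / L)) (by
      intro ρ hρ
      have h1 := nobox hT ht (by linarith : 0 ≤ A) hs ρ hρ
      refine ⟨hρ.1, ?_⟩
      have h2 := abs_lt.1 h1
      have h3 : ‖ρ - s₀‖ ≤ |(ρ - s₀).re| + |(ρ - s₀).im| := Complex.norm_le_abs_re_add_abs_im _
      have h4 : |(ρ - s₀).re| ≤ 2 * (A / L) := by
        rw [sub_re, hre, abs_le]
        constructor <;> linarith [h2.1, h2.2]
      have h5 : |(ρ - s₀).im| ≤ 1 / L := by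
        rw [sub_im, him]
        exact hρ.2.2.2
      rw [e3]
      linarith) (hZF _ _)
  exact hj

/-- Chebyshev's inequality, pointwise form -/
theorem cheb_pt {k m : ℝ} (hm : 0 ≤ m) (h : k * Real.log 2 ≤ Real.log 2 + 1 / 2 * Real.log (1 + m)) :
    1 ≤ 4 * Real.exp (-(k * (2 * Real.log 2))) * (1 + m) := by
  have h1 : Real.exp (k * (2 * Real.log 2)) ≤ 4 * (1 + m) := by
    have h2 : k * (2 * Real.log 2) ≤ Real.log (4 * (1 + m)) := by
      rw [Real.log_mul (by norm_num) (by linarith), show (4 : ℝ) = 2 ^ 2 by norm_num, Real.log_pow]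
      push_cast
      linarith
    calc Real.exp (k * (2 * Real.log 2)) ≤ Real.exp (Real.log (4 * (1 + m))) := Real.exp_le_exp.2 h2
      _ = 4 * (1 + m) := Real.exp_log (by linarith)
  rw [Real.exp_neg]
  have h3 := Real.exp_pos (k * (2 * Real.log 2))
  rw [mul_assoc, mul_comm _ (1 + m), ← mul_assoc, ← div_eq_mul_inv, le_div_iff₀ h3]
  linarith

theorem tail : S_TAIL := by
  intro Pw q c₀ C₀ θ C hG hθ hθ1 hC hR hAL hDPM hMVL hTL hCVB hFE hMS hZF2 hSUP hJEN
  obtain ⟨c₁, C₁, hc₁, hC₁, hcvb⟩ := hCVB Pw q c₀ C₀ θ C hG hθ hθ1 hC hR hAL hDPM hMVL hTL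
  obtain ⟨C₂, hC₂, hms⟩ := hMS Pw q c₀ C₀ θ C hG hθ hθ1 hC hR hAL hDPM hMVL hTL hCVB hFE
  obtain ⟨c', C', hc', hC', hsup⟩ := hSUP c₁ hc₁
  obtain ⟨C₃, hC₃, hnz⟩ := nz_le
  obtain ⟨hZF, hZM, -⟩ := hZF2
  set B : ℝ := 224 * (C₃ + 1) with hB
  have hB1 : 224 ≤ B := by linarith
  have hB0 : 0 < B := by linarith
  set cF : ℝ := min (c' / B) 1 with hcF
  have hcF0 : 0 < cF := lt_min (by positivity) one_pos
  have hcF1 : cF ≤ 1 := min_le_right _ _
  have hcF2 : cF ≤ c' / B := min_le_left _ _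
  have hcF3 : cF ≤ c' := hcF2.trans (div_le_self hc'.le (by linarith))
  refine ⟨cF, C' * C₁ + 2 * Real.exp (cF * B) + 4 * (2 + C₂), hcF0, by positivity, ?_⟩
  filter_upwards [hcvb, hms, ev_sz hθ hθ1] with T h1 h2 h3
  obtain ⟨g1, g2, g3, g4, g5, g6⟩ := h3
  intro N hN b
  obtain ⟨n1, n2⟩ := g6 N hN
  have hT : 0 < T := by linarith
  have hTT : T ≤ 2 * T := by linarith
  have hlog : 1 < Real.log T := by
    rw [Real.lt_log_iff_exp_lt hT]
    have := Real.exp_one_lt_d9
    linarith
  set Y := ⌊T ^ θ⌋₊ with hY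
  set V : ℝ → ℝ := fun t => ‖dp N b t‖ ^ 2 with hV
  have hVc : Continuous V := (dp_contD hDPM N b).norm.pow 2
  have hV0 : ∀ t, 0 ≤ V t := fun t => by positivity
  have hN2 := N2_nonneg N b
  set W := T * N2 N b with hW
  have hW0 : 0 ≤ W := by positivity
  have n3 : (N : ℝ) ≤ T ^ (1 / 4 : ℝ) := n2.trans (Real.rpow_le_rpow (by linarith) (by linarith) (by norm_num))
  have hmv : ∫ t in T..(2 * T), V t ≤ 2 * W := by
    have := (hMVL T (by linarith) N n3 b).2
    rw [hW]
    linarith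
  have hVI : IntegrableOn V (Icc T (2 * T)) volume := hVc.continuousOn.integrableOn_compact isCompact_Icc
  have hsubI : ∀ S : Set ℝ, S ⊆ Icc T (2 * T) → ∫ t in S, V t ≤ 2 * W := by
    intro S hS
    refine (setIntegral_mono_set hVI (Eventually.of_forall hV0) hS.eventuallyLE).trans ?_
    rw [integral_Icc_eq_integral_Ioc, ← intervalIntegral.integral_of_le hTT]
    exact hmv
  have hRB : RB (fm Pw Y) V T c₁ (C₁ * W) := by
    intro σ y a1 a2 a3
    refine (h1 N hN b σ y a1 a2 a3).trans (le_of_eq ?_)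
    rw [hW]; ring
  have hsupT := hsup T (C₁ * W) (fm Pw Y) V (by linarith) (by positivity) (fm_diff Pw Y) hVc hV0 hRB
  have hCF1 : C' * C₁ * W + (2 * Real.exp (cF * B) + 4 * (2 + C₂)) * W =
      (C' * C₁ + 2 * Real.exp (cF * B) + 4 * (2 + C₂)) * W := by ring
  constructor
  · intro A hA0
    rcases lt_or_ge A 1 with hA | hA
    · refine (hsubI _ fun t ht => ⟨ht.1, ht.2.1⟩).trans ?_
      have h4 : 1 ≤ Real.exp (cF * B) * Real.exp (-(cF * A)) := by
        rw [← Real.exp_add]
        apply Real.one_le_exp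
        nlinarith
      calc 2 * W ≤ 2 * W * (Real.exp (cF * B) * Real.exp (-(cF * A))) := le_mul_of_one_le_right (by positivity) h4
        _ = (2 * Real.exp (cF * B)) * Real.exp (-(cF * A)) * W := by ring
        _ ≤ (C' * C₁ + 2 * Real.exp (cF * B) + 4 * (2 + C₂)) * Real.exp (-(cF * A)) * W := by
            have : 0 ≤ C' * C₁ := by positivity
            gcongr
            linarith
        _ = _ := by rw [hW]; ring
    · obtain ⟨E, hEm, hE1, hE2⟩ := hsupT A hA
      have h4 : ∫ t in {t : ℝ | T ≤ t ∧ t ≤ 2 * T ∧ ∃ ρ ∈ Zw t (1 / Real.log T), A / Real.log T ≤ |ρ.re - 1 / 2|}, V t ≤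
          ∫ t in {t : ℝ | T ≤ t ∧ t ≤ 2 * T ∧ t ∈ E}, V t := by
        apply setIntegral_mono_set (hVI.mono_set fun t ht => ⟨ht.1, ht.2.1⟩) (Eventually.of_forall hV0)
        apply HasSubset.Subset.eventuallyLE
        rintro t ⟨a1, a2, ρ, hρ, a3⟩
        refine ⟨a1, a2, ?_⟩
        by_contra hcon
        exact absurd a3 (not_le.2 (nobox g1 a1 (by linarith) (hE2 t a1 a2 hcon) ρ hρ))
      refine h4.trans (hE1.trans ?_)
      calc C' * (C₁ * W) * Real.exp (-(c' * A)) ≤ C' * (C₁ * W) * Real.exp (-(cF * A)) := by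
            gcongr
        _ = C' * C₁ * Real.exp (-(cF * A)) * W := by ring
        _ ≤ (C' * C₁ + 2 * Real.exp (cF * B) + 4 * (2 + C₂)) * Real.exp (-(cF * A)) * W := by
            have : 0 ≤ 2 * Real.exp (cF * B) + 4 * (2 + C₂) := by positivity
            gcongr
            linarith
        _ = _ := by rw [hW]; ring
  · intro K
    set S : Set ℝ := {t : ℝ | T ≤ t ∧ t ≤ 2 * T ∧ K ≤ nz t (1 / Real.log T)} with hS
    have hSI : S ⊆ Icc T (2 * T) := fun t ht => ⟨ht.1, ht.2.1⟩
    have hSm : MeasurableSet S := by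
      have : S = Icc T (2 * T) ∩ {t : ℝ | K ≤ nz t (1 / Real.log T)} := by
        ext t
        simp only [hS, mem_ofPred_eq, mem_inter_iff, mem_Icc]
        tauto
      rw [this]
      exact measurableSet_Icc.inter (hZM _ _)
    rcases lt_or_ge (2 * (C₃ + 1) * Real.log T) (K : ℝ) with hK | hK
    · have hSe : S = ∅ := by
        rw [eq_empty_iff_forall_notMem]
        rintro t ⟨a1, a2, a3⟩
        have h4 := hnz T t (by linarith) a1 a2
        have h5 : (K : ℝ) ≤ nz t (1 / Real.log T) := by exact_mod_cast a3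
        nlinarith
      rw [hSe]
      simp only [Measure.restrict_empty, integral_zero_measure]
      positivity
    rcases lt_or_ge (K : ℝ) B with hKB | hKB
    · refine (hsubI _ hSI).trans ?_
      have h4 : 1 ≤ Real.exp (cF * B) * Real.exp (-(cF * K)) := by
        rw [← Real.exp_add]
        apply Real.one_le_exp
        nlinarith
      calc 2 * W ≤ 2 * W * (Real.exp (cF * B) * Real.exp (-(cF * K))) := le_mul_of_one_le_right (by positivity) h4
        _ = (2 * Real.exp (cF * B)) * Real.exp (-(cF * K)) * W := by ring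
        _ ≤ (C' * C₁ + 2 * Real.exp (cF * B) + 4 * (2 + C₂)) * Real.exp (-(cF * K)) * W := by
            have : 0 ≤ C' * C₁ := by positivity
            gcongr
            linarith
        _ = _ := by rw [hW]; ring
    -- the main case
    set A : ℝ := K / B with hA
    have hA1 : 1 ≤ A := by rw [hA, le_div_iff₀ hB0]; linarith
    have hAL : 14 * A ≤ Real.log T / 4 := by
      have h4 : A ≤ 2 * (C₃ + 1) * Real.log T / B := by rw [hA]; gcongr
      have h5 : 2 * (C₃ + 1) * Real.log T / B = Real.log T / 112 := by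
        rw [hB]
        field_simp
        norm_num
      rw [h5] at h4
      linarith
    have hL0 : 0 < Real.log T := by linarith
    have hq : A / Real.log T ≤ 1 / 56 := by
      rw [div_le_iff₀ hL0]; linarith
    have hq0 : 0 < A / Real.log T := by positivity
    obtain ⟨E, hEm, hE1, hE2⟩ := hsupT A hA1
    set a := 1 / 2 + A / Real.log T with ha
    set r := 3 * A / Real.log T with hr
    have hr3 : r = 3 * (A / Real.log T) := by rw [hr]; ring
    have hhc : ContinuousOn (fun s : ℂ => ‖fm Pw Y s‖ ^ 2) {s : ℂ | s ≠ 1} := ((fm_diff Pw Y).continuousOn.norm).pow 2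
    have hBd : ∀ φ : ℝ, ∫ t in T..(2 * T), V t * ‖fm Pw Y (((a + 2 * r * Real.cos φ : ℝ) : ℂ) +
        (t + 2 * r * Real.sin φ : ℝ) * I)‖ ^ 2 ≤ C₂ * Real.exp (28 * A) * W := by
      intro φ
      have c1 := Real.neg_one_le_cos φ
      have c2 := Real.cos_le_one φ
      have c3 := Real.neg_one_le_sin φ
      have c4 := Real.sin_le_one φ
      have hr0 : 0 ≤ r := by positivity
      have d1 : 2 * r * Real.cos φ ≤ 2 * r := by nlinarith
      have d2 : -(2 * r) ≤ 2 * r * Real.cos φ := by nlinarith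
      have d3 : 2 * r * Real.sin φ ≤ 2 * r := by nlinarith
      have d4 : -(2 * r) ≤ 2 * r * Real.sin φ := by nlinarith
      have h5 := h2 N hN b (a + 2 * r * Real.cos φ) (2 * r * Real.sin φ) (by linarith) (by linarith)
        (by rw [abs_le]; constructor <;> linarith)
      refine h5.trans ?_
      have h6 : |a + 2 * r * Real.cos φ - 1 / 2| * Real.log T ≤ 7 * A := by
        have h7 : |a + 2 * r * Real.cos φ - 1 / 2| ≤ 7 * (A / Real.log T) := by
          rw [abs_le]; constructor <;> linarith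
        calc |a + 2 * r * Real.cos φ - 1 / 2| * Real.log T ≤ 7 * (A / Real.log T) * Real.log T := by gcongr
          _ = 7 * A := by field_simp
      have h8 : Real.exp (4 * |a + 2 * r * Real.cos φ - 1 / 2| * Real.log T) ≤ Real.exp (28 * A) :=
        Real.exp_le_exp.2 (by linarith)
      calc C₂ * T * Real.exp (4 * |a + 2 * r * Real.cos φ - 1 / 2| * Real.log T) * N2 N b ≤
            C₂ * T * Real.exp (28 * A) * N2 N b :=
            mul_le_mul_of_nonneg_right (mul_le_mul_of_nonneg_left h8 (by positivity)) hN2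
        _ = _ := by rw [hW]; ring
    obtain ⟨f1, f2⟩ := fub (V := V) (h := fun s : ℂ => ‖fm Pw Y s‖ ^ 2) (a := a) (r := r) (T := T) hVc hhc (by positivity)
      (by linarith) hBd
    set M : ℝ → ℝ := fun t => 1 / (2 * Real.pi) * ∫ φ in (0 : ℝ)..(2 * Real.pi),
      ‖fm Pw Y ((a : ℂ) + t * I + 2 * r * cexp (φ * I))‖ ^ 2 with hM
    have hM0 : ∀ t, 0 ≤ M t := fun t => mul_nonneg (by positivity)
      (intervalIntegral.integral_nonneg (by positivity) fun φ _ => by positivity)
    have hVMI : IntegrableOn (fun t => V t * M t) (Icc T (2 * T)) volume := by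
      rw [integrableOn_Icc_iff_integrableOn_Ioc]
      exact (intervalIntegrable_iff_integrableOn_Ioc_of_le hTT).1 f1
    set κ := 4 * Real.exp (-((K : ℝ) * (2 * Real.log 2))) with hκ
    have hκ0 : 0 ≤ κ := by positivity
    have hI2 : IntegrableOn (fun t => κ * (V t + V t * M t)) (Icc T (2 * T)) volume := (hVI.add hVMI).const_mul κ
    have hP1 : ∫ t in S \ E, V t ≤ κ * (2 * W + C₂ * Real.exp (28 * A) * W) := by
      have hsub : S \ E ⊆ Icc T (2 * T) := diff_subset.trans hSI
      calc ∫ t in S \ E, V t ≤ ∫ t in S \ E, κ * (V t + V t * M t) := by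
            apply setIntegral_mono_on (hVI.mono_set hsub) (hI2.mono_set hsub) (hSm.diff hEm)
            rintro t ⟨⟨a1, a2, a3⟩, a4⟩
            have h5 := jstep hZF hJEN g1 a1 hA1 hAL (hE2 t a1 a2 a4)
            have h6 : (K : ℝ) * Real.log 2 ≤ Real.log 2 + 1 / 2 * Real.log (1 + M t) := by
              refine le_trans ?_ h5
              have h7 : (K : ℝ) ≤ nz t (1 / Real.log T) := by exact_mod_cast a3
              exact mul_le_mul_of_nonneg_right h7 (Real.log_nonneg (by norm_num))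
            have h7 := cheb_pt (hM0 t) h6
            calc V t ≤ V t * (κ * (1 + M t)) := le_mul_of_one_le_right (hV0 t) h7
              _ = κ * (V t + V t * M t) := by ring
        _ ≤ ∫ t in Icc T (2 * T), κ * (V t + V t * M t) := by
            apply setIntegral_mono_set hI2 (Eventually.of_forall fun t => ?_) hsub.eventuallyLE
            exact mul_nonneg hκ0 (add_nonneg (hV0 t) (mul_nonneg (hV0 t) (hM0 t)))
        _ = κ * ((∫ t in T..(2 * T), V t) + ∫ t in T..(2 * T), V t * M t) := by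
            rw [integral_const_mul, integral_add hVI hVMI, integral_Icc_eq_integral_Ioc, integral_Icc_eq_integral_Ioc,
              ← intervalIntegral.integral_of_le hTT, ← intervalIntegral.integral_of_le hTT]
        _ ≤ κ * (2 * W + C₂ * Real.exp (28 * A) * W) := by gcongr
    have hP2 : ∫ t in S ∩ E, V t ≤ C' * (C₁ * W) * Real.exp (-(c' * A)) := by
      refine le_trans ?_ hE1
      apply setIntegral_mono_set (hVI.mono_set fun t ht => ⟨ht.1, ht.2.1⟩) (Eventually.of_forall hV0)
      apply HasSubset.Subset.eventuallyLE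
      rintro t ⟨⟨a1, a2, a3⟩, a4⟩
      exact ⟨a1, a2, a4⟩
    have hsplit := integral_inter_add_diff (μ := volume) (f := V) (s := S) hEm (hVI.mono_set hSI)
    rw [← hsplit]
    have hK0 : (0 : ℝ) ≤ K := Nat.cast_nonneg K
    have hb1 : Real.exp (-(c' * A)) ≤ Real.exp (-(cF * K)) := by
      apply Real.exp_le_exp.2
      have : cF * K ≤ c' * A := by
        rw [hA, mul_div_assoc']
        calc cF * K ≤ c' / B * K := by gcongr
          _ = c' * K / B := by ring
      linarith
    have hb2 : κ * (2 * W + C₂ * Real.exp (28 * A) * W) ≤ 4 * (2 + C₂) * Real.exp (-(cF * K)) * W := by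
      have h5 : 28 * A ≤ K / 4 := by
        rw [hA, mul_div_assoc', div_le_iff₀ hB0]
        nlinarith
      have h6 : Real.exp (28 * A) ≤ Real.exp (K / 4) := Real.exp_le_exp.2 h5
      have h7 : 1 ≤ Real.exp ((K : ℝ) / 4) := Real.one_le_exp (by positivity)
      calc κ * (2 * W + C₂ * Real.exp (28 * A) * W) ≤ κ * (2 * W * Real.exp (K / 4) + C₂ * Real.exp (K / 4) * W) := by
            have h8 : 2 * W ≤ 2 * W * Real.exp (K / 4) := le_mul_of_one_le_right (by positivity) h7
            gcongr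
        _ = 4 * (2 + C₂) * (Real.exp (-((K : ℝ) * (2 * Real.log 2))) * Real.exp (K / 4)) * W := by rw [hκ]; ring
        _ ≤ 4 * (2 + C₂) * Real.exp (-(cF * K)) * W := by
            rw [← Real.exp_add]
            have h9 := Real.log_two_gt_d9
            have : -((K : ℝ) * (2 * Real.log 2)) + K / 4 ≤ -(cF * K) := by nlinarith
            gcongr
    calc (∫ t in S ∩ E, V t) + ∫ t in S \ E, V t ≤ C' * (C₁ * W) * Real.exp (-(c' * A)) +
          κ * (2 * W + C₂ * Real.exp (28 * A) * W) := add_le_add hP2 hP1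
      _ ≤ C' * (C₁ * W) * Real.exp (-(cF * K)) + 4 * (2 + C₂) * Real.exp (-(cF * K)) * W := by
          have : 0 ≤ C' * (C₁ * W) := by positivity
          exact add_le_add (mul_le_mul_of_nonneg_left hb1 this) hb2
      _ = (C' * C₁ + 4 * (2 + C₂)) * Real.exp (-(cF * K)) * W := by ring
      _ ≤ (C' * C₁ + 2 * Real.exp (cF * B) + 4 * (2 + C₂)) * Real.exp (-(cF * K)) * W := by
          have : 0 ≤ 2 * Real.exp (cF * B) := by positivity
          gcongr
          linarith
      _ = _ := by rw [hW]; ring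

end Pool.Agent.Q16.UM
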