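import Pool.Agent.Q16.UM.CvMs
import Pool.Agent.H370R2.DirGood
import Pool.Agent.H370R2.Local

set_option autoImplicit false

/-! Project UM (helper97), job UM-TAIL, preparations: Fubini on circles, the local count of the zeros. -/

namespace Pool.Agent.Q16.UM

open Filter Topology MeasureTheory Complex Set
open Pool.Agent.Q97.UM

/-- Fubini for circle means -/
theorem fub {V : ℝ → ℝ} {h : ℂ → ℝ} (hV : Continuous V) (hh : ContinuousOn h {s : ℂ | s ≠ 1}) {a r T B : ℝ} (hr : 0 ≤ r)
    (hrT : 2 * r < T)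
    (hB : ∀ φ : ℝ, ∫ t in T..(2 * T), V t * h (((a + 2 * r * Real.cos φ : ℝ) : ℂ) + (t + 2 * r * Real.sin φ : ℝ) * I) ≤ B) :
    IntervalIntegrable (fun t : ℝ => V t * (1 / (2 * Real.pi) * ∫ φ in (0 : ℝ)..(2 * Real.pi),
      h ((a : ℂ) + t * I + 2 * r * cexp (φ * I)))) volume T (2 * T) ∧
    ∫ t in T..(2 * T), V t * (1 / (2 * Real.pi) * ∫ φ in (0 : ℝ)..(2 * Real.pi),
      h ((a : ℂ) + t * I + 2 * r * cexp (φ * I))) ≤ B := by
  have hT : 0 < T := by linarith
  have hTT : T ≤ 2 * T := by linarith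
  have hpi : (0 : ℝ) ≤ 2 * Real.pi := by positivity
  have hpt : ∀ t φ : ℝ, (a : ℂ) + t * I + 2 * r * cexp (φ * I) =
      ((a + 2 * r * Real.cos φ : ℝ) : ℂ) + (t + 2 * r * Real.sin φ : ℝ) * I := by
    intro t φ
    rw [Complex.exp_mul_I]
    push_cast
    ring
  set F : ℝ → ℝ → ℝ := fun t φ => V t * h ((a : ℂ) + t * I + 2 * r * cexp (φ * I)) with hF
  have hFc : ContinuousOn (Function.uncurry F) (Icc T (2 * T) ×ˢ Icc 0 (2 * Real.pi)) := by
    rw [hF]
    unfold Function.uncurry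
    apply ContinuousOn.mul
    · exact (hV.comp continuous_fst).continuousOn
    · apply hh.comp
      · apply Continuous.continuousOn
        fun_prop
      · rintro ⟨t, φ⟩ ⟨ht, -⟩
        simp only [mem_Icc] at ht
        show (a : ℂ) + t * I + 2 * r * cexp (φ * I) ≠ 1
        rw [hpt]
        intro h0
        have h1 := congrArg Complex.im h0
        simp only [Complex.add_im, Complex.ofReal_im, Complex.mul_im, Complex.ofReal_re, Complex.I_re, Complex.I_im,
          Complex.one_im] at h1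
        have h2 := Real.neg_one_le_sin φ
        nlinarith
  have hFi : Integrable (Function.uncurry F) ((volume.restrict (Ioc T (2 * T))).prod (volume.restrict (Ioc 0 (2 * Real.pi)))) := by
    rw [Measure.prod_restrict]
    have h1 : IntegrableOn (Function.uncurry F) (Icc T (2 * T) ×ˢ Icc 0 (2 * Real.pi)) (volume.prod volume) :=
      hFc.integrableOn_compact (isCompact_Icc.prod isCompact_Icc)
    exact h1.mono_set (prod_mono Ioc_subset_Icc_self Ioc_subset_Icc_self)
  have e1 : ∀ t : ℝ, V t * (1 / (2 * Real.pi) * ∫ φ in (0 : ℝ)..(2 * Real.pi), h ((a : ℂ) + t * I + 2 * r * cexp (φ * I))) =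
      1 / (2 * Real.pi) * ∫ φ in Ioc (0 : ℝ) (2 * Real.pi), F t φ := by
    intro t
    rw [intervalIntegral.integral_of_le hpi, hF]
    simp only
    rw [integral_const_mul]
    ring
  have hint : IntegrableOn (fun t : ℝ => V t * (1 / (2 * Real.pi) * ∫ φ in (0 : ℝ)..(2 * Real.pi),
      h ((a : ℂ) + t * I + 2 * r * cexp (φ * I)))) (Ioc T (2 * T)) volume := by
    simp_rw [e1]
    exact (hFi.integral_prod_left).const_mul _
  refine ⟨(intervalIntegrable_iff_integrableOn_Ioc_of_le hTT).2 hint, ?_⟩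
  rw [intervalIntegral.integral_of_le hTT]
  simp_rw [e1]
  rw [integral_const_mul, integral_integral_swap hFi]
  have h2 : ∫ φ in Ioc (0 : ℝ) (2 * Real.pi), ∫ t in Ioc T (2 * T), F t φ ≤ ∫ φ in Ioc (0 : ℝ) (2 * Real.pi), B := by
    apply integral_mono hFi.integral_prod_right (integrable_const _)
    intro φ
    have := hB φ
    rw [intervalIntegral.integral_of_le hTT] at this
    simp only [hF]
    simp_rw [hpt]
    exact this
  have h3 : ∫ φ in Ioc (0 : ℝ) (2 * Real.pi), B = 2 * Real.pi * B := by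
    simp [hpi]
  rw [h3] at h2
  calc 1 / (2 * Real.pi) * ∫ φ in Ioc (0 : ℝ) (2 * Real.pi), ∫ t in Ioc T (2 * T), F t φ
      ≤ 1 / (2 * Real.pi) * (2 * Real.pi * B) := mul_le_mul_of_nonneg_left h2 (by positivity)
    _ = B := by
        have := Real.pi_pos
        field_simp

/-- the local count -/
theorem nz_le : ∃ C : ℝ, 0 < C ∧ ∀ T t : ℝ, 16 ≤ T → T ≤ t → t ≤ 2 * T → (nz t (1 / Real.log T) : ℝ) ≤ C * Real.log T := by
  obtain ⟨C, hC, h⟩ := H370.zcount H370.good_zeta
  refine ⟨2 * C, by positivity, fun T t hT h1 h2 => ?_⟩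
  have hlog : 1 < Real.log T := by
    rw [Real.lt_log_iff_exp_lt (by linarith)]
    have := Real.exp_one_lt_d9
    linarith
  have h3 := h t (by linarith)
  have hfin := H370.zset_finite H370.good_zeta (t - 1) (t + 1) (by linarith)
  have hsub : Zw t (1 / Real.log T) ⊆ H370.zset riemannZeta (t - 1) (t + 1) := by
    rintro ρ ⟨a0, a1, a2, a3⟩
    have a4 : 1 / Real.log T < 1 := by
      rw [div_lt_one (by linarith)]; exact hlog
    have a5 := abs_le.1 a3
    exact ⟨a1, a2, by linarith [a5.1], by linarith [a5.2], a0⟩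
  have hfinZ := hfin.subset hsub
  have h4 : nz t (1 / Real.log T) ≤ H370.NN riemannZeta (t - 1) (t + 1) := by
    unfold nz H370.NN H370.mult
    rw [finsum_mem_eq_finite_toFinset_sum _ hfinZ, finsum_mem_eq_finite_toFinset_sum _ hfin]
    apply Finset.sum_le_sum_of_subset
    intro x hx
    rw [Finite.mem_toFinset] at hx ⊢
    exact hsub hx
  have h5 : Real.log t ≤ 2 * Real.log T := by
    calc Real.log t ≤ Real.log (T ^ 2) := Real.log_le_log (by linarith) (by nlinarith)
      _ = 2 * Real.log T := by rw [Real.log_pow]; norm_num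
  calc (nz t (1 / Real.log T) : ℝ) ≤ (H370.NN riemannZeta (t - 1) (t + 1) : ℝ) := by exact_mod_cast h4
    _ ≤ C * Real.log t := h3
    _ ≤ C * (2 * Real.log T) := by gcongr
    _ = 2 * C * Real.log T := by ring

/-- symmetry of the zeros -/
theorem zsym {ρ : ℂ} (h0 : riemannZeta ρ = 0) (h1 : 0 < ρ.re) (h2 : ρ.re < 1) (h3 : 1 ≤ ρ.im) :
    riemannZeta (1 - (starRingEnd ℂ) ρ) = 0 := by
  have hs := H370.good_zeta.symm ρ h1 h2 h3
  have ha : AnalyticAt ℂ riemannZeta ρ := H370.good_zeta.an ρ (by linarith)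
  have hb : AnalyticAt ℂ riemannZeta (1 - (starRingEnd ℂ) ρ) := H370.good_zeta.an _ (by simp; linarith)
  have h4 : analyticOrderAt riemannZeta ρ ≠ 0 := ha.analyticOrderAt_ne_zero.2 h0
  rw [← hs] at h4
  exact hb.analyticOrderAt_ne_zero.1 h4

/-- the casted count -/
theorem nz_cast (hfin : ∀ t r : ℝ, (Zw t r).Finite) (t r : ℝ) :
    ((nz t r : ℕ) : ℝ) = ∑ᶠ ρ ∈ Zw t r, (analyticOrderNatAt riemannZeta ρ : ℝ) := by
  unfold nz
  rw [finsum_mem_eq_finite_toFinset_sum _ (hfin t r), finsum_mem_eq_finite_toFinset_sum _ (hfin t r)]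
  push_cast
  rfl

end Pool.Agent.Q16.UM
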