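import Pool.Agent.Q16.UM.Tlb

set_option autoImplicit false

/-! # Project UM, jobs UM-CVB and UM-MS: the line `Re s = 3`, the window -/

namespace Pool.Agent.Q16.UM

open Filter Topology MeasureTheory Complex
open Pool.Agent.Q97.UM

noncomputable section

theorem sum_sq_le (S : Finset ℕ) : ∑ n ∈ S, 1 / (n : ℝ) ^ 2 ≤ 2 := by
  have h1 := sum_le_hasSum S (fun n _ => by positivity) hasSum_zeta_two
  have h2 : Real.pi ^ 2 / 6 ≤ 2 := by
    have := Real.pi_lt_d2
    have := Real.pi_pos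
    nlinarith
  exact h1.trans h2

theorem inv_sq_summable : Summable fun n : ℕ => 1 / (n : ℝ) ^ 2 := hasSum_zeta_two.summable

theorem tsum_sq_le : ∑' n : ℕ, 1 / (n : ℝ) ^ 2 ≤ 2 := by
  rw [hasSum_zeta_two.tsum_eq]
  have := Real.pi_lt_d2
  have := Real.pi_pos
  nlinarith

/-- polynomials on the line 3 -/
theorem dq_three {M : ℕ} {c : ℕ → ℂ} {E : ℝ} (hE : 0 ≤ E) (hc : ∀ n ∈ Finset.Icc 1 M, ‖c n‖ ≤ E) {s : ℂ} (hs : s.re = 3) :
    ‖dq M c s‖ ≤ 2 * E := by
  unfold dq
  refine (norm_sum_le _ _).trans ?_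
  have h1 : ∀ n ∈ Finset.Icc 1 M, ‖c n * (n : ℂ) ^ (-s)‖ ≤ E * (1 / (n : ℝ) ^ 2) := by
    intro n hn
    have hn1 := (Finset.mem_Icc.1 hn).1
    have hn0 : (1 : ℝ) ≤ n := by exact_mod_cast hn1
    rw [norm_mul, norm_cpow hn1, hs]
    have h2 : (n : ℝ) ^ (-(3 : ℝ)) ≤ 1 / (n : ℝ) ^ 2 := by
      rw [← Real.rpow_natCast (n : ℝ) 2, one_div, ← Real.rpow_neg (by positivity)]
      apply Real.rpow_le_rpow_of_exponent_le hn0
      push_cast
      norm_num
    exact mul_le_mul (hc n hn) h2 (by positivity) hE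
  refine (Finset.sum_le_sum h1).trans ?_
  rw [← Finset.mul_sum]
  have := sum_sq_le (Finset.Icc 1 M)
  nlinarith

/-- L-series with a bound of the coefficients on the line 3 -/
theorem L_three {g : ℕ → ℂ} {E : ℝ} (hE : 0 ≤ E) (hg : ∀ n : ℕ, 1 ≤ n → ‖g n‖ ≤ E * n) {s : ℂ} (hs : s.re = 3) :
    ‖LSeries g s‖ ≤ 2 * E := by
  unfold LSeries
  have h1 : ∀ n : ℕ, ‖LSeries.term g s n‖ ≤ E * (1 / (n : ℝ) ^ 2) := by
    intro n
    rcases Nat.eq_zero_or_pos n with rfl | hn
    · simp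
    · have hn0 : (0 : ℝ) < n := by exact_mod_cast hn
      rw [LSeries.norm_term_eq, if_neg (by omega), hs]
      have h3 : (n : ℝ) ^ (3 : ℝ) = n * (n : ℝ) ^ 2 := by
        rw [show (3 : ℝ) = ((3 : ℕ) : ℝ) by norm_num, Real.rpow_natCast]
        ring
      rw [h3, div_le_iff₀ (by positivity)]
      refine (hg n hn).trans (le_of_eq ?_)
      field_simp
  have h2 : Summable fun n : ℕ => E * (1 / (n : ℝ) ^ 2) := inv_sq_summable.mul_left E
  refine (tsum_of_norm_bounded h2.hasSum h1).trans ?_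
  rw [tsum_mul_left]
  have := tsum_sq_le
  nlinarith

theorem zeta_three {s : ℂ} (hs : s.re = 3) : ‖riemannZeta s‖ ≤ 2 := by
  rw [← LSeries_one_eq_riemannZeta (by rw [hs]; norm_num)]
  have := L_three (g := 1) (E := 1) zero_le_one (fun n hn => by
    simp
    exact_mod_cast hn) hs
  linarith

theorem al_mul {s : ℂ} (hs : 1 < s.re) (hAL : S_AL) : riemannZeta s * LSeries (fun n => (al n : ℂ)) s ^ 2 = 1 := by
  have hsum : LSeriesSummable (fun n => (al n : ℂ)) s :=
    LSeriesSummable_of_bounded_of_one_lt_re (m := 1) (fun n _ => by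
      rw [norm_real, Real.norm_eq_abs]
      exact hAL.2.2 n) hs
  have h1 : LSeries (fun n => (al n : ℂ)) s ^ 2 = LSeries (fun n => ((ArithmeticFunction.moebius n : ℤ) : ℂ)) s := by
    rw [sq, ← LSeries_convolution' hsum hsum]
    apply LSeries_congr
    intro n hn
    rw [LSeries.convolution_def]
    have := hAL.1 n (by omega)
    have h2 : ((∑ p ∈ n.divisorsAntidiagonal, al p.1 * al p.2 : ℝ) : ℂ) = ((ArithmeticFunction.moebius n : ℝ) : ℂ) := by
      rw [this]
    push_cast at h2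
    simp only
    rw [h2]
  rw [h1, ← ArithmeticFunction.LSeries_zeta_eq_riemannZeta hs]
  exact ArithmeticFunction.LSeries_zeta_mul_Lseries_moebius hs

/-- the mollified zeta function on the line 3 -/
theorem f_three {Pw q : ℝ → ℝ} {c₀ C₀ : ℝ} (hG : Gev Pw q c₀ C₀) (hAL : S_AL) {Y : ℕ} (hY : 2 ≤ Y) {s : ℂ}
    (hs : s.re = 3) : ‖riemannZeta s * dq Y (et Pw Y) s ^ 2 - 1‖ ≤ 16 * (Y : ℝ) ^ (-(1 / 4 : ℝ)) := by
  have hY0 : (0 : ℝ) < Y := by exact_mod_cast (by omega : 0 < Y)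
  have hY1 : (1 : ℝ) < Y := by exact_mod_cast hY
  have hlY : 0 < Real.log Y := Real.log_pos hY1
  have hs1 : 1 < s.re := by rw [hs]; norm_num
  set R := LSeries (fun n => (al n : ℂ)) s with hR
  set g : ℕ → ℂ := fun n => if n ≤ Y then et Pw Y n else 0 with hg
  have hal : ∀ n, |al n| ≤ 1 := hAL.2.2
  have het : ∀ n, ‖et Pw Y n‖ ≤ 1 := by
    intro n
    unfold et
    rw [norm_real, Real.norm_eq_abs, abs_mul, abs_of_nonneg (hG.bd _).1]
    exact mul_le_one₀ (hal n) (hG.bd _).1 (hG.bd _).2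
  have hD : dq Y (et Pw Y) s = LSeries g s := by
    unfold dq LSeries
    rw [tsum_eq_sum (s := Finset.Icc 1 Y)]
    · apply Finset.sum_congr rfl
      intro n hn
      have hn1 := (Finset.mem_Icc.1 hn).1
      have hn2 := (Finset.mem_Icc.1 hn).2
      rw [LSeries.term_of_ne_zero (by omega), cpow_neg, div_eq_mul_inv, hg]
      simp only
      rw [if_pos hn2]
    · intro n hn
      rcases Nat.eq_zero_or_pos n with rfl | h0
      · simp
      · have : ¬ n ≤ Y := fun h => hn (Finset.mem_Icc.2 ⟨h0, h⟩)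
        rw [LSeries.term_of_ne_zero (by omega), hg]
        simp only
        rw [if_neg this, zero_div]
  have hgs : LSeriesSummable g s := LSeriesSummable_of_bounded_of_one_lt_re (m := 1) (fun n _ => by
    rw [hg]
    simp only
    split_ifs
    · exact het n
    · simp) hs1
  have hals : LSeriesSummable (fun n => (al n : ℂ)) s :=
    LSeriesSummable_of_bounded_of_one_lt_re (m := 1) (fun n _ => by
      rw [norm_real, Real.norm_eq_abs]
      exact hal n) hs1
  set D := dq Y (et Pw Y) s with hDdef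
  have hDR : ‖D - R‖ ≤ 2 * (Y : ℝ) ^ (-(1 / 4 : ℝ)) := by
    rw [hD, hR, ← LSeries_sub hgs hals]
    apply L_three (by positivity) _ hs
    intro n hn
    have hn0 : (0 : ℝ) < n := by exact_mod_cast hn
    show ‖g n - (al n : ℂ)‖ ≤ _
    by_cases hc : (n : ℝ) ≤ (Y : ℝ) ^ (1 / 4 : ℝ)
    · have h1 : Real.log n / Real.log Y ≤ 1 / 4 := by
        rw [div_le_iff₀ hlY]
        have := Real.log_le_log hn0 hc
        rw [Real.log_rpow hY0] at this
        exact this
      have h2 : 0 ≤ Real.log n / Real.log Y := div_nonneg (Real.log_nonneg (by exact_mod_cast hn)) hlY.le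
      have h3 : n ≤ Y := by
        have : (n : ℝ) ≤ Y := by
          refine hc.trans ?_
          calc (Y : ℝ) ^ (1 / 4 : ℝ) ≤ (Y : ℝ) ^ (1 : ℝ) := Real.rpow_le_rpow_of_exponent_le hY1.le (by norm_num)
            _ = Y := Real.rpow_one _
        exact_mod_cast this
      have h4 : g n = (al n : ℂ) := by
        rw [hg]
        simp only
        rw [if_pos h3]
        unfold et
        rw [hG.flat _ (by rw [abs_of_nonneg h2]; exact h1), mul_one]
      rw [h4, sub_self, norm_zero]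
      positivity
    · rw [not_le] at hc
      have h1 : ‖g n - (al n : ℂ)‖ ≤ 1 := by
        rw [hg]
        simp only
        split_ifs
        · unfold et
          rw [← ofReal_sub, norm_real, Real.norm_eq_abs]
          have e : al n * Pw (Real.log n / Real.log Y) - al n = al n * (Pw (Real.log n / Real.log Y) - 1) := by ring
          rw [e, abs_mul]
          have h2 := hG.bd (Real.log n / Real.log Y)
          have h3 : |Pw (Real.log n / Real.log Y) - 1| ≤ 1 := by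
            rw [abs_le]
            constructor <;> linarith [h2.1, h2.2]
          exact mul_le_one₀ (hal n) (abs_nonneg _) h3
        · rw [zero_sub, norm_neg, norm_real, Real.norm_eq_abs]
          exact hal n
      refine h1.trans ?_
      have h2 : 1 = (Y : ℝ) ^ (-(1 / 4 : ℝ)) * (Y : ℝ) ^ (1 / 4 : ℝ) := by
        rw [← Real.rpow_add hY0]
        simp
      calc (1 : ℝ) = (Y : ℝ) ^ (-(1 / 4 : ℝ)) * (Y : ℝ) ^ (1 / 4 : ℝ) := h2
        _ ≤ (Y : ℝ) ^ (-(1 / 4 : ℝ)) * n := by gcongr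
  have hDn : ‖D‖ ≤ 2 := by
    have := dq_three (E := 1) zero_le_one (fun n _ => het n) hs (M := Y)
    linarith
  have hRn : ‖R‖ ≤ 2 := by
    have := L_three (g := fun n => (al n : ℂ)) (E := 1) zero_le_one (fun n hn => by
      rw [norm_real, Real.norm_eq_abs, one_mul]
      exact (hal n).trans (by exact_mod_cast hn)) hs
    linarith
  have hz := zeta_three hs
  have hone := al_mul hs1 hAL
  rw [← hR] at hone
  have e1 : riemannZeta s * D ^ 2 - 1 = riemannZeta s * (D - R) * (D + R) := by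
    rw [← hone]
    ring
  rw [e1, norm_mul, norm_mul]
  have h5 : ‖D + R‖ ≤ 4 := (norm_add_le _ _).trans (by linarith)
  calc ‖riemannZeta s‖ * ‖D - R‖ * ‖D + R‖ ≤ 2 * (2 * (Y : ℝ) ^ (-(1 / 4 : ℝ))) * 4 := by gcongr
    _ = 16 * (Y : ℝ) ^ (-(1 / 4 : ℝ)) := by ring

/-- the tilted coefficients -/
theorem til_bd {Pw q : ℝ → ℝ} {c₀ C₀ : ℝ} (hG : Gev Pw q c₀ C₀) (hAL : S_AL) {Y : ℕ} (hY : 2 ≤ Y) {κ : ℝ} (hκ : 0 ≤ κ)
    {n : ℕ} (hn : n ∈ Finset.Icc 1 Y) : ‖et (til Pw κ) Y n‖ ≤ Real.exp κ := by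
  have hn1 := (Finset.mem_Icc.1 hn).1
  have hn2 := (Finset.mem_Icc.1 hn).2
  have hY1 : (1 : ℝ) < Y := by exact_mod_cast hY
  have hlY : 0 < Real.log Y := Real.log_pos hY1
  unfold et til
  rw [norm_real, Real.norm_eq_abs, abs_mul, abs_mul, abs_of_nonneg (hG.bd _).1, abs_of_pos (Real.exp_pos _)]
  have h1 : Real.log n / Real.log Y ≤ 1 := by
    rw [div_le_one hlY]
    exact Real.log_le_log (by exact_mod_cast hn1) (by exact_mod_cast hn2)
  have h2 : Real.exp (κ * (Real.log n / Real.log Y)) ≤ Real.exp κ := by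
    apply Real.exp_le_exp.2
    exact mul_le_of_le_one_right hκ h1
  have h3 := hG.bd (Real.log n / Real.log Y)
  have h4 := hAL.2.2 n
  calc |al n| * (Pw (Real.log n / Real.log Y) * Real.exp (κ * (Real.log n / Real.log Y)))
      ≤ 1 * (1 * Real.exp κ) := by
        gcongr
        · exact mul_nonneg h3.1 (Real.exp_pos _).le
        · exact h3.2
    _ = Real.exp κ := by ring

theorem til_zero (Pw : ℝ → ℝ) : til Pw 0 = Pw := by
  funext u
  unfold til
  simp

/-- combination of the two bounds -/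
theorem comb {U V X W₁ W₂ a b lam : ℝ} (hU0 : 0 ≤ U) (hV0 : 0 ≤ V) (hX : 0 ≤ X) (hW₁ : 1 ≤ W₁) (hW₂ : 0 ≤ W₂) (ha : 1 ≤ a)
    (hb : 1 ≤ b) (hl0 : 0 ≤ lam) (hl1 : lam ≤ 1) (hU : U ≤ a * X * W₁) (hV : V ≤ b * X * W₂) :
    U ^ (1 - lam) * V ^ lam ≤ a * b * X * W₁ * W₂ ^ lam := by
  have h1 : U ^ (1 - lam) ≤ a * X ^ (1 - lam) * W₁ := by
    refine (Real.rpow_le_rpow hU0 hU (by linarith)).trans ?_
    rw [Real.mul_rpow (by positivity) (by positivity), Real.mul_rpow (by positivity) hX]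
    have h2 : a ^ (1 - lam) ≤ a := by
      calc a ^ (1 - lam) ≤ a ^ (1 : ℝ) := Real.rpow_le_rpow_of_exponent_le ha (by linarith)
        _ = a := Real.rpow_one a
    have h3 : W₁ ^ (1 - lam) ≤ W₁ := by
      calc W₁ ^ (1 - lam) ≤ W₁ ^ (1 : ℝ) := Real.rpow_le_rpow_of_exponent_le hW₁ (by linarith)
        _ = W₁ := Real.rpow_one W₁
    gcongr
  have h4 : V ^ lam ≤ b * X ^ lam * W₂ ^ lam := by
    refine (Real.rpow_le_rpow hV0 hV hl0).trans ?_
    rw [Real.mul_rpow (by positivity) hW₂, Real.mul_rpow (by positivity) hX]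
    have h2 : b ^ lam ≤ b := by
      calc b ^ lam ≤ b ^ (1 : ℝ) := Real.rpow_le_rpow_of_exponent_le hb hl1
        _ = b := Real.rpow_one b
    gcongr
  have h5 : X ^ (1 - lam) * X ^ lam = X := by
    rw [← Real.rpow_add_of_nonneg hX (by linarith) hl0]
    simp
  calc U ^ (1 - lam) * V ^ lam ≤ (a * X ^ (1 - lam) * W₁) * (b * X ^ lam * W₂ ^ lam) :=
        mul_le_mul h1 h4 (by positivity) (by positivity)
    _ = a * b * (X ^ (1 - lam) * X ^ lam) * W₁ * W₂ ^ lam := by ring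
    _ = a * b * X * W₁ * W₂ ^ lam := by rw [h5]

end

end Pool.Agent.Q16.UM
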