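import Pool.Agent.Q16.UM.Bas

set_option autoImplicit false

/-! # Project UM, jobs UM-CVB and UM-MS: the convexity bound in the form which is used -/

namespace Pool.Agent.Q16.UM

open Filter Topology MeasureTheory Complex
open Pool.Agent.Q97.UM

noncomputable section

theorem dp_contD (hDPM : S_DPM) (N : ℕ) (b : ℕ → ℂ) : Continuous (dp N b) := (hDPM.2.2 N b 0).2

/-- mean value of polynomials on `[T/2, 3T]` -/
theorem mvl3 (hMVL : S_MVL) (hDPM : S_DPM) {T : ℝ} (hT : 32 ≤ T) {N : ℕ} (hN : (N : ℝ) ≤ (T / 2) ^ (1 / 4 : ℝ))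
    (b : ℕ → ℂ) : ∫ t in (T / 2)..(3 * T), ‖dp N b t‖ ^ 2 ≤ 7 * T * N2 N b := by
  have hc : Continuous fun t => ‖dp N b t‖ ^ 2 := (dp_contD hDPM N b).norm.pow 2
  have hi : ∀ x y : ℝ, IntervalIntegrable (fun t => ‖dp N b t‖ ^ 2) volume x y := fun x y => hc.intervalIntegrable x y
  have m1 : (T / 2) ^ (1 / 4 : ℝ) ≤ T ^ (1 / 4 : ℝ) := Real.rpow_le_rpow (by linarith) (by linarith) (by norm_num)
  have m2 : T ^ (1 / 4 : ℝ) ≤ (2 * T) ^ (1 / 4 : ℝ) := Real.rpow_le_rpow (by linarith) (by linarith) (by norm_num)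
  have a1 := (hMVL (T / 2) (by linarith) N hN b).2
  have a2 := (hMVL T (by linarith) N (hN.trans m1) b).2
  have a3 := (hMVL (2 * T) (by linarith) N (hN.trans (m1.trans m2)) b).2
  rw [show 2 * (T / 2) = T by ring] at a1
  have e1 := intervalIntegral.integral_add_adjacent_intervals (hi (T / 2) T) (hi T (2 * T))
  have e2 := intervalIntegral.integral_add_adjacent_intervals (hi (T / 2) (2 * T)) (hi (2 * T) (3 * T))
  have e3 : ∫ t in (2 * T)..(3 * T), ‖dp N b t‖ ^ 2 ≤ ∫ t in (2 * T)..(2 * (2 * T)), ‖dp N b t‖ ^ 2 :=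
    intervalIntegral.integral_mono_interval le_rfl (by linarith) (by linarith)
      (Eventually.of_forall fun t => by positivity) (hi _ _)
  linarith

theorem Hc_cont {e : ℕ → ℂ} {Y : ℕ} {c σ y : ℝ} {t : ℝ} (ht : t + y ≠ 0) :
    ContinuousAt (fun t : ℝ => Hc e Y c (σ + (t + y : ℝ) * I)) t := by
  have h1 : ((σ : ℂ) + (t + y : ℝ) * I) ≠ 1 := by
    intro h
    have := congrArg Complex.im h
    simp at this
    exact ht this
  have h2 : ContinuousAt (fun t : ℝ => ((σ : ℂ) + (t + y : ℝ) * I)) t := by fun_prop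
  unfold Hc
  refine ContinuousAt.sub (ContinuousAt.mul ?_ (ContinuousAt.pow ?_ 2)) continuousAt_const
  · exact ContinuousAt.comp (f := fun t : ℝ => ((σ : ℂ) + (t + y : ℝ) * I)) (differentiableAt_riemannZeta h1).continuousAt h2
  · exact ContinuousAt.comp (f := fun t : ℝ => ((σ : ℂ) + (t + y : ℝ) * I)) ((dq_diff Y e).continuous.continuousAt) h2

theorem Hc_int (hDPM : S_DPM) {e b : ℕ → ℂ} {Y N : ℕ} {c σ y T p q : ℝ} (hy : |y| ≤ T / 8) (hT : 0 < T) (hp : T / 4 ≤ p)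
    (hq : T / 4 ≤ q) :
    IntervalIntegrable (fun t => ‖dp N b t‖ ^ 2 * ‖Hc e Y c (σ + (t + y : ℝ) * I)‖ ^ 2) volume p q := by
  apply ContinuousOn.intervalIntegrable
  intro t ht
  have ht0 : T / 4 ≤ t := by
    have := (Set.mem_uIcc.1 ht)
    rcases this with h | h <;> linarith [h.1]
  have h1 : t + y ≠ 0 := by
    have := (abs_le.1 hy).1
    intro h
    linarith
  exact (((dp_contD hDPM N b).continuousAt.norm.pow 2).mul ((Hc_cont h1).norm.pow 2)).continuousWithinAt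

theorem pow_kill {C : ℝ} (hC : 1 ≤ C) : ∀ᶠ T : ℝ in atTop,
    1156 * T ^ 18 * Real.exp (-(Real.log T) ^ 2 / C) ≤ 1 / T := by
  filter_upwards [Real.tendsto_log_atTop.eventually_ge_atTop (21 * C), eventually_ge_atTop (34 : ℝ)] with T h1 h2
  have hT : 0 < T := by linarith
  have e1 : 1156 * T ^ 18 ≤ T ^ 20 := by
    have : (1156 : ℝ) ≤ T ^ 2 := by nlinarith
    calc 1156 * T ^ 18 ≤ T ^ 2 * T ^ 18 := by gcongr
      _ = T ^ 20 := by ring
  have e2 : T ^ 20 = Real.exp (20 * Real.log T) := by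
    rw [← Real.exp_log hT, ← Real.exp_nat_mul, Real.log_exp]
    norm_num
  have e3 : 1 / T = Real.exp (-(Real.log T)) := by
    rw [Real.exp_neg, Real.exp_log hT, one_div]
  have h3 : 0 ≤ Real.log T := Real.log_nonneg (by linarith)
  calc 1156 * T ^ 18 * Real.exp (-(Real.log T) ^ 2 / C) ≤ T ^ 20 * Real.exp (-(Real.log T) ^ 2 / C) := by gcongr
    _ = Real.exp (20 * Real.log T + -(Real.log T) ^ 2 / C) := by rw [e2, Real.exp_add]
    _ ≤ Real.exp (-(Real.log T)) := by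
      apply Real.exp_le_exp.2
      have : 21 * Real.log T ≤ (Real.log T) ^ 2 / C := by
        rw [le_div_iff₀ (by linarith)]
        nlinarith
      have e4 : -(Real.log T) ^ 2 / C = -((Real.log T) ^ 2 / C) := by ring
      rw [e4]
      linarith
    _ = 1 / T := e3.symm

theorem tlb (hTL : S_TL) (hMVL : S_MVL) (hDPM : S_DPM) : ∃ C : ℝ, 1 ≤ C ∧ ∀ᶠ T : ℝ in atTop,
    ∀ (N Y : ℕ) (b e : ℕ → ℂ) (c E σ y M₁ ε₃ : ℝ), (N : ℝ) ≤ (T / 2) ^ (1 / 4 : ℝ) → (Y : ℝ) ≤ T → 0 ≤ E → E ≤ T →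
    (∀ n ∈ Finset.Icc 1 Y, ‖e n‖ ≤ E) → |c| ≤ 1 → 1 / 2 ≤ σ → σ ≤ 3 → |y| ≤ T / 8 → 0 ≤ ε₃ →
    (∫ t in (T / 2)..(3 * T), ‖dp N (mv b (σ - 1 / 2)) t‖ ^ 2 * ‖Hc e Y c (((1 / 2 : ℝ) : ℂ) + (t + y : ℝ) * I)‖ ^ 2 ≤ M₁) →
    (∀ u : ℝ, ‖Hc e Y c (((3 : ℝ) : ℂ) + (u : ℝ) * I)‖ ^ 2 ≤ ε₃) →
    ∫ t in T..(2 * T), ‖dp N b t‖ ^ 2 * ‖Hc e Y c (σ + (t + y : ℝ) * I)‖ ^ 2 ≤
      C * ((M₁ + N2 N b / T) ^ (1 - (σ - 1 / 2) / (5 / 2)) * (ε₃ * T * N2 N b + N2 N b / T) ^ ((σ - 1 / 2) / (5 / 2))) := by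
  obtain ⟨C, hC, hTL'⟩ := hTL
  refine ⟨448 * C, by linarith, ?_⟩
  filter_upwards [pow_kill hC, eventually_ge_atTop (34 : ℝ), eventually_ge_atTop C] with T hkill hT34 hTC
  intro N Y b e c E σ y M₁ ε₃ hN hY hE hET he hc hσ1 hσ2 hy hε₃ hM₁ h3
  have hT : 0 < T := by linarith
  have hT1 : 1 ≤ T := by linarith
  have hya := abs_le.1 hy
  have hN2 := N2_nonneg N b
  set F : ℂ → ℂ := fun s => Gc e Y c (s + y * I) * dq N (mv b (σ - 1 / 2)) s with hF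
  have hFd : Differentiable ℂ F :=
    ((Gc_diff e Y c).comp (differentiable_id.add_const _)).mul (dq_diff N _)
  set A : ℝ := 17 * (1 + (Y * E) ^ 2) * (1 + |y|) ^ 2 * ((N : ℝ) ^ 3 * Real.sqrt (N2 N b)) with hA
  have hA0 : 0 ≤ A := by positivity
  have hFb : ∀ s : ℂ, 1 / 2 ≤ s.re → s.re ≤ 3 → ‖F s‖ ≤ A * (1 + |s.im|) ^ 4 := by
    intro s hs1 hs2
    rw [hF]
    simp only
    rw [norm_mul]
    have r1 : (s + y * I).re = s.re := by simp
    have r2 : (s + y * I).im = s.im + y := by simp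
    have a1 := Gc_bd (c := c) (s := s + y * I) hE he hc (by rw [r1]; exact hs1) (by rw [r1]; exact hs2)
    rw [r2] at a1
    have a2 : ‖dq N (mv b (σ - 1 / 2)) s‖ ≤ (N : ℝ) ^ 3 * Real.sqrt (N2 N b) := by
      rw [dq_mv]
      apply dq_triv
      rw [sub_re, ofReal_re]
      linarith
    have a3 : (1 + |s.im + y|) ^ 2 ≤ (1 + |y|) ^ 2 * (1 + |s.im|) ^ 4 := by
      have b1 : 1 + |s.im + y| ≤ (1 + |y|) * (1 + |s.im|) := by
        have := abs_add_le s.im y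
        nlinarith [abs_nonneg s.im, abs_nonneg y]
      have b2 : (1 + |s.im|) ^ 2 ≤ (1 + |s.im|) ^ 4 := pow_le_pow_right₀ (by linarith [abs_nonneg s.im]) (by norm_num)
      calc (1 + |s.im + y|) ^ 2 ≤ ((1 + |y|) * (1 + |s.im|)) ^ 2 :=
            pow_le_pow_left₀ (by positivity) b1 2
        _ = (1 + |y|) ^ 2 * (1 + |s.im|) ^ 2 := by ring
        _ ≤ (1 + |y|) ^ 2 * (1 + |s.im|) ^ 4 := by gcongr
    calc ‖Gc e Y c (s + y * I)‖ * ‖dq N (mv b (σ - 1 / 2)) s‖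
        ≤ (17 * (1 + (Y * E) ^ 2) * (1 + |s.im + y|) ^ 2) * ((N : ℝ) ^ 3 * Real.sqrt (N2 N b)) := by gcongr
      _ ≤ (17 * (1 + (Y * E) ^ 2) * ((1 + |y|) ^ 2 * (1 + |s.im|) ^ 4)) * ((N : ℝ) ^ 3 * Real.sqrt (N2 N b)) := by gcongr
      _ = A * (1 + |s.im|) ^ 4 := by rw [hA]; ring
  have hmain := hTL' T hTC F A hFd hA0 hFb σ hσ1 hσ2
  -- the error
  set R : ℝ := A ^ 2 * Real.exp (-(Real.log T) ^ 2 / C) with hR
  have hR0 : 0 ≤ R := by positivity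
  have hR1 : R ≤ N2 N b / T := by
    have hNT : (N : ℝ) ≤ T := by
      refine hN.trans ?_
      calc (T / 2) ^ (1 / 4 : ℝ) ≤ T ^ (1 / 4 : ℝ) := Real.rpow_le_rpow (by linarith) (by linarith) (by norm_num)
        _ ≤ T ^ (1 : ℝ) := Real.rpow_le_rpow_of_exponent_le hT1 (by norm_num)
        _ = T := Real.rpow_one T
    have b1 : (Y * E : ℝ) ≤ T * T := mul_le_mul hY hET hE hT.le
    have b2 : 1 + (Y * E : ℝ) ^ 2 ≤ 2 * T ^ 4 := by
      have c1 : (Y * E : ℝ) ^ 2 ≤ (T * T) ^ 2 := pow_le_pow_left₀ (by positivity) b1 2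
      have c2 : 1 ≤ T ^ 4 := one_le_pow₀ hT1
      have c3 : (T * T) ^ 2 = T ^ 4 := by ring
      linarith
    have b3 : 1 + |y| ≤ T := by linarith
    have e1 : A ^ 2 = 289 * (1 + (Y * E : ℝ) ^ 2) ^ 2 * (1 + |y|) ^ 4 * (N : ℝ) ^ 6 * N2 N b := by
      rw [hA]
      have := Real.sq_sqrt hN2
      calc (17 * (1 + (Y * E : ℝ) ^ 2) * (1 + |y|) ^ 2 * ((N : ℝ) ^ 3 * Real.sqrt (N2 N b))) ^ 2 =
          289 * (1 + (Y * E : ℝ) ^ 2) ^ 2 * (1 + |y|) ^ 4 * (N : ℝ) ^ 6 * (Real.sqrt (N2 N b)) ^ 2 := by ring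
        _ = _ := by rw [this]
    have e2 : A ^ 2 ≤ 1156 * T ^ 18 * N2 N b := by
      rw [e1]
      calc 289 * (1 + (Y * E : ℝ) ^ 2) ^ 2 * (1 + |y|) ^ 4 * (N : ℝ) ^ 6 * N2 N b
          ≤ 289 * (2 * T ^ 4) ^ 2 * T ^ 4 * T ^ 6 * N2 N b := by gcongr
        _ = 1156 * T ^ 18 * N2 N b := by ring
    calc R ≤ 1156 * T ^ 18 * N2 N b * Real.exp (-(Real.log T) ^ 2 / C) := by rw [hR]; gcongr
      _ = (1156 * T ^ 18 * Real.exp (-(Real.log T) ^ 2 / C)) * N2 N b := by ring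
      _ ≤ 1 / T * N2 N b := by gcongr
      _ = N2 N b / T := by ring
  -- the line 1/2
  have hline : ∀ (σ' t : ℝ), T / 4 ≤ t → ‖F (σ' + t * I)‖ ^ 2 = ‖(σ' : ℂ) + (t + y : ℝ) * I - 1‖ ^ 2 *
      (‖dq N (mv b (σ - 1 / 2)) (σ' + t * I)‖ ^ 2 * ‖Hc e Y c (σ' + (t + y : ℝ) * I)‖ ^ 2) := by
    intro σ' t ht
    have e1 : (σ' : ℂ) + t * I + y * I = (σ' : ℂ) + (t + y : ℝ) * I := by push_cast; ring
    have e2 : (σ' : ℂ) + (t + y : ℝ) * I ≠ 1 := by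
      intro h
      have := congrArg Complex.im h
      simp at this
      linarith
    rw [hF]
    simp only
    rw [e1, Gc_ne e2, norm_mul, norm_mul]
    ring
  have hsz : ∀ (σ' t : ℝ), σ' = 1 / 2 ∨ σ' = 3 → T / 2 ≤ t → t ≤ 3 * T → ‖(σ' : ℂ) + (t + y : ℝ) * I - 1‖ ^ 2 ≤ 16 * T ^ 2 := by
    intro σ' t hσ' ht1 ht2
    rw [← Complex.normSq_eq_norm_sq, Complex.normSq_apply]
    have r1 : ((σ' : ℂ) + (t + y : ℝ) * I - 1).re = σ' - 1 := by simp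
    have r2 : ((σ' : ℂ) + (t + y : ℝ) * I - 1).im = t + y := by simp
    rw [r1, r2]
    have b1 : (σ' - 1) * (σ' - 1) ≤ 4 := by rcases hσ' with h | h <;> rw [h] <;> norm_num
    have b2 : 0 ≤ t + y := by linarith
    have b3 : t + y ≤ 25 / 8 * T := by linarith
    nlinarith
  have hcont1 : IntervalIntegrable (fun t : ℝ => ‖F (1 / 2 + t * I)‖ ^ 2) volume (T / 2) (3 * T) := by
    apply Continuous.intervalIntegrable
    exact (hFd.continuous.comp (by fun_prop)).norm.pow 2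
  have hI1 : ∫ t in (T / 2)..(3 * T), ‖F (1 / 2 + t * I)‖ ^ 2 ≤ 16 * T ^ 2 * M₁ := by
    have h1 : ∀ t ∈ Set.Icc (T / 2) (3 * T), ‖F (1 / 2 + t * I)‖ ^ 2 ≤ 16 * T ^ 2 *
        (‖dp N (mv b (σ - 1 / 2)) t‖ ^ 2 * ‖Hc e Y c (((1 / 2 : ℝ) : ℂ) + (t + y : ℝ) * I)‖ ^ 2) := by
      intro t ht
      have h2 := hline (1 / 2) t (by linarith [ht.1])
      have e0 : ((1 / 2 : ℝ) : ℂ) = 1 / 2 := by push_cast; rfl
      rw [e0] at h2
      rw [h2, dq_dp, ← e0]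
      apply mul_le_mul_of_nonneg_right (hsz (1 / 2) t (Or.inl rfl) ht.1 ht.2) (by positivity)
    refine (intervalIntegral.integral_mono_on (by linarith) hcont1
      ((Hc_int hDPM hy hT (by linarith) (by linarith)).const_mul _) h1).trans ?_
    rw [intervalIntegral.integral_const_mul]
    gcongr
  -- the line 3
  have hcont3 : IntervalIntegrable (fun t : ℝ => ‖F (3 + t * I)‖ ^ 2) volume (T / 2) (3 * T) := by
    apply Continuous.intervalIntegrable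
    exact (hFd.continuous.comp (by fun_prop)).norm.pow 2
  have hI3 : ∫ t in (T / 2)..(3 * T), ‖F (3 + t * I)‖ ^ 2 ≤ 16 * T ^ 2 * ε₃ * (7 * T * N2 N b) := by
    have h1 : ∀ t ∈ Set.Icc (T / 2) (3 * T), ‖F (3 + t * I)‖ ^ 2 ≤ 16 * T ^ 2 * ε₃ * ‖dp N (mv b (σ - 3)) t‖ ^ 2 := by
      intro t ht
      have h2 := hline 3 t (by linarith [ht.1])
      have e0 : ((3 : ℝ) : ℂ) = 3 := by push_cast; rfl
      have e1 : dq N (mv b (σ - 1 / 2)) (((3 : ℝ) : ℂ) + t * I) = dp N (mv b (σ - 3)) t := by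
        rw [← dq_dp, dq_mv, dq_mv]
        congr 1
        push_cast
        ring
      rw [e1] at h2
      rw [e0] at h2
      rw [h2]
      have h4 := h3 (t + y)
      rw [e0] at h4
      have h5 := hsz 3 t (Or.inr rfl) ht.1 ht.2
      rw [e0] at h5
      calc ‖(3 : ℂ) + (t + y : ℝ) * I - 1‖ ^ 2 * (‖dp N (mv b (σ - 3)) t‖ ^ 2 * ‖Hc e Y c (3 + (t + y : ℝ) * I)‖ ^ 2)
          ≤ 16 * T ^ 2 * (‖dp N (mv b (σ - 3)) t‖ ^ 2 * ε₃) := by gcongr
        _ = _ := by ring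
    have hci : IntervalIntegrable (fun t => ‖dp N (mv b (σ - 3)) t‖ ^ 2) volume (T / 2) (3 * T) :=
      ((dp_contD hDPM N _).norm.pow 2).intervalIntegrable _ _
    refine (intervalIntegral.integral_mono_on (by linarith) hcont3 (hci.const_mul _) h1).trans ?_
    rw [intervalIntegral.integral_const_mul]
    have h6 := mvl3 hMVL hDPM (by linarith : 32 ≤ T) hN (mv b (σ - 3))
    have h7 := N2_mv_neg N b (by linarith : σ - 3 ≤ 0)
    have h8 : 7 * T * N2 N (mv b (σ - 3)) ≤ 7 * T * N2 N b := by gcongr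
    have h9 : 0 ≤ 16 * T ^ 2 * ε₃ := by positivity
    exact mul_le_mul_of_nonneg_left (h6.trans h8) h9
  -- the left side
  have hcontσ : IntervalIntegrable (fun t : ℝ => ‖F (σ + t * I)‖ ^ 2) volume T (2 * T) := by
    apply Continuous.intervalIntegrable
    exact (hFd.continuous.comp (by fun_prop)).norm.pow 2
  have hL : ∫ t in T..(2 * T), ‖dp N b t‖ ^ 2 * ‖Hc e Y c (σ + (t + y : ℝ) * I)‖ ^ 2 ≤
      4 / T ^ 2 * ∫ t in T..(2 * T), ‖F (σ + t * I)‖ ^ 2 := by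
    rw [← intervalIntegral.integral_const_mul]
    refine intervalIntegral.integral_mono_on (by linarith) (Hc_int hDPM hy hT (by linarith) (by linarith))
      (hcontσ.const_mul _) fun t ht => ?_
    have h2 := hline σ t (by linarith [ht.1])
    have e1 : dq N (mv b (σ - 1 / 2)) ((σ : ℂ) + t * I) = dp N b t := by
      rw [← dq_dp, dq_mv]
      congr 1
      push_cast
      ring
    rw [e1] at h2
    rw [h2]
    have h5 : T ^ 2 / 4 ≤ ‖(σ : ℂ) + (t + y : ℝ) * I - 1‖ ^ 2 := by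
      rw [← Complex.normSq_eq_norm_sq, Complex.normSq_apply]
      have r1 : ((σ : ℂ) + (t + y : ℝ) * I - 1).re = σ - 1 := by simp
      have r2 : ((σ : ℂ) + (t + y : ℝ) * I - 1).im = t + y := by simp
      rw [r1, r2]
      have b2 : T / 2 ≤ t + y := by linarith [ht.1]
      nlinarith [mul_self_nonneg (σ - 1)]
    set X := ‖dp N b t‖ ^ 2 * ‖Hc e Y c (σ + (t + y : ℝ) * I)‖ ^ 2
    have hX : 0 ≤ X := by positivity
    calc X = 4 / T ^ 2 * (T ^ 2 / 4 * X) := by field_simp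
      _ ≤ 4 / T ^ 2 * (‖(σ : ℂ) + (t + y : ℝ) * I - 1‖ ^ 2 * X) := by gcongr
  -- the end
  have hM₁0 : 0 ≤ M₁ := by
    refine le_trans ?_ hM₁
    apply intervalIntegral.integral_nonneg (by linarith)
    intro t _
    positivity
  set lam : ℝ := (σ - 1 / 2) / (5 / 2) with hlam
  have hl0 : 0 ≤ lam := by
    rw [hlam]
    apply div_nonneg (by linarith) (by norm_num)
  have hl1 : lam ≤ 1 := by
    rw [hlam, div_le_one (by norm_num)]
    linarith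
  set U := M₁ + N2 N b / T with hU
  set V := ε₃ * T * N2 N b + N2 N b / T with hV
  have hU0 : 0 ≤ U := by positivity
  have hV0 : 0 ≤ V := by positivity
  have hNT0 : 0 ≤ N2 N b / T := by positivity
  have hTT : 1 ≤ T ^ 2 := one_le_pow₀ hT1
  have hJ1 : (∫ t in (T / 2)..(3 * T), ‖F (1 / 2 + t * I)‖ ^ 2) + R ≤ 112 * T ^ 2 * U := by
    rw [hU]
    have b1 : N2 N b / T ≤ T ^ 2 * (N2 N b / T) := le_mul_of_one_le_left hNT0 hTT
    have b2 : 0 ≤ T ^ 2 * M₁ := by positivity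
    nlinarith
  have hJ3 : (∫ t in (T / 2)..(3 * T), ‖F (3 + t * I)‖ ^ 2) + R ≤ 112 * T ^ 2 * V := by
    rw [hV]
    have b1 : N2 N b / T ≤ T ^ 2 * (N2 N b / T) := le_mul_of_one_le_left hNT0 hTT
    have b3 : 16 * T ^ 2 * ε₃ * (7 * T * N2 N b) = 112 * T ^ 2 * (ε₃ * T * N2 N b) := by ring
    rw [b3] at hI3
    nlinarith
  have hJ10 : 0 ≤ (∫ t in (T / 2)..(3 * T), ‖F (1 / 2 + t * I)‖ ^ 2) + R :=
    add_nonneg (intervalIntegral.integral_nonneg (by linarith) fun t _ => by positivity) hR0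
  have hJ30 : 0 ≤ (∫ t in (T / 2)..(3 * T), ‖F (3 + t * I)‖ ^ 2) + R :=
    add_nonneg (intervalIntegral.integral_nonneg (by linarith) fun t _ => by positivity) hR0
  have hprod : ∫ t in T..(2 * T), ‖F (σ + t * I)‖ ^ 2 ≤ C * (112 * T ^ 2 * (U ^ (1 - lam) * V ^ lam)) := by
    refine hmain.trans ?_
    have p1 := Real.rpow_le_rpow hJ10 hJ1 (by linarith : 0 ≤ 1 - lam)
    have p2 := Real.rpow_le_rpow hJ30 hJ3 hl0
    have k0 : 0 ≤ 112 * T ^ 2 := by positivity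
    have k1 : 0 < 112 * T ^ 2 := by positivity
    rw [mul_assoc]
    apply mul_le_mul_of_nonneg_left _ (by linarith)
    refine (mul_le_mul p1 p2 (Real.rpow_nonneg hJ30 _) (Real.rpow_nonneg (by positivity) _)).trans (le_of_eq ?_)
    rw [Real.mul_rpow k0 hU0, Real.mul_rpow k0 hV0]
    have k2 : (112 * T ^ 2) ^ (1 - lam) * (112 * T ^ 2) ^ lam = 112 * T ^ 2 := by
      rw [← Real.rpow_add k1]
      simp
    calc (112 * T ^ 2) ^ (1 - lam) * U ^ (1 - lam) * ((112 * T ^ 2) ^ lam * V ^ lam) =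
        ((112 * T ^ 2) ^ (1 - lam) * (112 * T ^ 2) ^ lam) * (U ^ (1 - lam) * V ^ lam) := by ring
      _ = _ := by rw [k2]
  calc ∫ t in T..(2 * T), ‖dp N b t‖ ^ 2 * ‖Hc e Y c (σ + (t + y : ℝ) * I)‖ ^ 2
      ≤ 4 / T ^ 2 * ∫ t in T..(2 * T), ‖F (σ + t * I)‖ ^ 2 := hL
    _ ≤ 4 / T ^ 2 * (C * (112 * T ^ 2 * (U ^ (1 - lam) * V ^ lam))) := by gcongr
    _ = 448 * C * (U ^ (1 - lam) * V ^ lam) := by field_simp; ring

end

end Pool.Agent.Q16.UM
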