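import Pool.Agent.Q97.UM.Stm9
import Pool.Agent.Q97.UM.Wa
import Pool.Agent.Q61.UM.SAMPb
import Pool.Agent.Q178.UM.ZF2
import Pool.Agent.Q84.UM.DPM
import Pool.Agent.Q222.UM.ERR

set_option autoImplicit false

/-! Project UM2 (helper97): upper bounds for sums over zeros by integrals (helper16). -/

namespace Pool.Agent.Q16.UM9

open Filter Topology MeasureTheory Set
open Pool.Agent.Q97.UM Pool.Agent.Q210.UM
open Pool.Agent.Q61.UM (win_sum ind_ii ind_in mem_win dp_var bd N2_bd)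

open Classical in
theorem samp_up {F : Finset ℂ} {m : ℂ → ℝ} (hm : ∀ s ∈ F, 0 ≤ m s) {A B r : ℝ} (hr : 0 < r) (hAB : A + 2 * r ≤ B)
    (hF : ∀ s ∈ F, A ≤ s.im ∧ s.im ≤ B) {f k : ℝ → ℝ} (hf : Continuous f) (hk : Continuous k) (hf0 : ∀ t, 0 ≤ f t)
    (hk0 : ∀ t, 0 ≤ k t) (hfk : ∀ x y : ℝ, |f y - f x| ≤ |∫ t in x..y, k t|) :
    ∑ s ∈ F, m s * f s.im ≤ ∫ t in A..B, (∑ s ∈ F.filter (fun s => |s.im - t| ≤ r), m s) * (r⁻¹ * f t + k t) := by
  have hg : Continuous (fun t => r⁻¹ * f t + k t) := (hf.const_mul _).add hk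
  have hg0 : ∀ t, 0 ≤ r⁻¹ * f t + k t := fun t => by
    have := hf0 t
    have := hk0 t
    positivity
  rw [win_sum hg]
  refine Finset.sum_le_sum fun s hs => mul_le_mul_of_nonneg_left ?_ (hm s hs)
  obtain ⟨h1, h2⟩ := hF s hs
  have main : ∀ c : ℝ, A ≤ c → c + r ≤ B → c ≤ s.im → s.im ≤ c + r →
      f s.im ≤ ∫ t in A..B, Set.indicator (Set.Icc (s.im - r) (s.im + r)) (fun t => r⁻¹ * f t + k t) t := by
    intro c hc1 hc2 hc3 hc4
    have e1 : ∫ t in A..B, Set.indicator (Set.Icc c (c + r)) (fun t => r⁻¹ * f t + k t) t =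
        ∫ t in c..(c + r), (r⁻¹ * f t + k t) := ind_in hc1 (by linarith) hc2
    have e2 : ∫ t in A..B, Set.indicator (Set.Icc c (c + r)) (fun t => r⁻¹ * f t + k t) t ≤
        ∫ t in A..B, Set.indicator (Set.Icc (s.im - r) (s.im + r)) (fun t => r⁻¹ * f t + k t) t := by
      refine intervalIntegral.integral_mono_on (by linarith) (ind_ii hg _ _ _ _) (ind_ii hg _ _ _ _) fun t _ => ?_
      exact Set.indicator_le_indicator_of_subset (Set.Icc_subset_Icc (by linarith) (by linarith)) hg0 t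
    refine le_trans ?_ e2
    rw [e1]
    have hki : ∀ x y : ℝ, IntervalIntegrable k volume x y := fun x y => hk.intervalIntegrable x y
    have h3 : ∀ t ∈ Set.Icc c (c + r), f s.im ≤ f t + ∫ t in c..(c + r), k t := by
      intro t ht
      have h4 := hfk t s.im
      have h5 : |∫ t in t..s.im, k t| ≤ ∫ t in c..(c + r), k t := by
        rcases le_total t s.im with h | h
        · rw [abs_of_nonneg (intervalIntegral.integral_nonneg h fun t _ => hk0 t)]
          exact intervalIntegral.integral_mono_interval ht.1 h hc4 (Eventually.of_forall fun t => hk0 t) (hki _ _)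
        · rw [intervalIntegral.integral_symm, abs_neg, abs_of_nonneg (intervalIntegral.integral_nonneg h fun t _ => hk0 t)]
          exact intervalIntegral.integral_mono_interval hc3 h ht.2 (Eventually.of_forall fun t => hk0 t) (hki _ _)
      have h6 := (abs_le.1 (h4.trans h5)).2
      linarith
    have h7 : ∫ t in c..(c + r), f s.im ≤ ∫ t in c..(c + r), (f t + ∫ t in c..(c + r), k t) :=
      intervalIntegral.integral_mono_on (by linarith) (by simp) ((hf.intervalIntegrable _ _).add (by simp)) h3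
    rw [intervalIntegral.integral_const, intervalIntegral.integral_add (hf.intervalIntegrable _ _) (by simp),
      intervalIntegral.integral_const, smul_eq_mul, smul_eq_mul, add_sub_cancel_left] at h7
    rw [intervalIntegral.integral_add ((hf.const_mul _).intervalIntegrable _ _) (hki _ _), intervalIntegral.integral_const_mul]
    have h8 : f s.im = r⁻¹ * (r * f s.im) := by field_simp
    rw [h8]
    have h9 := mul_le_mul_of_nonneg_left h7 (inv_nonneg.2 hr.le)
    have h10 : r⁻¹ * (∫ t in c..(c + r), f t) + ∫ t in c..(c + r), k t =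
        r⁻¹ * ((∫ t in c..(c + r), f t) + r * ∫ t in c..(c + r), k t) := by field_simp
    rw [h10]
    exact h9
  by_cases h : s.im + r ≤ B
  · exact main s.im h1 h le_rfl (by linarith)
  · push Not at h
    exact main (s.im - r) (by linarith) (by linarith) (by linarith) (by linarith)

open Classical in
/-- the same for `|dp N b|²` -/
theorem samp_dp (hD : S_DPM) {T : ℝ} (hT : 4 ≤ T) (hL : 1 ≤ Real.log T) {N : ℕ} (hN : (N : ℝ) ≤ T) (b : ℕ → ℂ)
    {F : Finset ℂ} (hF : F ⊆ H370.Zf riemannZeta T (2 * T)) {W : ℝ → ℝ} {B : ℝ} (hB : 0 ≤ B)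
    (hW : ∀ t, T ≤ t → t ≤ 2 * T → ∑ s ∈ F.filter (fun s => |s.im - t| ≤ 1 / Real.log T), (mz s : ℝ) ≤ W t)
    (hWi : ∀ b : ℕ → ℂ, IntervalIntegrable (fun t => W t * ‖dp N b t‖ ^ 2) volume T (2 * T))
    (hWB : ∀ b : ℕ → ℂ, ∫ t in T..(2 * T), W t * ‖dp N b t‖ ^ 2 ≤ B * N2 N b) :
    ∑ s ∈ F, (mz s : ℝ) * ‖dp N b s.im‖ ^ 2 ≤ 3 * B * Real.log T * N2 N b := by
  obtain ⟨L, hLd⟩ : ∃ L, L = Real.log T := ⟨_, rfl⟩
  rw [← hLd] at hL hW ⊢
  have hL0 : 0 < L := by linarith
  have hT0 : 0 < T := by linarith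
  have hc : ∀ c : ℕ → ℂ, Continuous (dp N c) := fun c => (hD.2.2 N c 0).2
  have hr0 : 0 < 1 / L := by positivity
  have hr1 : 1 / L ≤ 1 := by rw [div_le_one hL0]; exact hL
  have hFin : ∀ s ∈ F, T ≤ s.im ∧ s.im ≤ 2 * T := by
    intro s hs
    have := (H370.mem_Zf H370.good_zeta (by linarith : (1 : ℝ) ≤ T)).1 (hF hs)
    exact ⟨this.2.2.1.le, this.2.2.2.1⟩
  have hS0 := Pool.Agent.Q61.UM.N2_nonneg N b
  have h1 := samp_up (F := F) (m := fun s => (mz s : ℝ)) (fun s _ => Nat.cast_nonneg _) (A := T) (B := 2 * T) hr0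
    (by linarith) hFin (f := fun t => ‖dp N b t‖ ^ 2) (k := fun t => L * ‖dp N b t‖ ^ 2 + L⁻¹ * ‖dp N (bd b) t‖ ^ 2)
    ((hc b).norm.pow 2) ((((hc b).norm.pow 2).const_mul _).add (((hc _).norm.pow 2).const_mul _)) (fun t => by positivity)
    (fun t => by positivity) (dp_var hD N b hL0)
  refine h1.trans ?_
  have hmeas := sum_filter_meas F (fun s t => |s.im - t| ≤ 1 / L) (fun s => meas_near s _) (fun s => (mz s : ℝ))
  have hgc : Continuous fun t => (1 / L)⁻¹ * ‖dp N b t‖ ^ 2 + (L * ‖dp N b t‖ ^ 2 + L⁻¹ * ‖dp N (bd b) t‖ ^ 2) :=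
    (((hc b).norm.pow 2).const_mul _).add ((((hc b).norm.pow 2).const_mul _).add (((hc _).norm.pow 2).const_mul _))
  have hi1 := ii_mul hmeas.1 hmeas.2 hgc T (2 * T)
  have hi2 : IntervalIntegrable (fun t => 2 * L * (W t * ‖dp N b t‖ ^ 2) + L⁻¹ * (W t * ‖dp N (bd b) t‖ ^ 2)) volume T (2 * T) :=
    ((hWi b).const_mul _).add ((hWi (bd b)).const_mul _)
  have h2 : ∫ t in T..(2 * T), (∑ s ∈ F.filter (fun s => |s.im - t| ≤ 1 / L), (mz s : ℝ)) *
      ((1 / L)⁻¹ * ‖dp N b t‖ ^ 2 + (L * ‖dp N b t‖ ^ 2 + L⁻¹ * ‖dp N (bd b) t‖ ^ 2)) ≤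
      ∫ t in T..(2 * T), (2 * L * (W t * ‖dp N b t‖ ^ 2) + L⁻¹ * (W t * ‖dp N (bd b) t‖ ^ 2)) := by
    refine intervalIntegral.integral_mono_on (by linarith) hi1 hi2 fun t ht => ?_
    have h3 := hW t ht.1 ht.2
    have h4 : 0 ≤ (1 / L)⁻¹ * ‖dp N b t‖ ^ 2 + (L * ‖dp N b t‖ ^ 2 + L⁻¹ * ‖dp N (bd b) t‖ ^ 2) := by positivity
    refine (mul_le_mul_of_nonneg_right h3 h4).trans (le_of_eq ?_)
    rw [one_div, inv_inv]
    ring
  refine h2.trans ?_
  rw [intervalIntegral.integral_add ((hWi b).const_mul _) ((hWi (bd b)).const_mul _), intervalIntegral.integral_const_mul,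
    intervalIntegral.integral_const_mul]
  have hNL : N2 N (bd b) ≤ L ^ 2 * N2 N b := by
    refine (N2_bd N b).trans (mul_le_mul_of_nonneg_right ?_ hS0)
    rcases Nat.eq_zero_or_pos N with h0 | h0
    · rw [h0]; simp; positivity
    · have h1 : (1 : ℝ) ≤ N := by exact_mod_cast h0
      have h2 : Real.log N ≤ L := by
        rw [hLd]
        exact Real.log_le_log (by linarith) hN
      have h3 := Real.log_nonneg h1
      gcongr
  calc 2 * L * (∫ t in T..(2 * T), W t * ‖dp N b t‖ ^ 2) + L⁻¹ * (∫ t in T..(2 * T), W t * ‖dp N (bd b) t‖ ^ 2) ≤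
        2 * L * (B * N2 N b) + L⁻¹ * (B * (L ^ 2 * N2 N b)) := by
        refine add_le_add (mul_le_mul_of_nonneg_left (hWB b) (by positivity)) (mul_le_mul_of_nonneg_left ((hWB _).trans ?_)
          (by positivity))
        exact mul_le_mul_of_nonneg_left hNL hB
    _ = 3 * B * L * N2 N b := by
        field_simp
        ring

end Pool.Agent.Q16.UM9
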