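import Pool.Agent.Q97.UM.Wc
import Pool.Agent.Q97.UM.Stm7

set_option autoImplicit false

/-! Project UM3 (helper97), job UM3-WPC. -/

namespace Pool.Agent.Q16.UM3

open Filter Topology MeasureTheory Set
open Pool.Agent.Q97.UM

theorem DW_ii (R : ℝ → ℝ) (lam H T : ℝ) {V : ℝ → ℝ} (hV : Continuous V) (x y : ℝ) :
    IntervalIntegrable (fun t => DW R lam H T t * V t) volume x y := by
  classical
  have h := sum_filter_meas (ZT T) (fun s t => |s.im - t| ≤ H / Real.log T) (fun s => meas_near s _)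
    (fun s => (mz s : ℝ) * Sg R lam T s)
  have e : DW R lam H T = fun t => ∑ s ∈ (ZT T).filter (fun s => |s.im - t| ≤ H / Real.log T), (mz s : ℝ) * Sg R lam T s := by
    funext t
    unfold DW
    congr
  have h1 : Measurable (DW R lam H T) := by
    rw [e]
    exact h.1
  have h2 : ∀ t, |DW R lam H T t| ≤ ∑ s ∈ ZT T, |(mz s : ℝ) * Sg R lam T s| := by
    intro t
    rw [e]
    exact h.2 t
  exact ii_mul h1 h2 hV x y

theorem t_WPC : J_WPC := by
  intro hOM hQH hPA hPS hBD hSD hRH R D M lam ε₀ hT hl0 hl1 hε₀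
  obtain ⟨e, he⟩ : ∃ e, e = min ε₀ 1 := ⟨_, rfl⟩
  have he0 : 0 < e := by rw [he]; positivity
  have he1 : e ≤ 1 := by rw [he]; exact min_le_right _ _
  have hee : e ≤ ε₀ := by rw [he]; exact min_le_left _ _
  obtain ⟨C₁, hC₁, hPA⟩ := hPA R D lam hT.lip hl0 hl1
  obtain ⟨ϑ, C₂, hϑ0, hϑ1, hC₂, hSDB⟩ := hSD
  obtain ⟨η, hη⟩ : ∃ η, η = e / (64 * C₁) := ⟨_, rfl⟩
  have hη0 : 0 < η := by rw [hη]; positivity
  have hηC : C₁ * η ≤ e / 64 := by
    rw [hη]
    have : C₁ * (e / (64 * C₁)) = e / 64 := by field_simp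
    rw [this]
  obtain ⟨δ, hδ⟩ : ∃ δ, δ = min (1 / 16) (min (min (lam / 3) ((1 - lam) / 8)) (η ^ 2)) := ⟨_, rfl⟩
  have hδ0 : 0 < δ := by
    rw [hδ]
    have : 0 < 1 - lam := by linarith
    positivity
  have hδ2 : δ ≤ 1 / 16 := by rw [hδ]; exact min_le_left _ _
  have hδ3 : δ ≤ lam / 3 := by
    rw [hδ]; exact (min_le_right _ _).trans ((min_le_left _ _).trans (min_le_left _ _))
  have hδ4 : δ ≤ (1 - lam) / 8 := by
    rw [hδ]; exact (min_le_right _ _).trans ((min_le_left _ _).trans (min_le_right _ _))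
  have hδ5 : δ ≤ η ^ 2 := by rw [hδ]; exact (min_le_right _ _).trans (min_le_right _ _)
  obtain ⟨Cw, hCw, hOM⟩ := hOM 16 δ hδ0 (by linarith)
  obtain ⟨C₅, hC₅, hBD⟩ := hBD ϑ C₂ hϑ0 hϑ1 hC₂ hSDB R D M lam δ Cw 16 hRH hT hl0 hl1.le hδ0 (by linarith) hCw le_rfl
  have hpi := Real.pi_pos
  obtain ⟨κ, hκ⟩ : ∃ κ, κ = kap R lam := ⟨_, rfl⟩
  have hev : ∀ᶠ H : ℝ in atTop, 1 ≤ H ∧ 8 * Cw ^ 4 * (1 + |κ|) ≤ e / 32 * (H / Real.pi) ∧
      C₅ * (1 + Real.log H) ≤ e / 32 * (H / Real.pi) := by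
    have h1 : ∀ᶠ H : ℝ in atTop, Real.log H ≤ (e / (32 * Real.pi) / (2 * (C₅ + 1))) * H := by
      have := Real.isLittleO_log_id_atTop.bound (show 0 < e / (32 * Real.pi) / (2 * (C₅ + 1)) by positivity)
      filter_upwards [this, eventually_ge_atTop (1 : ℝ)] with H h h1
      simp only [id, Real.norm_eq_abs] at h
      rw [abs_of_nonneg (Real.log_nonneg h1), abs_of_nonneg (by linarith : 0 ≤ H)] at h
      exact h
    have h2 : ∀ᶠ H : ℝ in atTop, (32 * Real.pi / e) * (8 * Cw ^ 4 * (1 + |κ|) + 2 * C₅) ≤ H := eventually_ge_atTop _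
    filter_upwards [h1, h2, eventually_ge_atTop 1] with H h1 h2 h3
    have e1 : e / 32 * (H / Real.pi) = e / (32 * Real.pi) * H := by field_simp
    have e2 : 8 * Cw ^ 4 * (1 + |κ|) + 2 * C₅ ≤ e / 32 * (H / Real.pi) := by
      have h4 := mul_le_mul_of_nonneg_left h2 (by positivity : 0 ≤ e / (32 * Real.pi))
      have h5 : e / (32 * Real.pi) * ((32 * Real.pi / e) * (8 * Cw ^ 4 * (1 + |κ|) + 2 * C₅)) =
          8 * Cw ^ 4 * (1 + |κ|) + 2 * C₅ := by field_simp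
      rw [h5] at h4
      rw [e1]
      exact h4
    have h6 : 0 ≤ 8 * Cw ^ 4 * (1 + |κ|) := by positivity
    refine ⟨h3, by linarith, ?_⟩
    have h7 : C₅ * Real.log H ≤ 1 / 2 * (e / 32 * (H / Real.pi)) := by
      have hlog := Real.log_nonneg h3
      calc C₅ * Real.log H ≤ (C₅ + 1) * Real.log H := by gcongr; linarith
        _ ≤ (C₅ + 1) * ((e / (32 * Real.pi) / (2 * (C₅ + 1))) * H) := by gcongr
        _ = 1 / 2 * (e / 32 * (H / Real.pi)) := by field_simp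
    linarith
  obtain ⟨H₀, hH₀⟩ := eventually_atTop.1 hev
  refine ⟨max H₀ 1, le_max_right _ _, fun H hH => ?_⟩
  obtain ⟨hH1, f1, f2⟩ := hH₀ H ((le_max_left _ _).trans hH)
  obtain ⟨w, hw⟩ := hOM H hH1
  obtain ⟨-, -, -, -, -, hI2⟩ := hQH δ H Cw 16 w hδ0 (by linarith) hH1 hCw (by norm_num) hw
  obtain ⟨h, hh⟩ : ∃ h, h = H / Real.pi := ⟨_, rfl⟩
  have hhH : H = h * Real.pi := by rw [hh]; field_simp
  have hh0 : 0 < h := by rw [hh]; positivity
  rw [← hh] at f1 f2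
  have hCw4 : 0 < Cw ^ 4 := by positivity
  have hI2' : |I2 w - h| ≤ 4 * Cw ^ 4 / 3 := by
    have e1 : Real.pi * I2 w - H = Real.pi * (I2 w - h) := by rw [hhH]; ring
    rw [e1, abs_mul, abs_of_pos hpi] at hI2
    have := Real.pi_gt_three
    have h2 := abs_nonneg (I2 w - h)
    nlinarith
  have f3 : 8 * Cw ^ 4 ≤ e / 32 * h := by
    have : 0 ≤ 8 * Cw ^ 4 * |κ| := by positivity
    linarith
  have f4 : |κ| * (4 * Cw ^ 4 / 3) ≤ e / 32 * h := by
    have : 0 ≤ Cw ^ 4 * |κ| := by positivity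
    linarith
  have hI2up : I2 w ≤ 2 * h := by
    have := (abs_le.1 hI2').2
    nlinarith
  have hI20 : 0 ≤ I2 w := by
    have := (abs_le.1 hI2').1
    nlinarith
  obtain ⟨θ, hθ⟩ : ∃ θ, θ = min (min ϑ (1 / 40)) (min ((1 - lam) / 4) (η ^ 2)) := ⟨_, rfl⟩
  have hθ0 : 0 < θ := by
    rw [hθ]
    have : 0 < 1 - lam := by linarith
    positivity
  have hθ1 : θ ≤ ϑ := by rw [hθ]; exact (min_le_left _ _).trans (min_le_left _ _)
  have hθ2 : θ ≤ 1 / 40 := by rw [hθ]; exact (min_le_left _ _).trans (min_le_right _ _)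
  have hθ3 : θ ≤ (1 - lam) / 4 := by rw [hθ]; exact (min_le_right _ _).trans (min_le_left _ _)
  have hθ4 : θ ≤ η ^ 2 := by rw [hθ]; exact (min_le_right _ _).trans (min_le_right _ _)
  refine ⟨θ, hθ0, hθ2, ?_⟩
  have hsδ : Real.sqrt δ ≤ η := by
    rw [Real.sqrt_le_left hη0.le]; exact hδ5
  have hsθ : Real.sqrt θ ≤ η := by
    rw [Real.sqrt_le_left hη0.le]; exact hθ4
  have ePA := hPA δ H Cw 16 w θ (e / 32 * h) hδ0 hδ2 (by linarith) (by linarith) hH1 hCw (by norm_num) hw hθ0 hθ2 (by positivity)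
  have eBD := hBD H hH1 w hw
  filter_upwards [ePA, eBD, eventually_ge_atTop (16 : ℝ)] with T ePA eBD hT16 N hN b
  have hT0 : 0 < T := by linarith
  have hT1 : 1 ≤ T := by linarith
  have hNϑ : (N : ℝ) ≤ T ^ ϑ := hN.trans (Real.rpow_le_rpow_of_exponent_le hT1 hθ1)
  replace ePA := ePA N hN b
  replace eBD := eBD N hNϑ b
  have hdpc : Continuous (dp N b) := by
    unfold dp
    refine continuous_finsetSum _ fun n hn => ?_
    refine continuous_const.mul ?_
    have hn0 : (n : ℂ) ≠ 0 := by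
      have := (Finset.mem_Icc.1 hn).1
      exact_mod_cast (by omega : n ≠ 0)
    exact Continuous.const_cpow (by fun_prop) (Or.inl hn0)
  have hVc : Continuous (fun t : ℝ => ‖dp N b t‖ ^ 2) := (hdpc.norm).pow 2
  have hRc : Continuous R := by
    have h1 : LipschitzWith (Real.toNNReal D) R := by
      refine LipschitzWith.of_dist_le_mul fun x y => ?_
      rw [Real.dist_eq, Real.dist_eq]
      refine (hT.lip x y).trans ?_
      exact mul_le_mul_of_nonneg_right (Real.le_coe_toNNReal D) (abs_nonneg _)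
    exact h1.continuous
  have hsw := swap_pair hw hδ0 hRc hVc T (lam * Real.log T) (T + 2 * Real.log T) (2 * T - 2 * Real.log T)
  have iP : IntervalIntegrable (fun t => (2 * ∫ α in (0 : ℝ)..1, R α * ‖Zt w T (lam * Real.log T * α) t‖ ^ 2) * ‖dp N b t‖ ^ 2)
      volume (T + 2 * Real.log T) (2 * T - 2 * Real.log T) := by
    refine Continuous.intervalIntegrable ?_ _ _
    refine Continuous.mul (continuous_const.mul ?_) hVc
    refine intervalIntegral.continuous_parametric_intervalIntegral_of_continuous' ?_ _ _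
    have hc := Zt_cont hw hδ0 T (lam * Real.log T)
    exact (hRc.comp continuous_snd).mul (((hc.comp (continuous_snd.prodMk continuous_fst)).norm).pow 2)
  have iD := DW_ii R lam H T hVc (T + 2 * Real.log T) (2 * T - 2 * Real.log T)
  have hPSt : ∀ t, (∑ s ∈ ZT T, ∑ s' ∈ ZT T, (mz s : ℝ) * (mz s' : ℝ) * (qr w T t s * qr w T t s') *
      fR R (lam * Real.log T * (s.im - s'.im))) = 2 * (∫ α in (0 : ℝ)..1, R α * ‖Zt w T (lam * Real.log T * α) t‖ ^ 2) :=
    fun t => (hPS hRH R D M hT δ H Cw 16 w hw T lam t hT1).symm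
  simp_rw [hPSt, sub_mul] at eBD
  rw [intervalIntegral.integral_sub iP iD, hsw] at eBD
  set P := 2 * ∫ α in (0 : ℝ)..1, R α * ∫ t in (T + 2 * Real.log T)..(2 * T - 2 * Real.log T),
        ‖Zt w T (lam * Real.log T * α) t‖ ^ 2 * ‖dp N b t‖ ^ 2 with hP
  set X := ∫ t in (T + 2 * Real.log T)..(2 * T - 2 * Real.log T), DW R lam H T t * ‖dp N b t‖ ^ 2 with hX
  obtain ⟨W, hW⟩ : ∃ W, W = T * N2 N b := ⟨_, rfl⟩
  have hW0 : 0 ≤ W := by rw [hW]; exact mul_nonneg hT0.le (N2_nonneg N b)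
  have ePA' : |P - κ * I2 w * W| ≤ (C₁ * (Real.sqrt δ + Real.sqrt θ) * I2 w + e / 32 * h) * W := by
    have e1 : (R 0 / lam + 2 * lam * ∫ α in (0 : ℝ)..1, α * R α) * I2 w * T * N2 N b = κ * I2 w * W := by
      rw [hκ, hW]; unfold kap; ring
    have e2 : (C₁ * (Real.sqrt δ + Real.sqrt θ) * I2 w + e / 32 * h) * T * N2 N b =
        (C₁ * (Real.sqrt δ + Real.sqrt θ) * I2 w + e / 32 * h) * W := by rw [hW]; ring
    rw [e1, e2] at ePA
    exact ePA
  have eBD' : |P - X| ≤ e / 32 * h * W := by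
    have e1 : C₅ * (1 + Real.log H) * T * N2 N b = C₅ * (1 + Real.log H) * W := by rw [hW]; ring
    rw [e1] at eBD
    exact eBD.trans (mul_le_mul_of_nonneg_right f2 hW0)
  have h2 : C₁ * (Real.sqrt δ + Real.sqrt θ) * I2 w ≤ 2 * (e / 32) * h := by
    have h3 : C₁ * (Real.sqrt δ + Real.sqrt θ) ≤ e / 32 := by
      have : C₁ * (Real.sqrt δ + Real.sqrt θ) ≤ C₁ * (2 * η) :=
        mul_le_mul_of_nonneg_left (by linarith) (by linarith)
      linarith
    calc C₁ * (Real.sqrt δ + Real.sqrt θ) * I2 w ≤ e / 32 * (2 * h) :=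
          mul_le_mul h3 hI2up hI20 (by positivity)
      _ = _ := by ring
  have h3 : (C₁ * (Real.sqrt δ + Real.sqrt θ) * I2 w + e / 32 * h) * W ≤ 3 * (e / 32) * h * W := by
    apply mul_le_mul_of_nonneg_right _ hW0
    linarith
  have h4 : |κ * I2 w * W - κ * h * W| ≤ e / 32 * h * W := by
    have e1 : κ * I2 w * W - κ * h * W = κ * (I2 w - h) * W := by ring
    rw [e1, abs_mul, abs_mul, abs_of_nonneg hW0]
    apply mul_le_mul_of_nonneg_right _ hW0
    exact (mul_le_mul_of_nonneg_left hI2' (abs_nonneg _)).trans f4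
  have hkey : 0 ≤ e * h * W := by positivity
  have hkey2 : e * h * W ≤ ε₀ * h * W := by gcongr
  rw [← hh, ← hW, ← hκ]
  have q1 := abs_le.1 (ePA'.trans h3)
  have q2 := abs_le.1 eBD'
  have q3 := abs_le.1 h4
  rw [abs_le]
  constructor <;> linarith [q1.1, q1.2, q2.1, q2.2, q3.1, q3.2]

end Pool.Agent.Q16.UM3
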